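import Pool.Agent.H20.UT.XSpec

/-!
Project UT, row X02: constants are in every valuation ring (helper1).
-/

set_option autoImplicit false
set_option maxHeartbeats 400000

open Polynomial

namespace Pool.Agent.H20.UT

theorem const_mem : SpConst := by
  intro p _ k L _ _ _ _ φ V c
  have hf : ∀ x : ZMod p, (φ.comp (algebraMap (ZMod p) k)) x ∈ V := by
    intro x
    obtain ⟨n, rfl⟩ := ZMod.natCast_zmod_surjective x
    rw [map_natCast]
    exact natCast_mem V n
  obtain ⟨P, hP, hc⟩ := (Algebra.IsAlgebraic.isAlgebraic (R := ZMod p) c).isIntegral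
  let g : ZMod p →+* V := (φ.comp (algebraMap (ZMod p) k)).codRestrict V.toSubring hf
  have hg : (algebraMap V L).comp g = φ.comp (algebraMap (ZMod p) k) := by
    ext x
    rfl
  have hi : IsIntegral V (φ c) := by
    refine ⟨P.map g, hP.map g, ?_⟩
    rw [eval₂_map, hg, ← hom_eval₂, hc, map_zero]
  obtain ⟨y, hy⟩ := IsIntegrallyClosed.isIntegral_iff.1 hi
  rw [← hy]
  exact y.2

end Pool.Agent.H20.UT
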