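import Pool.Agent.H19.UT.SpC
import Pool.Agent.K1.M5e

/-!
Project UT: `Base` and `Fg2` (helper20).
-/

set_option autoImplicit false
set_option maxHeartbeats 400000

open Polynomial Pool.Agent.K1 Pool.Agent.H19.UT

namespace Pool.Agent.H20.UT

theorem base_of (p : ℕ) [hp : Fact p.Prime] (k : Type) [Field k] [IsAlgClosed k]
    [Algebra (ZMod p) k] [Algebra.IsAlgebraic (ZMod p) k] : Base p k where
  prime := hp.out
  char := charP_of_injective_algebraMap (algebraMap (ZMod p) k).injective p
  closed := inferInstance
  tors c hc := pow_eq_one_of_algebraic (p := p) c hc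

theorem fg_of (k K : Type) [Field k] [Field K] [Algebra k K] [Algebra.EssFiniteType k K]
    (h : Algebra.trdeg k K = 2) : Fg2 k K where
  fg := by
    obtain ⟨S, hS⟩ := (Algebra.essFiniteType_iff k K).1 inferInstance
    refine ⟨S, fun E hE hSE => ?_⟩
    have h1 : ∀ t ∈ Algebra.adjoin k (S : Set K), t ∈ E := by
      intro t ht
      induction ht using Algebra.adjoin_induction with
      | mem x hx => exact hSE x hx
      | algebraMap c => exact hE c
      | add x y _ _ hx hy => exact E.add_mem hx hy
      | mul x y _ _ hx hy => exact E.mul_mem hx hy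
    rw [eq_top_iff]
    intro s _
    obtain ⟨t, ht, hu, hst⟩ := hS s
    have h2 : s = s * t * t⁻¹ := by
      have h3 := hu.ne_zero
      field_simp
    rw [h2]
    exact E.mul_mem (h1 _ hst) (E.inv_mem (h1 _ ht))
  dim z := by
    by_contra hcon
    push Not at hcon
    have h1 : AlgebraicIndependent k z := by
      rw [algebraicIndependent_iff]
      intro P hP
      by_contra hne
      exact hcon P hne hP
    have h2 := h1.cardinalMk_le_trdeg
    rw [h, Cardinal.mk_fin] at h2
    exact absurd h2 (by norm_num)

end Pool.Agent.H20.UT
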