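import Pool.Agent.H20.UT.Stmt

/-!
Project UT: rational function fields and transcendence degrees (helper20).
-/

set_option autoImplicit false
set_option maxHeartbeats 400000

open Polynomial Pool.Agent.K1 Pool.Agent.KM Pool.Agent.H19.UT

namespace Pool.Agent.H20.UT

theorem rf_coord (K : Type) [Field K] : Coord K (RatFunc K) (RatFunc.X : RatFunc K) := by
  refine ⟨RatFunc.transcendental_X, fun f => ⟨f.num, f.denom, ?_, ?_⟩⟩
  · rw [RatFunc.aeval_X_left_eq_algebraMap]
    exact RatFunc.algebraMap_ne_zero f.denom_ne_zero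
  · rw [RatFunc.aeval_X_left_eq_algebraMap, RatFunc.aeval_X_left_eq_algebraMap]
    have h1 := RatFunc.algebraMap_ne_zero f.denom_ne_zero
    nth_rewrite 1 [← RatFunc.num_div_denom f]
    field_simp

theorem rf_ess (k K : Type) [Field k] [Field K] [Algebra k K] [Algebra.EssFiniteType k K] :
    Algebra.EssFiniteType k (RatFunc K) := by
  have h1 : Algebra.EssFiniteType K (K[X]) := inferInstance
  have h2 : Algebra.EssFiniteType (K[X]) (RatFunc K) :=
    Algebra.EssFiniteType.of_isLocalization (RatFunc K) (nonZeroDivisors K[X])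
  have h3 : Algebra.EssFiniteType K (RatFunc K) := Algebra.EssFiniteType.comp K K[X] (RatFunc K)
  exact Algebra.EssFiniteType.comp k K (RatFunc K)

theorem rf_trdeg_one (K : Type) [Field K] : Algebra.trdeg K (RatFunc K) = 1 := by
  have h1 := trdeg_add_eq K K[X] (A := RatFunc K)
  rw [Polynomial.trdeg_of_isDomain] at h1
  have h2 : Algebra.IsAlgebraic K[X] (RatFunc K) :=
    IsLocalization.isAlgebraic (RatFunc K) (nonZeroDivisors K[X])
  rw [trdeg_eq_zero, add_zero] at h1
  exact h1.symm

theorem rf_trdeg (k K : Type) [Field k] [Field K] [Algebra k K] (h : Algebra.trdeg k K = 2) :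
    Algebra.trdeg k (RatFunc K) = 3 := by
  rw [← trdeg_add_eq k K (A := RatFunc K), rf_trdeg_one, h]
  norm_num

/-- Transcendence degrees over the prime field. -/
theorem trdeg_prime (p : ℕ) [Fact p.Prime] (k K : Type) [Field k] [Field K]
    [Algebra (ZMod p) k] [Algebra.IsAlgebraic (ZMod p) k] [Algebra k K] [Algebra (ZMod p) K] :
    Algebra.trdeg (ZMod p) K = Algebra.trdeg k K := by
  have h1 : IsScalarTower (ZMod p) k K :=
    IsScalarTower.of_algebraMap_eq' (Subsingleton.elim _ _)
  rw [← trdeg_add_eq (ZMod p) k (A := K), trdeg_eq_zero, zero_add]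

/-- A field extension between fields of the same finite transcendence degree over the prime field
is algebraic. -/
theorem alg_of_trdeg (p : ℕ) [Fact p.Prime] (M L : Type) [Field M] [Field L]
    [Algebra (ZMod p) M] [Algebra (ZMod p) L] [Algebra M L] (n : ℕ)
    (h1 : Algebra.trdeg (ZMod p) M = n) (h2 : Algebra.trdeg (ZMod p) L = n) :
    Algebra.IsAlgebraic M L := by
  have h3 : IsScalarTower (ZMod p) M L :=
    IsScalarTower.of_algebraMap_eq' (Subsingleton.elim _ _)
  have h4 := trdeg_add_eq (ZMod p) M (A := L)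
  rw [h1, h2] at h4
  rw [← trdeg_eq_zero_iff]
  have h5 : (n : Cardinal) + Algebra.trdeg M L = (n : Cardinal) + 0 := by rw [h4, add_zero]
  exact (Cardinal.add_nat_inj n).1 (by rwa [add_comm, add_comm (0 : Cardinal)])

end Pool.Agent.H20.UT
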