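import Pool.Agent.H20.UT.Stmt
import Pool.Agent.H20.UT.RF
import Pool.Agent.H20.UT.BaseFg
import Pool.Agent.H19.UT.ExtQ

/-!
Project UT: the field theoretic part of the final theorem (helper20).
-/

set_option autoImplicit false
set_option maxHeartbeats 400000

open Pool.Agent.K1 Pool.Agent.KM Pool.Agent.H19.UT

namespace Pool.Agent.H20.UT

theorem sy_map_map {A B C : Type} [Field A] [Field B] [Field C] (φ : A →+* B) (ψ : B →+* C)
    (β : Sy A) : Sy.map ψ (Sy.map φ β) = Sy.map (ψ.comp φ) β := by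
  induction β using FreeAbelianGroup.induction_on with
  | zero => simp only [map_zero]
  | of p =>
    obtain ⟨f, g⟩ := p
    rw [Sy.map_of, Sy.map_of, Sy.map_of]
    rfl
  | neg p hp => simp only [map_neg, hp]
  | add x y hx hy => simp only [map_add, hx, hy]

/-- A formal sum over an algebraic extension lives in a finite subextension. -/
theorem sy_finite {M L : Type} [Field M] [Field L] [Algebra M L] [Algebra.IsAlgebraic M L]
    (β : Sy L) : ∃ E : IntermediateField M L, FiniteDimensional M E ∧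
      ∃ βE : Sy E, Sy.map (algebraMap E L) βE = β := by
  induction β using FreeAbelianGroup.induction_on with
  | zero => exact ⟨⊥, inferInstance, 0, map_zero _⟩
  | of p =>
    obtain ⟨f, g⟩ := p
    have hf : (f : L) ∈ IntermediateField.adjoin M ({(f : L), (g : L)} : Set L) :=
      IntermediateField.subset_adjoin _ _ (by simp)
    have hg : (g : L) ∈ IntermediateField.adjoin M ({(f : L), (g : L)} : Set L) :=
      IntermediateField.subset_adjoin _ _ (by simp)
    refine ⟨IntermediateField.adjoin M ({(f : L), (g : L)} : Set L), ?_,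
      FreeAbelianGroup.of (Units.mk0 ⟨(f : L), hf⟩ fun h => f.ne_zero (congrArg Subtype.val h),
        Units.mk0 ⟨(g : L), hg⟩ fun h => g.ne_zero (congrArg Subtype.val h)), ?_⟩
    · exact IntermediateField.finiteDimensional_adjoin fun x _ =>
        (Algebra.IsIntegral.isIntegral x)
    · rw [Sy.map_of]
      congr 1
      exact Prod.ext (Units.ext rfl) (Units.ext rfl)
  | neg p hp =>
    obtain ⟨E, hE, βE, h⟩ := hp
    exact ⟨E, hE, -βE, by rw [map_neg, h]⟩
  | add x y hx hy =>
    obtain ⟨E, hE, βE, h⟩ := hx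
    obtain ⟨E', hE', βE', h'⟩ := hy
    refine ⟨E ⊔ E', IntermediateField.finiteDimensional_sup E E',
      Sy.map (IntermediateField.inclusion (le_sup_left : E ≤ E ⊔ E')).toRingHom βE +
      Sy.map (IntermediateField.inclusion (le_sup_right : E' ≤ E ⊔ E')).toRingHom βE', ?_⟩
    rw [map_add, sy_map_map, sy_map_map, ← h, ← h']
    rfl

theorem core (hMain : SpMain) (hNorm : SpNormDown) (hBT : SpBigTr) (hDisc : SpDisc)
    (p : ℕ) [Fact p.Prime] (k K M : Type) [Field k] [Field K] [Field M] [IsAlgClosed k]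
    [Algebra (ZMod p) k] [Algebra.IsAlgebraic (ZMod p) k] [Algebra k K]
    [Algebra.EssFiniteType k K] (hK : Algebra.trdeg k K = 2) (S : Surf k K)
    [Algebra (ZMod p) M] (hM : Algebra.trdeg (ZMod p) M = 3) (ι : M →+* RatFunc K) (d : Dat M) :
    ∃ (N : ℕ) (β : Sy M), 0 < N ∧ ∀ D : ValuationSubring M, IsDiscV D → Big p D → ∀ b : Sy M,
      TorsV D (d.val D * (sm D b)⁻¹) → TorsV D (sm D (β - N • b)) := by
  obtain ⟨N, β', hN, hβ'⟩ := hMain p k K (RatFunc K) (base_of p k) (fg_of k K hK) S RatFunc.X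
    (rf_coord K) (d.map ι)
  let _ : Algebra M (RatFunc K) := ι.toAlgebra
  let _ : Algebra (ZMod p) (RatFunc K) := (ι.comp (algebraMap (ZMod p) M)).toAlgebra
  have hL : Algebra.trdeg k (RatFunc K) = 3 := rf_trdeg k K hK
  have halg : Algebra.IsAlgebraic M (RatFunc K) :=
    alg_of_trdeg p M (RatFunc K) 3 hM (by rw [trdeg_prime p k (RatFunc K)]; exact hL)
  obtain ⟨E, hE, βE, hβE⟩ := sy_finite (M := M) β'
  have hcharM : CharP M p := charP_of_injective_algebraMap (algebraMap (ZMod p) M).injective p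
  obtain ⟨β₀, n, hn, h0⟩ := hNorm p M E βE
  refine ⟨N * n, β₀, Nat.mul_pos hN hn, fun D hD hBig b hb => h0 D hD b N fun D' hD' hD'D => ?_⟩
  obtain ⟨W, hW⟩ := f07_exists (M := E) (N := RatFunc K) D'
  have hWD : W.comap ι = D := by
    rw [← hD'D, ← hW]
    rfl
  have hess : Algebra.EssFiniteType k (RatFunc K) := rf_ess k K
  obtain ⟨hWd, hWb⟩ := hDisc p k M (RatFunc K) hL ι W (hWD ▸ hD) (hWD ▸ hBig)
  have h2 := hβ' W hWd (hBT p k (RatFunc K) W hWb)
  subst hW
  refine (torsV_sm_map_iff (algebraMap E (RatFunc K)) hWd _ hD').1 ?_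
  rw [map_sub, hβE, map_nsmul, sy_map_map]
  have h3 : (algebraMap E (RatFunc K)).comp (algebraMap M E) = ι := rfl
  rw [h3, sm_sub, sm_nsmul]
  -- the value of the pulled back data
  have h4 : TorsV W (sm W (Sy.map ι (d.β (d.idx D) - b))) := by
    refine torsV_sm_map ι hWd _ fun _ => ?_
    rw [hWD, sm_sub]
    exact hb
  have h5 := val_tors hWd (d.map ι) (d.idx D) (fun a ha => by
    classical
    obtain ⟨c, hc, rfl⟩ := Finset.mem_image.1 ha
    have h6 := d.idx_spec D c hc
    rw [← hWD] at h6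
    exact h6)
  have h6 : (d.map ι).β (d.idx D) = Sy.map ι (d.β (d.idx D)) := rfl
  rw [h6] at h5
  rw [map_sub, sm_sub] at h4
  have h7 := torsV_mul h2 (torsV_pow (torsV_mul h5 h4) N)
  have h8 : sm W β' * ((d.map ι).val W ^ N)⁻¹ * ((d.map ι).val W *
      (sm W (Sy.map ι (d.β (d.idx D))))⁻¹ * (sm W (Sy.map ι (d.β (d.idx D))) *
        (sm W (Sy.map ι b))⁻¹)) ^ N = sm W β' * (sm W (Sy.map ι b) ^ N)⁻¹ := by
    have h9 : (d.map ι).val W * (sm W (Sy.map ι (d.β (d.idx D))))⁻¹ *
        (sm W (Sy.map ι (d.β (d.idx D))) * (sm W (Sy.map ι b))⁻¹) =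
        (d.map ι).val W * (sm W (Sy.map ι b))⁻¹ := by group
    rw [h9, mul_pow, inv_pow, ← mul_assoc, mul_assoc (sm W β'), inv_mul_cancel, mul_one]
  rw [h8] at h7
  exact h7

end Pool.Agent.H20.UT
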