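import Pool.Agent.H20.UT.Model
import Pool.Agent.H19.UT.SpC

/-!
Project UT: the final statement (helper20).
-/

set_option autoImplicit false
set_option maxHeartbeats 400000

open AlgebraicGeometry CategoryTheory Pool.Agent.K1 Pool.Agent.KM Pool.Agent.H19.UT

namespace Pool.Agent.H20.UT

/-- X18: a regular projective surface gives a `Surf`. -/
def SpModelOf : Prop := ∀ (p : ℕ) [Fact p.Prime] (k : Type) [Field k] [IsAlgClosed k]
  [Algebra (ZMod p) k] [Algebra.IsAlgebraic (ZMod p) k] (n : ℕ) (S : Scheme.{0}) [IsIntegral S]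
  [IsNoetherian S] (i : S ⟶ PN k n) [IsClosedImmersion i] (E : Embed k S n),
  (∀ x : S, IsRegularLocalRing (S.presheaf.stalk x)) → (∀ x : S, Order.coheight x ≤ 2) →
  (∃ x : S, Order.coheight x = 2) → letI := E.kf.toAlgebra
  Nonempty (Surf k S.functionField)

/-- X19: algebraic independence over the prime field and over an algebraic extension. -/
def SpBigTr : Prop := ∀ (p : ℕ) [Fact p.Prime] (k L : Type) [Field k] [Field L]
  [Algebra (ZMod p) k] [Algebra.IsAlgebraic (ZMod p) k] [Algebra k L] (W : ValuationSubring L),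
  Big p W → Tr2 k W

/-- The final statement. -/
def SpFinal : Prop := ∀ (p : ℕ) [Fact p.Prime] (F : Type) [Field F] [Algebra (ZMod p) F]
  [Algebra.IsAlgebraic (ZMod p) F] (n : ℕ) (X : Scheme.{0}) [IsIntegral X] [IsNoetherian X]
  (i : X ⟶ PN F n) [IsClosedImmersion i], (∀ x : X, IsRegularLocalRing (X.presheaf.stalk x)) →
  (∀ x : X, Order.coheight x ≤ 3) → (∃ x : X, Order.coheight x = 3) →
  ∀ (k : Type) [Field k] [IsAlgClosed k] [Algebra (ZMod p) k] [Algebra.IsAlgebraic (ZMod p) k]
  (m : ℕ) (S : Scheme.{0}) [IsIntegral S] [IsNoetherian S] (j : S ⟶ PN k m) [IsClosedImmersion j],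
  (∀ x : S, IsRegularLocalRing (S.presheaf.stalk x)) → (∀ x : S, Order.coheight x ≤ 2) →
  (∃ x : S, Order.coheight x = 2) → ∀ (ι : X.functionField →+* RatFunc S.functionField)
  (β : X → MilnorK X.functionField 2), IsSection2 β → ∀ ξ : SChain X,
  (∀ x : PointOne X, IsTameK2 x.1 (β x.1) (Additive.toMul (ξ x))) →
  ∃ N : ℕ, 0 < N ∧ N • ξ ∈ tameChains X

end Pool.Agent.H20.UT
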