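import Pool.Agent.H20.UT.XSpec
import Pool.Agent.K1.BAffDim
import Pool.Agent.K1.BHeight

/-!
Project UT, X15: the residue field at a point of codimension one of a threefold.
-/

set_option autoImplicit false
set_option maxHeartbeats 400000

open AlgebraicGeometry CategoryTheory Pool.Agent.K1 Pool.Agent.KM Pool.Agent.H19.UT

namespace Pool.Agent.H20.UT

/-- A prime of height one of a finitely generated domain of dimension three: two elements whose
integral polynomials, nonzero modulo `p`, are not in the prime. -/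
theorem bigS_ring (p : ℕ) [Fact p.Prime] (k : Type) {A : Type} [Field k] [Algebra (ZMod p) k]
    [CommRing A] [IsDomain A] [Algebra k A] [Algebra.FiniteType k A] (P : Ideal A) [P.IsPrime]
    (hP : P.height = 1) (hd : ringKrullDim A = (3 : ℕ)) :
    ∃ a : Fin 2 → A, ∀ Q : MvPolynomial (Fin 2) ℤ, Q.map (Int.castRingHom (ZMod p)) ≠ 0 →
      Q.eval₂ (Int.castRingHom A) a ∉ P := by
  have h1 := height_add_dim (k := k) P
  obtain ⟨s, -, h2, h3⟩ := L2R_key (k := k) (A := A ⧸ P)
  rw [hP, hd, h2] at h1
  have hs : s = 2 := by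
    have h4 : ((1 + s : ℕ) : WithBot ℕ∞) = ((3 : ℕ) : WithBot ℕ∞) := by
      push_cast
      exact h1
    have h5 : 1 + s = 3 := Nat.cast_injective h4
    omega
  subst hs
  have hfs : FaithfulSMul k (A ⧸ P) :=
    (faithfulSMul_iff_algebraMap_injective _ _).mpr (algebraMap k (A ⧸ P)).injective
  obtain ⟨ι, x, hx⟩ := exists_isTranscendenceBasis' k (A ⧸ P)
  have h6 := hx.cardinalMk_eq_trdeg
  rw [h3] at h6
  have h7 : Cardinal.mk ι = Cardinal.mk (Fin 2) := by
    rw [h6]; simp
  obtain ⟨e⟩ := Cardinal.eq.1 h7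
  have hind : AlgebraicIndependent k (x ∘ e.symm) := hx.1.comp _ e.symm.injective
  choose a ha using fun i => Ideal.Quotient.mk_surjective (I := P) ((x ∘ e.symm) i)
  refine ⟨a, fun Q hQ hmem => ?_⟩
  have h8 : (Ideal.Quotient.mk P) (Q.eval₂ (Int.castRingHom A) a) = 0 :=
    Ideal.Quotient.eq_zero_iff_mem.2 hmem
  rw [MvPolynomial.eval₂_comp_left] at h8
  have h9 : (Ideal.Quotient.mk P : A → A ⧸ P) ∘ a = x ∘ e.symm := funext ha
  have h10 : MvPolynomial.aeval (x ∘ e.symm) (Q.map (Int.castRingHom k)) = 0 := by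
    rw [MvPolynomial.aeval_def, MvPolynomial.eval₂_map, ← h8, h9]
    congr 1
    exact RingHom.ext_int _ _
  have h11 := hind.eq_zero_of_aeval_eq_zero _ h10
  apply hQ
  have h12 : (Q.map (Int.castRingHom (ZMod p))).map (algebraMap (ZMod p) k) = 0 := by
    rw [MvPolynomial.map_map, ← h11]
    congr 2
    exact RingHom.ext_int _ _
  exact MvPolynomial.map_injective _ (algebraMap (ZMod p) k).injective (by rw [h12, map_zero])

theorem big_stk' : SpBig := by
  intro p _ k _ _ _ n X _ _ E hle hex x D hD
  obtain ⟨j, hj⟩ := E.cover x.1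
  have hgj : genericPoint X ∈ E.U (Pi.single j 1) :=
    (genericPoint_specializes x.1).mem_open (E.U (Pi.single j 1)).isOpen hj
  have haff := (E.affine _ (af_l_ne_zero E hgj)).1
  obtain ⟨-, hdim⟩ := bad_height E 3 (fun y => by exact_mod_cast hle y)
    (by obtain ⟨y, hy⟩ := hex; exact ⟨y, by exact_mod_cast hy⟩) (Pi.single j 1) hgj
  have hne : Nonempty (E.U (Pi.single j 1)) := ⟨⟨_, hgj⟩⟩
  let _ := (E.strOn (E.U (Pi.single j 1))).toAlgebra
  have hft : Algebra.FiniteType k Γ(X, E.U (Pi.single j 1)) := af_finiteType E _ hgj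
  obtain ⟨P, hPx⟩ := af_surj haff hj
  have hco : P.asIdeal.height = 1 := by
    rw [← af_coheight haff P, hPx]; exact x.2
  obtain ⟨a, ha⟩ := bigS_ring p k P.asIdeal hco hdim
  obtain ⟨x, hx⟩ := x
  subst hPx
  let g := (X.presheaf.germ (E.U (Pi.single j 1)) (haff.fromSpec P) hj).hom
  refine ⟨fun i => algebraMap (X.presheaf.stalk (haff.fromSpec P)) X.functionField (g (a i)),
    fun Q hQ => ?_⟩
  have h1 : IsUnit (g (Q.eval₂ (Int.castRingHom _) a)) :=
    (af_germ_unit haff P hj _).2 (ha Q hQ)
  have h2 : Q.eval₂ (Int.castRingHom X.functionField)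
      (fun i => algebraMap (X.presheaf.stalk (haff.fromSpec P)) X.functionField (g (a i))) =
      algebraMap (X.presheaf.stalk (haff.fromSpec P)) X.functionField
        (g (Q.eval₂ (Int.castRingHom _) a)) := by
    have h3 := MvPolynomial.eval₂_comp_left
      ((algebraMap (X.presheaf.stalk (haff.fromSpec P)) X.functionField).comp g)
      (Int.castRingHom _) a Q
    rw [RingHom.comp_apply] at h3
    rw [h3]
    congr 1
    exact RingHom.ext_int _ _
  rw [h2]
  obtain ⟨u, hu⟩ := h1
  rw [← hu]
  constructor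
  · exact (hD _).2 ⟨_, rfl⟩
  · intro hn
    have h4 : (algebraMap (X.presheaf.stalk (haff.fromSpec P)) X.functionField)
        ((u⁻¹ : (X.presheaf.stalk (haff.fromSpec P))ˣ) : X.presheaf.stalk (haff.fromSpec P)) ∈ D :=
      (hD _).2 ⟨_, rfl⟩
    have h5 : (1 : X.functionField) ∈ D.nonunits := by
      have h6 := (ValuationSubring.mem_nonunits_iff _).1 hn
      rw [ValuationSubring.mem_nonunits_iff]
      have h7 : (1 : X.functionField) =
          algebraMap (X.presheaf.stalk (haff.fromSpec P)) X.functionField u *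
          algebraMap (X.presheaf.stalk (haff.fromSpec P)) X.functionField
            ((u⁻¹ : (X.presheaf.stalk (haff.fromSpec P))ˣ) :
              X.presheaf.stalk (haff.fromSpec P)) := by
        rw [← map_mul, Units.mul_inv, map_one]
      rw [h7, map_mul]
      exact mul_lt_one_of_lt_of_le h6 ((D.valuation_le_one_iff _).2 h4)
    rw [ValuationSubring.mem_nonunits_iff, map_one] at h5
    exact lt_irrefl _ h5

/-- X15: the residue field at a point of codimension one of a threefold is big. -/
theorem big_stk (_ : SpConst) (_ : SpStk) (_ : SpTrdeg) : SpBig := big_stk'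

end Pool.Agent.H20.UT
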