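import Pool.Agent.H20.UT.XSpec
import Pool.Agent.K1.SchemeOf
import Pool.Agent.K1.BFinBd

/-!
Project UT, row X08: the tame symbols of a formal sum at the points of codimension one form a
chain in `tameChains` (helper28).
-/

set_option autoImplicit false
set_option maxHeartbeats 400000

open AlgebraicGeometry CategoryTheory Pool.Agent.K1 Pool.Agent.KM Pool.Agent.H19.UT

namespace Pool.Agent.H20.UT

section aux

variable {X : Scheme.{0}} [IsIntegral X]

theorem chain_stkUnit_mul (x : X) (u v : (X.presheaf.stalk x)ˣ) :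
    stkUnit x (u * v) = stkUnit x u * stkUnit x v := map_mul _ u v

theorem chain_stkUnit_inv (x : X) (u : (X.presheaf.stalk x)ˣ) :
    stkUnit x u⁻¹ = (stkUnit x u)⁻¹ := map_inv _ u

theorem chain_stkUnit_one (x : X) : stkUnit x (1 : (X.presheaf.stalk x)ˣ) = 1 := map_one _

theorem chain_stkUnit_inj (x : X) {u v : (X.presheaf.stalk x)ˣ} (h : stkUnit x u = stkUnit x v) :
    u = v := by
  apply Units.ext
  apply IsFractionRing.injective (X.presheaf.stalk x) X.functionField
  exact congrArg Units.val h

/-- A rational function is a unit of the local rings at almost all points of codimension one. -/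
theorem chain_finite [IsNoetherian X] (f : X.functionFieldˣ) :
    {x : PointOne X | ¬ ∃ v : (X.presheaf.stalk x.1)ˣ,
      algebraMap (X.presheaf.stalk x.1) X.functionField v = f}.Finite := by
  obtain ⟨U, hU, s, hs⟩ := X.presheaf.exists_germ_eq (f : X.functionField)
  have hmem : genericPoint X ∈ X.basicOpen s := by
    rw [X.mem_basicOpen s (genericPoint X) hU]
    have h0 : IsUnit (f : X.functionField) := f.isUnit
    rw [← hs] at h0
    exact h0
  have hco : Order.coheight (genericPoint X) = ((0 : ℕ) : ℕ∞) := by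
    rw [Nat.cast_zero, Order.coheight_eq_zero]
    intro y _
    exact genericPoint_specializes y
  have hfin := bfin_of_closed (X := X) (m := 0) ⟨genericPoint X, hco⟩
    ((X.basicOpen s : Set X)ᶜ) (X.basicOpen s).2.isClosed_compl (fun h => h hmem)
    (fun y _ => genericPoint_specializes y)
  refine (hfin.preimage (f := fun x : PointOne X => (⟨x.1, by rw [x.2]; rfl⟩ : PointCo X (0 + 1)))
    ?_).subset ?_
  · intro a _ b _ hab
    exact Subtype.ext (congrArg Subtype.val hab)
  · intro x hx
    refine fun hxb => hx ?_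
    have hxb' : x.1 ∈ X.basicOpen s := hxb
    have hyU : x.1 ∈ U := X.basicOpen_le s hxb'
    have hun : IsUnit ((X.presheaf.germ U x.1 hyU).hom s) := (X.mem_basicOpen s x.1 hyU).mp hxb'
    refine ⟨hun.unit, ?_⟩
    rw [IsUnit.unit_spec]
    have hg : (X.presheaf.stalkSpecializes (genericPoint_specializes x.1)).hom
        ((X.presheaf.germ U x.1 hyU).hom s) = (X.presheaf.germ U (genericPoint X) hU).hom s := by
      have h1 := X.presheaf.germ_stalkSpecializes hyU (genericPoint_specializes x.1)
      exact congrArg (fun f => f.hom s) h1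
    exact hg.trans hs

end aux

theorem chain_sm_of {L : Type} [Field L] (D : ValuationSubring L) (f g : Lˣ) :
    sm D (FreeAbelianGroup.of (f, g)) = f ^ ordV D (g : L) * g ^ (-(ordV D (f : L))) := by
  rw [sm, smb, FreeAbelianGroup.lift_apply_of]
  rfl

theorem chain_sm_zero {L : Type} [Field L] (D : ValuationSubring L) : sm D (0 : Sy L) = 1 := by
  rw [sm, map_zero]
  rfl

theorem chain_sm_add {L : Type} [Field L] (D : ValuationSubring L) (β β' : Sy L) :
    sm D (β + β') = sm D β * sm D β' := by
  rw [sm, map_add]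
  rfl

theorem chain_sm_neg {L : Type} [Field L] (D : ValuationSubring L) (β : Sy L) :
    sm D (-β) = (sm D β)⁻¹ := by
  rw [sm, map_neg]
  rfl

section main

variable {X : Scheme.{0}} [IsIntegral X] [IsNoetherian X]

/-- the claim -/
def ChainOf (γ : Sy X.functionField) (η : SChain X) : Prop :=
  ∀ (x : PointOne X) (D), IsStk x.1 D →
    (∃ v : (X.presheaf.stalk x.1)ˣ, sm D γ = stkUnit x.1 v) ∧
    ∀ v : (X.presheaf.stalk x.1)ˣ, sm D γ = stkUnit x.1 v →
      (X.residue x.1).hom (v : X.presheaf.stalk x.1) ^ 2 =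
      ((Additive.toMul (η x) : (X.residueField x.1)ˣ) : X.residueField x.1) ^ 2

theorem chain_zero : ChainOf (X := X) 0 0 := by
  intro x D _
  refine ⟨⟨1, ?_⟩, ?_⟩
  · rw [chain_sm_zero, chain_stkUnit_one]
  · intro v hv
    rw [chain_sm_zero, ← chain_stkUnit_one x.1] at hv
    have := chain_stkUnit_inj x.1 hv
    subst this
    rw [Units.val_one, map_one]
    change (1 : X.residueField x.1) ^ 2 = ((1 : (X.residueField x.1)ˣ) : X.residueField x.1) ^ 2
    rw [Units.val_one]

theorem chain_add {γ γ' : Sy X.functionField} {η η' : SChain X} (h : ChainOf γ η)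
    (h' : ChainOf γ' η') : ChainOf (γ + γ') (η + η') := by
  intro x D hD
  obtain ⟨⟨u, hu⟩, h2⟩ := h x D hD
  obtain ⟨⟨u', hu'⟩, h2'⟩ := h' x D hD
  refine ⟨⟨u * u', ?_⟩, ?_⟩
  · rw [chain_sm_add, chain_stkUnit_mul, hu, hu']
  · intro v hv
    rw [chain_sm_add, hu, hu', ← chain_stkUnit_mul] at hv
    have := chain_stkUnit_inj x.1 hv
    subst this
    have e1 := h2 u hu
    have e2 := h2' u' hu'
    rw [Units.val_mul, map_mul, mul_pow, e1, e2]
    change _ = (((Additive.toMul (η x) : (X.residueField x.1)ˣ) *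
      (Additive.toMul (η' x) : (X.residueField x.1)ˣ) : (X.residueField x.1)ˣ) :
      X.residueField x.1) ^ 2
    rw [Units.val_mul, mul_pow]

theorem chain_neg {γ : Sy X.functionField} {η : SChain X} (h : ChainOf γ η) :
    ChainOf (-γ) (-η) := by
  intro x D hD
  obtain ⟨⟨u, hu⟩, h2⟩ := h x D hD
  refine ⟨⟨u⁻¹, ?_⟩, ?_⟩
  · rw [chain_sm_neg, chain_stkUnit_inv, hu]
  · intro v hv
    rw [chain_sm_neg, hu, ← chain_stkUnit_inv] at hv
    have := chain_stkUnit_inj x.1 hv
    subst this
    have e1 := h2 u hu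
    have e3 : (X.residue x.1).hom ((u⁻¹ : (X.presheaf.stalk x.1)ˣ) : X.presheaf.stalk x.1) *
        (X.residue x.1).hom (u : X.presheaf.stalk x.1) = 1 := by
      rw [← map_mul, Units.inv_mul, map_one]
    have e4 : (X.residue x.1).hom ((u⁻¹ : (X.presheaf.stalk x.1)ˣ) : X.presheaf.stalk x.1) ^ 2 *
        (X.residue x.1).hom (u : X.presheaf.stalk x.1) ^ 2 = 1 := by
      rw [← mul_pow, e3, one_pow]
    rw [e1] at e4
    change _ = (((Additive.toMul (η x) : (X.residueField x.1)ˣ)⁻¹ : (X.residueField x.1)ˣ) :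
      X.residueField x.1) ^ 2
    rw [Units.val_inv_eq_inv_val, inv_pow]
    exact eq_inv_of_mul_eq_one_left e4

theorem chain_of (h3 : SpStk) (h4 : SpTameAt)
    (hreg : ∀ x : X, IsRegularLocalRing (X.presheaf.stalk x)) (f g : X.functionFieldˣ) :
    ∃ η ∈ tameChains X, ChainOf (FreeAbelianGroup.of (f, g)) η := by
  classical
  have hfin := (chain_finite (X := X) f).union (chain_finite (X := X) g)
  have key : ∀ x : PointOne X, ∃ t, IsTameAt x.1 (f : X.functionField) (g : X.functionField) t := by
    intro x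
    obtain ⟨⟨D, hD⟩, -⟩ := h3 X x.1 x.2 (hreg x.1)
    exact (h4 X x.1 x.2 (hreg x.1) D hD f g).1
  choose t ht using key
  let ξ : SChain X := DFinsupp.mk hfin.toFinset fun x => Additive.ofMul (t x)
  have hξ : ∀ x : PointOne X, IsTameAt x.1 (f : X.functionField) (g : X.functionField)
      (Additive.toMul (ξ x)) := by
    intro x
    change IsTameAt x.1 (f : X.functionField) (g : X.functionField)
      (Additive.toMul ((DFinsupp.mk hfin.toFinset fun x => Additive.ofMul (t x) : SChain X) x))
    rw [DFinsupp.mk_apply]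
    split_ifs with hx
    · exact ht x
    · rw [Set.Finite.mem_toFinset] at hx
      obtain ⟨a, ha⟩ : ∃ v : (X.presheaf.stalk x.1)ˣ,
          algebraMap (X.presheaf.stalk x.1) X.functionField v = f := by
        by_contra hne
        exact hx (Or.inl hne)
      obtain ⟨b, hb⟩ : ∃ v : (X.presheaf.stalk x.1)ˣ,
          algebraMap (X.presheaf.stalk x.1) X.functionField v = g := by
        by_contra hne
        exact hx (Or.inr hne)
      have hf0 : X.ord (f : X.functionField) x.1 = 0 := by rw [← ha]; exact so_ord_unit x.1 a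
      have hg0 : X.ord (g : X.functionField) x.1 = 0 := by rw [← hb]; exact so_ord_unit x.1 b
      refine ⟨1, ?_, ?_⟩
      · rw [hf0, hg0, zpow_zero, mul_zero, zpow_zero, zpow_zero, Units.val_one, map_one, one_mul,
          one_mul]
      · change ((1 : (X.residueField x.1)ˣ) : X.residueField x.1) = _
        rw [Units.val_one, Units.val_one]
        exact (map_one (X.residue x.1).hom).symm
  refine ⟨ξ, AddSubgroup.subset_closure ⟨f, g, f.ne_zero, g.ne_zero, hξ⟩, ?_⟩
  intro x D hD
  have hord := ((h3 X x.1 x.2 (hreg x.1)).2 D hD).2.2.1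
  refine ⟨?_, fun v hv => (h4 X x.1 x.2 (hreg x.1) D hD f g).2 _ (hξ x) v hv⟩
  obtain ⟨u, hu, -⟩ := hξ x
  refine ⟨(-1) ^ (X.ord (f : X.functionField) x.1 * X.ord (g : X.functionField) x.1) * u, ?_⟩
  rw [chain_sm_of, hord f, hord g]
  apply Units.ext
  rw [chain_stkUnit_mul, Units.val_mul, Units.val_mul, Units.val_zpow_eq_zpow_val,
    Units.val_zpow_eq_zpow_val, hu]
  have e1 : ((stkUnit x.1 ((-1) ^ (X.ord (f : X.functionField) x.1 *
      X.ord (g : X.functionField) x.1)) : X.functionFieldˣ) : X.functionField) =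
      (-1) ^ (X.ord (f : X.functionField) x.1 * X.ord (g : X.functionField) x.1) := by
    rw [stkUnit, map_zpow, Units.val_zpow_eq_zpow_val]
    congr 1
    change algebraMap (X.presheaf.stalk x.1) X.functionField
      ((-1 : (X.presheaf.stalk x.1)ˣ) : X.presheaf.stalk x.1) = -1
    rw [Units.val_neg, Units.val_one, map_neg, map_one]
  have e2 : ((stkUnit x.1 u : X.functionFieldˣ) : X.functionField) =
      algebraMap (X.presheaf.stalk x.1) X.functionField u := rfl
  rw [e1, e2, zpow_neg]
  have hg' : (g : X.functionField) ^ X.ord (f : X.functionField) x.1 ≠ 0 :=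
    zpow_ne_zero _ g.ne_zero
  field_simp

end main

/-- X08 -/
theorem chain_exists (h3 : SpStk) (h4 : SpTameAt) (_h13 : SpUnitFin) : SpChain := by
  intro X _ _ hreg γ
  have key : ∃ η ∈ tameChains X, ChainOf γ η := by
    induction γ using FreeAbelianGroup.induction_on with
    | zero => exact ⟨0, zero_mem _, chain_zero⟩
    | of p => exact chain_of h3 h4 hreg p.1 p.2
    | neg p h =>
      obtain ⟨η, h1, h2⟩ := h
      exact ⟨-η, neg_mem h1, chain_neg h2⟩
    | add a b ha hb =>
      obtain ⟨η, h1, h2⟩ := ha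
      obtain ⟨η', h1', h2'⟩ := hb
      exact ⟨η + η', add_mem h1 h1', chain_add h2 h2'⟩
  obtain ⟨η, h1, h2⟩ := key
  exact ⟨η, h1, fun x D hD v hv => (h2 x D hD).2 v hv⟩

end Pool.Agent.H20.UT
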