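import Pool.Agent.H20.UT.XSpec
import Pool.Agent.K1.BDomIff
import Pool.Agent.K1.DGen

/-!
Project UT, row X05: centres of valuation rings (helper82).
-/

set_option autoImplicit false
set_option maxHeartbeats 400000

open AlgebraicGeometry CategoryTheory Pool.Agent.K1 Pool.Agent.KM Pool.Agent.H19.UT

namespace Pool.Agent.H20.UT

namespace CtrX

variable {X : Scheme.{0}} [IsIntegral X]

/-- the function field and the residue field at the generic point -/
theorem res_bijective : Function.Bijective (X.residue (genericPoint X)).hom := by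
  refine ⟨?_, X.residue_surjective (genericPoint X)⟩
  have hf : IsField X.functionField := Field.toIsField _
  have h : Function.Injective (IsLocalRing.residue (X.presheaf.stalk (genericPoint X))) := by
    rw [injective_iff_map_eq_zero]
    intro a ha
    rw [IsLocalRing.residue_eq_zero_iff] at ha
    by_contra h0
    obtain ⟨b, hb⟩ := hf.mul_inv_cancel (show (a : X.functionField) ≠ 0 from h0)
    exact (IsLocalRing.mem_maximalIdeal _).1 ha (IsUnit.of_mul_eq_one b hb)
  exact h

/-- the isomorphism of the function field with the residue field at the generic point -/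
noncomputable def eqv : X.functionField ≃+* X.residueField (genericPoint X) :=
  RingEquiv.ofBijective (X.residue (genericPoint X)).hom res_bijective

theorem eqv_apply (a : X.functionField) : eqv a = (X.residue (genericPoint X)).hom a := rfl

theorem evalAt_eq {y : X} (h : genericPoint X ⤳ y) (b : X.presheaf.stalk y) :
    evalAt h b = eqv (algebraMap (X.presheaf.stalk y) X.functionField b) := rfl

/-- the valuation ring in the residue field -/
noncomputable def V' (V : ValuationSubring X.functionField) :
    ValuationSubring (X.residueField (genericPoint X)) :=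
  V.comap (eqv (X := X)).symm.toRingHom

theorem mem_V' (V : ValuationSubring X.functionField) (a : X.functionField) :
    eqv a ∈ V' V ↔ a ∈ V := by
  rw [V', ValuationSubring.mem_comap]
  change (eqv (X := X)).symm (eqv a) ∈ V ↔ a ∈ V
  rw [RingEquiv.symm_apply_apply]

theorem mem_nonunits' {K : Type} [Field K] (W : ValuationSubring K) (a : K) (ha : a ≠ 0) :
    a ∈ W.nonunits ↔ a⁻¹ ∉ W := by
  rw [ValuationSubring.mem_nonunits_iff, ← not_le, not_iff_not, ← W.valuation_le_one_iff,
    map_inv₀, inv_le_one₀ (zero_lt_iff.2 ((map_ne_zero _).2 ha))]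

theorem non_V' (V : ValuationSubring X.functionField) (a : X.functionField) :
    eqv a ∈ (V' V).nonunits ↔ a ∈ V.nonunits := by
  by_cases h0 : a = 0
  · subst h0
    rw [map_zero]
    simp
  · rw [mem_nonunits' _ _ h0, mem_nonunits' _ _ ((map_ne_zero (eqv (X := X))).2 h0),
      ← map_inv₀, mem_V']

theorem dom_iff (V : ValuationSubring X.functionField) {y : X} (h : genericPoint X ⤳ y) :
    Dominates h (V' V) ↔ Ctr V y := by
  unfold Dominates Ctr
  simp only [evalAt_eq, mem_V', non_V']

end CtrX

open CtrX in
/-- X05 -/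
theorem ctr_unique : SpCtr := by
  intro k _ n X _ E V hV
  have hk : ∀ a : k, E.kres (genericPoint X) a ∈ V' V := by
    intro a
    have h1 : E.kres (genericPoint X) a = eqv (E.kf a) := rfl
    rw [h1, mem_V']
    exact hV a
  have hgen : ∀ y : X, genericPoint X ⤳ y := fun y =>
    (genericPoint_spec X).specializes trivial
  obtain ⟨y0, h0, hy0⟩ := E.val (genericPoint X) (V' V) hk
  obtain ⟨U, hU, hyU, -⟩ := exists_isAffineOpen_mem_and_subset (x := y0) (U := ⊤) trivial
  have hη : genericPoint X ∈ U := h0.mem_open U.isOpen hyU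
  let gB : Γ(X, U) →+* X.residueField (genericPoint X) :=
    (X.evaluation U (genericPoint X) hη).hom
  have hgB : ∀ b, gB b ∈ V' V := by
    intro b
    have h1 : evalAt h0 ((X.presheaf.germ U y0 hyU).hom b) = gB b := evalAt_germ h0 U hyU b
    rw [← h1]
    exact hy0 _
  let φ : Γ(X, U) →+* V' V := gB.codRestrict (V' V) hgB
  let q : Ideal Γ(X, U) := (IsLocalRing.maximalIdeal (V' V)).comap φ
  have hqp : q.IsPrime := Ideal.comap_isPrime φ _
  have hq : ∀ b, b ∈ q ↔ gB b ∈ (V' V).nonunits := fun b => by
    rw [Ideal.mem_comap]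
    exact (ValuationSubring.mem_nonunits_iff_exists_mem_maximalIdeal (A := V' V)).trans
      ⟨fun ⟨_, h⟩ => h, fun h => ⟨hgB b, h⟩⟩ |>.symm
  let Q : PrimeSpectrum Γ(X, U) := ⟨q, hqp⟩
  have hxU : hU.fromSpec Q ∈ U := af_mem hU Q
  have hev : ∀ b : Γ(X, U), (X.evaluation U (hU.fromSpec Q) hxU).hom b = 0 ↔
      gB b ∈ (V' V).nonunits := by
    intro b
    rw [dgen_mem_asIdeal hU Q hxU b]
    exact hq b
  have hdom : Dominates (hgen (hU.fromSpec Q)) (V' V) :=
    (dominates_iff U hU (hgen _) hxU hη (V' V)).2 fun b => ⟨hgB b, hev b⟩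
  refine ⟨hU.fromSpec Q, (dom_iff V (hgen _)).1 hdom, fun y hy => ?_⟩
  exact centre_unique E (hgen y) (hgen _) (V' V) ((dom_iff V (hgen y)).2 hy) hdom

end Pool.Agent.H20.UT
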