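import Pool.Agent.H20.UT.XSpec
import Pool.Agent.K1.AffineFacts

/-!
Project UT, row X14: centres of valuation rings on a regular surface (helper72).
-/

set_option autoImplicit false
set_option maxHeartbeats 400000

open AlgebraicGeometry CategoryTheory Pool.Agent.K1 Pool.Agent.KM Pool.Agent.H19.UT

namespace Pool.Agent.H20.UT

theorem x14_hom {k A : Type} [Field k] [IsAlgClosed k] [CommRing A] [Algebra k A]
    [Algebra.FiniteType k A] (M : Ideal A) (hM : M.IsMaximal) :
    ∃ x : A →ₐ[k] k, RingHom.ker x = M := by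
  let _ : Field (A ⧸ M) := Ideal.Quotient.field M
  have hfd : Module.Finite k (A ⧸ M) := finite_of_finite_type_of_isJacobsonRing k (A ⧸ M)
  have hb : Function.Bijective (algebraMap k (A ⧸ M)) :=
    IsAlgClosed.algebraMap_bijective_of_isIntegral
  let e : k ≃ₐ[k] (A ⧸ M) := AlgEquiv.ofBijective (Algebra.ofId k (A ⧸ M)) hb
  refine ⟨(e.symm : (A ⧸ M) →ₐ[k] k).comp (Ideal.Quotient.mkₐ k M), ?_⟩
  ext z
  rw [RingHom.mem_ker, AlgHom.comp_apply]
  constructor
  · intro h
    have h1 : (Ideal.Quotient.mkₐ k M) z = 0 := by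
      have h2 := congrArg e h
      rw [map_zero] at h2
      rw [← h2]
      exact (e.apply_symm_apply _).symm
    exact Ideal.Quotient.eq_zero_iff_mem.1 h1
  · intro h
    have h1 : (Ideal.Quotient.mkₐ k M) z = 0 := Ideal.Quotient.eq_zero_iff_mem.2 h
    rw [h1, map_zero]

/-- residues at the closed points are constants -/
theorem x14_const {k : Type} [Field k] [IsAlgClosed k] {n : ℕ} {S : Scheme.{0}} [IsIntegral S]
    [IsLocallyNoetherian S] (E : Embed k S n) (hdim : ∀ x : S, Order.coheight x ≤ 2) (y : S)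
    (hy : Order.coheight y = 2) (a : S.presheaf.stalk y) :
    ∃ (c : k) (b : S.presheaf.stalk y), ¬ IsUnit b ∧
      algebraMap (S.presheaf.stalk y) S.functionField b =
        algebraMap (S.presheaf.stalk y) S.functionField a - E.kf c := by
  obtain ⟨j, hj⟩ := E.cover y
  have hgj : genericPoint S ∈ E.U (Pi.single j 1) :=
    ((genericPoint_spec S).mem_open_set_iff (E.U (Pi.single j 1)).isOpen).mpr ⟨y, trivial, hj⟩
  set c₀ : Fin (n + 1) → k := Pi.single j 1 with hc₀
  have haff := (E.affine c₀ (af_l_ne_zero E hgj)).1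
  let _ := (E.strOn (E.U c₀)).toAlgebra
  have hne : Nonempty (E.U c₀) := ⟨⟨_, hgj⟩⟩
  have hft : Algebra.FiniteType k Γ(S, E.U c₀) := af_finiteType E c₀ hgj
  obtain ⟨P, rfl⟩ := af_surj haff hj
  rw [af_coheight] at hy
  have hmax : P.asIdeal.IsMaximal := by
    obtain ⟨M, hM, hPM⟩ := Ideal.exists_le_maximal P.asIdeal P.isPrime.ne_top
    rcases hPM.eq_or_lt with h | h
    · rw [h]; exact hM
    · exfalso
      have hMp := hM.isPrime
      have h1 := Ideal.height_add_one_le_of_lt_of_isPrime h
      have h2 := hdim (haff.fromSpec ⟨M, hMp⟩)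
      rw [af_coheight] at h2
      rw [hy] at h1
      have h3 : (2 : ℕ∞) + 1 ≤ 2 := h1.trans h2
      exact absurd h3 (by decide)
  obtain ⟨z, hz⟩ := x14_hom (k := k) P.asIdeal hmax
  have hm := af_mem haff P
  let _ := (S.presheaf.germ (E.U c₀) (haff.fromSpec P) hm).hom.toAlgebra
  have hloc : IsLocalization.AtPrime (S.presheaf.stalk (haff.fromSpec P)) P.asIdeal :=
    af_loc haff P hm
  obtain ⟨s, t, hst⟩ := IsLocalization.exists_mk'_eq P.asIdeal.primeCompl a
  have h5 := IsLocalization.mk'_spec (S.presheaf.stalk (haff.fromSpec P)) s t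
  rw [hst] at h5
  have ht0 : z (t : Γ(S, E.U c₀)) ≠ 0 := by
    intro h
    have h1 : (t : Γ(S, E.U c₀)) ∈ RingHom.ker z := h
    rw [hz] at h1
    exact t.2 h1
  set c : k := z s / z (t : Γ(S, E.U c₀)) with hc
  have hzc : ∀ c : k, z (E.strOn (E.U c₀) c) = c := fun c => z.commutes c
  refine ⟨c, a - algebraMap Γ(S, E.U c₀) _ (E.strOn (E.U c₀) c), ?_, ?_⟩
  · intro hu
    have htu : IsUnit (algebraMap Γ(S, E.U c₀) (S.presheaf.stalk (haff.fromSpec P))
        (t : Γ(S, E.U c₀))) := IsLocalization.map_units _ t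
    have h1 := hu.mul htu
    rw [sub_mul, h5, ← map_mul, ← map_sub] at h1
    have h2 : s - E.strOn (E.U c₀) c * (t : Γ(S, E.U c₀)) ∈ RingHom.ker z := by
      rw [RingHom.mem_ker, map_sub, map_mul, hzc, hc, div_mul_cancel₀ _ ht0, sub_self]
    exact (af_germ_unit haff P hm _).1 h1 (hz.le h2)
  · rw [map_sub]
    congr 1
    have h7 : algebraMap (S.presheaf.stalk (haff.fromSpec P)) S.functionField
        (algebraMap Γ(S, E.U c₀) (S.presheaf.stalk (haff.fromSpec P)) (E.strOn (E.U c₀) c)) =
        (S.presheaf.germ (E.U c₀) (genericPoint S) hgj).hom (E.strOn (E.U c₀) c) :=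
      Scheme.algebraMap_germ_eq_germToFunctionField S hm _
    rw [h7]
    exact S.presheaf.germ_res_apply (homOfLE le_top : E.U c₀ ⟶ ⊤) (genericPoint S) hgj (E.str c)

/-- X14: centres on a regular surface. -/
theorem ctr_surface (h3 : SpStk) (h5 : SpCtr) : SpCtrS := by
  intro k _ _ n S _ _ E hreg hdim _ V hV hk
  obtain ⟨y, hy, -⟩ := h5 k n S E V hk
  have hfr : IsFractionRing (S.presheaf.stalk y) S.functionField := inferInstance
  have hne : Order.coheight y ≠ ⊤ := by
    intro h
    have := hdim y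
    rw [h] at this
    exact absurd this (by decide)
  obtain ⟨m, hm⟩ := ENat.ne_top_iff_exists.1 hne
  have hm2 : m ≤ 2 := by
    have := hdim y
    rw [← hm] at this
    exact_mod_cast this
  interval_cases m
  · -- the generic point
    exfalso
    apply hV
    have h0 : ringKrullDim (S.presheaf.stalk y) = 0 := by
      rw [ringKrullDim_stalk_eq_coheight, ← hm]
      rfl
    have h1 : Ring.KrullDimLE 0 (S.presheaf.stalk y) :=
      ringKrullDimZero_iff_ringKrullDim_eq_zero.2 h0
    have hf : IsField (S.presheaf.stalk y) := Ring.KrullDimLE.isField_of_isDomain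
    rw [eq_top_iff]
    intro z _
    obtain ⟨a, b, hab⟩ := IsFractionRing.div_surjective (A := S.presheaf.stalk y) z
    have hb : b ≠ 0 := nonZeroDivisors.ne_zero hab.1
    obtain ⟨b', hb'⟩ := hf.mul_inv_cancel hb
    have h2 : z = algebraMap (S.presheaf.stalk y) S.functionField (a * b') := by
      have h3 : algebraMap (S.presheaf.stalk y) S.functionField b ≠ 0 := by
        intro h
        exact hb (IsFractionRing.injective (S.presheaf.stalk y) S.functionField
          (by rw [h, map_zero]))
      have h4 := congrArg (algebraMap (S.presheaf.stalk y) S.functionField) hb'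
      rw [map_mul, map_one] at h4
      rw [← hab.2, map_mul, div_eq_iff h3, mul_assoc, mul_comm (algebraMap _ _ b'), h4, mul_one]
    rw [h2]
    exact (hy _).1
  · -- a curve
    left
    have hy1 : Order.coheight y = 1 := hm.symm
    obtain ⟨⟨D, hD⟩, -⟩ := h3 S y hy1 (hreg y)
    obtain ⟨-, hD2, hD3⟩ := (h3 S y hy1 (hreg y)).2 D hD
    refine ⟨⟨y, hy1⟩, fun z => ?_⟩
    constructor
    · intro hz
      by_contra hcon
      have h1 : z ∉ D := fun h => hcon ((hD z).1 h)
      have h2 : z⁻¹ ∈ D := (D.mem_or_inv_mem z).resolve_left h1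
      obtain ⟨a, ha⟩ := (hD _).1 h2
      have hz0 : z ≠ 0 := fun h => h1 (h ▸ D.zero_mem)
      have h4 : ¬ IsUnit a := by
        intro hu
        obtain ⟨u, rfl⟩ := hu
        apply hcon
        refine ⟨((u⁻¹ : (S.presheaf.stalk y)ˣ) : S.presheaf.stalk y), ?_⟩
        have h5 : algebraMap (S.presheaf.stalk y) S.functionField (u : S.presheaf.stalk y) *
            algebraMap (S.presheaf.stalk y) S.functionField
              ((u⁻¹ : (S.presheaf.stalk y)ˣ) : S.presheaf.stalk y) = 1 := by
          rw [← map_mul, Units.mul_inv, map_one]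
        rw [ha] at h5
        have h6 : z * (z⁻¹ * algebraMap (S.presheaf.stalk y) S.functionField
            ((u⁻¹ : (S.presheaf.stalk y)ˣ) : S.presheaf.stalk y)) = z * 1 := by rw [h5]
        rw [← mul_assoc, mul_inv_cancel₀ hz0, one_mul, mul_one] at h6
        exact h6
      have h5 := (hy a).2 h4
      rw [ha, ValuationSubring.mem_nonunits_iff_or, inv_inv] at h5
      rcases h5 with h5 | h5
      · exact hz0 (inv_eq_zero.1 h5)
      · exact h5 hz
    · rintro ⟨a, rfl⟩
      exact (hy a).1
  · -- a closed point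
    right
    have hy2 : Order.coheight y = 2 := hm.symm
    refine ⟨y, hy2, hy, fun a => ?_⟩
    obtain ⟨c, b, hb, hbc⟩ := x14_const E hdim y hy2 a
    exact ⟨c, by rw [← hbc]; exact (hy b).2 hb⟩

end Pool.Agent.H20.UT
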