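import Pool.Agent.H20.UT.XSpec

/-!
Project UT, X07: a section of `K_2(F)/K_2` gives data on the function field (helper9).
-/

set_option autoImplicit false
set_option maxHeartbeats 400000

open AlgebraicGeometry CategoryTheory Pool.Agent.K1 Pool.Agent.KM Pool.Agent.H19.UT

namespace Pool.Agent.H20.UT

namespace DatSX

/-- Units of the local ring at the centre are units of the valuation ring. -/
theorem unit_ctr {X : Scheme.{0}} [IsIntegral X] {V : ValuationSubring X.functionField} {y : X}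
    (h : Ctr V y) (u : (X.presheaf.stalk y)ˣ) : UnitIn V (stkUnit y u) := by
  refine ⟨(h u).1, ?_⟩
  have e : (stkUnit y u)⁻¹ = stkUnit y u⁻¹ := by
    simp only [stkUnit, map_inv]
  rw [e]
  exact (h (u⁻¹ : (X.presheaf.stalk y)ˣ)).1

/-- Symbols of units at the centre have torsion tame symbols. -/
theorem tors_ctr (h1 : SpTameK) {X : Scheme.{0}} [IsIntegral X]
    {D : ValuationSubring X.functionField} (hD : IsDiscV D) {y : X} (h : Ctr D y)
    (b : Sy X.functionField) (hb : toK2 b ∈ unitSymbols y) : TorsV D (sm D b) := by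
  refine h1.2 X.functionField D hD (Set.range (stkUnit y)) ?_ b ?_
  · rintro _ ⟨u, rfl⟩
    exact unit_ctr h u
  · refine AddSubgroup.closure_mono ?_ hb
    rintro s ⟨u, v, rfl⟩
    exact ⟨_, ⟨u, rfl⟩, _, ⟨v, rfl⟩, rfl⟩

end DatSX

open DatSX

theorem dat_exists (h0 : SpSm) (h1 : SpTameK) (h2 : SpConst) (h5 : SpCtr) (h6 : SpNbh) :
    SpDat := by
  intro p _ k _ _ _ n X _ _ E β hβ
  have hk : ∀ (V : ValuationSubring X.functionField) (c : k), E.kf c ∈ V :=
    fun V c => h2 p k X.functionField E.kf V c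
  choose W hW hW' using hβ
  choose U A hU hUW hA using fun x => h6 k n X E x (W x) (hW x)
  -- a finite subcover
  obtain ⟨t, ht⟩ := (isCompact_univ (X := X)).elim_finite_subcover
    (fun x => (U x : Set X)) (fun x => (U x).isOpen)
    (fun x _ => Set.mem_iUnion.2 ⟨x, hU x⟩)
  have hcov : ∀ y : X, ∃ i : Fin t.card, y ∈ U (t.equivFin.symm i : X) := by
    intro y
    obtain ⟨x, hx⟩ := Set.mem_iUnion.1 (ht (Set.mem_univ y))
    obtain ⟨hxt, hx⟩ := Set.mem_iUnion.1 hx
    refine ⟨t.equivFin ⟨x, hxt⟩, ?_⟩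
    rw [Equiv.symm_apply_apply]
    exact hx
  choose bb hbb using fun x : X => h1.1 X.functionField (β x)
  -- the difference at a common point
  have hdiff : ∀ (D : ValuationSubring X.functionField), IsDiscV D → ∀ y, Ctr D y →
      ∀ x : X, y ∈ U x → ∀ b : Sy X.functionField, toK2 b = β y →
      TorsV D (sm D (bb x - b)) := by
    intro D hD y hy x hx b hb
    refine tors_ctr h1 hD hy _ ?_
    rw [map_sub, hbb, hb, ← neg_sub]
    exact neg_mem (hW' x y (hUW x hx))
  have hsub : ∀ (D : ValuationSubring X.functionField), IsDiscV D →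
      ∀ b b' : Sy X.functionField, sm D (b - b') = sm D b * (sm D b')⁻¹ := by
    intro D hD b b'
    rw [sub_eq_add_neg, (h0 _ D hD).2.1, (h0 _ D hD).2.2.1]
  have hc : ∀ V : ValuationSubring X.functionField, ∃ i : Fin t.card,
      ∀ a ∈ A (t.equivFin.symm i), a ∈ V := by
    intro V
    obtain ⟨y, hy, -⟩ := h5 k n X E V (hk V)
    obtain ⟨i, hi⟩ := hcov y
    exact ⟨i, (hA _ V (hk V) y hy).2 hi⟩
  have hp : ∀ D : ValuationSubring X.functionField, IsDiscV D → ∀ i j : Fin t.card,
      (∀ a ∈ A (t.equivFin.symm i), a ∈ D) → (∀ a ∈ A (t.equivFin.symm j), a ∈ D) →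
      TorsV D (sm D (bb (t.equivFin.symm i) - bb (t.equivFin.symm j))) := by
    intro D hD i j hi hj
    obtain ⟨y, hy, -⟩ := h5 k n X E D (hk D)
    have e1 := hdiff D hD y hy _ ((hA _ D (hk D) y hy).1 hi) (bb y) (hbb y)
    have e2 := hdiff D hD y hy _ ((hA _ D (hk D) y hy).1 hj) (bb y) (hbb y)
    have e3 := (h0 _ D hD).2.2.2.2.1 _ _ e1 ((h0 _ D hD).2.2.2.2.2.1 _ e2)
    rw [hsub D hD] at e3 ⊢
    rw [hsub D hD, mul_inv, inv_inv] at e3
    have e4 : sm D (bb (t.equivFin.symm i)) * (sm D (bb y))⁻¹ *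
        ((sm D (bb (t.equivFin.symm j)))⁻¹ * sm D (bb y)) =
        sm D (bb (t.equivFin.symm i)) * (sm D (bb (t.equivFin.symm j)))⁻¹ := by
      rw [mul_comm (sm D (bb (t.equivFin.symm j)))⁻¹, ← mul_assoc, inv_mul_cancel_right]
    rw [e4] at e3
    exact e3
  refine ⟨⟨t.card, fun i => A (t.equivFin.symm i), fun i => bb (t.equivFin.symm i), hc, hp⟩,
    fun D hD y hy b hb => ?_⟩
  have hi := Dat.idx_spec (⟨t.card, fun i => A (t.equivFin.symm i),
    fun i => bb (t.equivFin.symm i), hc, hp⟩ : Dat X.functionField) D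
  have := hdiff D hD y hy _ ((hA _ D (hk D) y hy).1 hi) b hb
  rw [hsub D hD] at this
  exact this

end Pool.Agent.H20.UT
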