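import Pool.Agent.H20.UT.XSpec
import Pool.Agent.H19.UT.ExtQ

/-!
Project UT, row X17: valuation rings above a discrete valuation ring with big residue field, in
fields of transcendence degree three over an algebraic extension of the prime field (helper95).
-/

set_option autoImplicit false
set_option maxHeartbeats 400000

open AlgebraicGeometry CategoryTheory Pool.Agent.K1 Pool.Agent.KM Pool.Agent.H19.UT

namespace Pool.Agent.H20.UT

section x17

theorem x17_nonunits {K L : Type} [Field K] [Field L] (φ : K →+* L) (W : ValuationSubring L)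
    (a : K) : a ∈ (W.comap φ).nonunits ↔ φ a ∈ W.nonunits := by
  rw [tord_nonunits_iff, tord_nonunits_iff, ValuationSubring.mem_comap,
    ValuationSubring.mem_comap, map_inv₀, map_eq_zero]

/-- A power with bounded exponent of an element of a finite extension has the value of an element
of the field below. -/
theorem x17_pow {E L : Type} [Field E] [Field L] [Algebra E L] [FiniteDimensional E L]
    (V : ValuationSubring L) (a : L) (ha : a ≠ 0) :
    ∃ (n : ℕ) (m : E), 0 < n ∧ n ≤ Module.finrank E L ∧ m ≠ 0 ∧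
      V.valuation a ^ n = V.valuation (algebraMap E L m) := by
  have hint : IsIntegral E a := Algebra.IsIntegral.isIntegral a
  obtain ⟨P, hPdef⟩ : ∃ P, P = minpoly E a := ⟨_, rfl⟩
  have hP0 : P ≠ 0 := by rw [hPdef]; exact minpoly.ne_zero hint
  have hP : Polynomial.aeval a P = 0 := by rw [hPdef]; exact minpoly.aeval E a
  have hdeg : P.natDegree ≤ Module.finrank E L := by rw [hPdef]; exact minpoly.natDegree_le a
  rw [Polynomial.aeval_eq_sum_range] at hP
  have hne : ∃ i ∈ Finset.range (P.natDegree + 1), P.coeff i • a ^ i ≠ 0 := by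
    refine ⟨P.natDegree, Finset.self_mem_range_succ _, ?_⟩
    rw [Algebra.smul_def]
    refine mul_ne_zero ?_ (pow_ne_zero _ ha)
    rw [Ne, map_eq_zero]
    exact Polynomial.leadingCoeff_ne_zero.2 hP0
  obtain ⟨i, -, j, hjr, hij, heq, hi⟩ := f07_two (V := V) hP hne
  rw [Algebra.smul_def] at hi
  rw [Algebra.smul_def, Algebra.smul_def, map_mul, map_mul, map_pow, map_pow] at heq
  have hva : V.valuation a ≠ 0 := (_root_.map_ne_zero _).2 ha
  have hci : P.coeff i ≠ 0 := by
    intro h0
    rw [h0, map_zero, zero_mul] at hi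
    exact hi rfl
  have hvi : V.valuation (algebraMap E L (P.coeff i)) ≠ 0 := by
    rw [Ne, map_eq_zero, map_eq_zero]
    exact hci
  have hcj : P.coeff j ≠ 0 := by
    intro h0
    rw [h0, map_zero, map_zero, zero_mul] at heq
    exact mul_ne_zero hvi (pow_ne_zero _ hva) heq
  have hvj : V.valuation (algebraMap E L (P.coeff j)) ≠ 0 := by
    rw [Ne, map_eq_zero, map_eq_zero]
    exact hcj
  have hjd : j ≤ P.natDegree := Nat.lt_succ_iff.1 (Finset.mem_range.1 hjr)
  refine ⟨j - i, P.coeff i / P.coeff j, by omega, by omega, div_ne_zero hci hcj, ?_⟩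
  rw [map_div₀, map_div₀]
  have h1 : V.valuation a ^ j = V.valuation a ^ i * V.valuation a ^ (j - i) := by
    rw [← pow_add]
    congr 1
    omega
  rw [h1] at heq
  have hai : V.valuation a ^ i ≠ 0 := pow_ne_zero _ hva
  rw [eq_div_iff hvj]
  have h2 : V.valuation a ^ i * (V.valuation a ^ (j - i) * V.valuation (algebraMap E L (P.coeff j)))
      = V.valuation a ^ i * V.valuation (algebraMap E L (P.coeff i)) := by
    rw [mul_comm (V.valuation a ^ i) (V.valuation ((algebraMap E L) (P.coeff i))), heq]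
    ac_rfl
  exact mul_left_cancel₀ hai h2

/-- A valuation ring above a discrete valuation ring in a finite extension is discrete. -/
theorem x17_disc {E L : Type} [Field E] [Field L] [Algebra E L] [FiniteDimensional E L]
    (W : ValuationSubring L) (x : L) (hx0 : x ≠ 0) (hx : W.valuation x < 1)
    (hE : ∀ e : E, e ≠ 0 → ∃ m : ℤ, W.valuation (algebraMap E L e) = W.valuation x ^ m) :
    IsDiscV W := by
  have hγ0 : W.valuation x ≠ 0 := (_root_.map_ne_zero _).2 hx0
  have hγp : 0 < W.valuation x := zero_lt_iff.2 hγ0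
  have hanti : StrictAnti fun m : ℤ => W.valuation x ^ m := zpow_right_strictAnti₀ hγp hx
  obtain ⟨N, hNdef⟩ : ∃ N, N = (Module.finrank E L).factorial := ⟨_, rfl⟩
  have hN : 0 < N := by rw [hNdef]; exact Nat.factorial_pos _
  have hval : ∀ a : Lˣ, ∃ m : ℤ, W.valuation (a : L) ^ N = W.valuation x ^ m := by
    intro a
    obtain ⟨n, e, hn, hnd, he, h⟩ := x17_pow (E := E) W (a : L) a.ne_zero
    obtain ⟨m, hm⟩ := hE e he
    obtain ⟨c, hc⟩ : n ∣ N := by rw [hNdef]; exact Nat.dvd_factorial hn hnd
    refine ⟨m * c, ?_⟩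
    rw [hc, pow_mul, h, hm, zpow_mul, zpow_natCast]
  choose v hv using hval
  have huniq : ∀ (a : Lˣ) (m : ℤ), W.valuation (a : L) ^ N = W.valuation x ^ m → v a = m := by
    intro a m h
    apply hanti.injective
    change W.valuation x ^ (v a) = W.valuation x ^ m
    rw [← hv a, h]
  have hmul : ∀ a b : Lˣ, v (a * b) = v a + v b := by
    intro a b
    apply huniq
    rw [Units.val_mul, map_mul, mul_pow, hv a, hv b, zpow_add₀ hγ0]
  have hzpow : ∀ (a : Lˣ) (n : ℤ), v (a ^ n) = n * v a := by
    intro a n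
    apply huniq
    rw [Units.val_zpow_eq_zpow_val, map_zpow₀, ← zpow_natCast, ← zpow_mul, mul_comm n (N : ℤ),
      zpow_mul, zpow_natCast, hv a, ← zpow_mul, mul_comm (v a) n]
  have hmem : ∀ a : Lˣ, (a : L) ∈ W ↔ 0 ≤ v a := by
    intro a
    rw [← ValuationSubring.valuation_le_one_iff, ← pow_le_one_iff (n := N) hN.ne', hv a]
    have h := hanti.le_iff_ge (a := v a) (b := 0)
    simpa using h
  have hinv : ∀ a : Lˣ, v a⁻¹ = - v a := by
    intro a
    have h := hzpow a (-1)
    rw [zpow_neg_one] at h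
    rw [h]
    ring
  have hunit : ∀ a : Lˣ, v a = 0 → UnitIn W a := by
    intro a ha
    refine ⟨(hmem a).2 ha.ge, (hmem a⁻¹).2 ?_⟩
    rw [hinv a, ha]
    simp
  have hnon : ∀ a : Lˣ, (a : L) ∈ W.nonunits ↔ 0 < v a := by
    intro a
    rw [tord_nonunits_iff]
    have h1 := hmem a
    have h2 := hmem a⁻¹
    rw [hinv a, Units.val_inv_eq_inv_val] at h2
    constructor
    · rintro (h | ⟨h3, h4⟩)
      · exact absurd h a.ne_zero
      · rw [h1] at h3
        rw [h2] at h4
        omega
    · intro h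
      right
      rw [h1, h2]
      omega
  have hex : ∃ g : ℕ, 0 < g ∧ ∃ a : Lˣ, v a = g := by
    refine ⟨N, hN, Units.mk0 x hx0, ?_⟩
    apply huniq
    rw [Units.val_mk0, zpow_natCast]
  classical
  obtain ⟨hg, π, hπ⟩ := Nat.find_spec hex
  have hmin : ∀ a : Lˣ, 0 < v a → (Nat.find hex : ℤ) ≤ v a := by
    intro a ha
    have h := Nat.find_min' hex (m := (v a).toNat) ⟨by omega, a, by omega⟩
    omega
  obtain ⟨g, hgdef⟩ : ∃ g, g = Nat.find hex := ⟨_, rfl⟩
  rw [← hgdef] at hg hπ hmin
  refine ⟨(π : L), ⟨π.ne_zero, ?_⟩, ?_⟩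
  · intro t
    constructor
    · intro ht
      by_cases h0 : t = 0
      · exact ⟨0, W.zero_mem, by rw [h0, mul_zero]⟩
      · have h1 := (hnon (Units.mk0 t h0)).1 (by rw [Units.val_mk0]; exact ht)
        refine ⟨((π⁻¹ * Units.mk0 t h0 : Lˣ) : L), ?_, ?_⟩
        · rw [hmem, hmul, hinv, hπ]
          have h2 := hmin _ h1
          omega
        · rw [Units.val_mul, Units.val_inv_eq_inv_val, Units.val_mk0, ← mul_assoc,
            mul_inv_cancel₀ π.ne_zero, one_mul]
    · rintro ⟨c, hc, rfl⟩
      by_cases h0 : c = 0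
      · rw [h0, mul_zero, tord_nonunits_iff]
        exact Or.inl rfl
      · have h1 := (hmem (Units.mk0 c h0)).1 (by rw [Units.val_mk0]; exact hc)
        have h2 := (hnon (π * Units.mk0 c h0)).2 (by rw [hmul, hπ]; omega)
        rw [Units.val_mul, Units.val_mk0] at h2
        exact h2
  · intro t ht
    obtain ⟨q, hq⟩ : ∃ q, q = v (Units.mk0 t ht) / (g : ℤ) := ⟨_, rfl⟩
    have hgz : (0 : ℤ) < g := by exact_mod_cast hg
    have h1 : v (Units.mk0 t ht) = g * q + v (Units.mk0 t ht) % g := by
      rw [hq]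
      exact (Int.mul_ediv_add_emod _ _).symm
    have h2 : 0 ≤ v (Units.mk0 t ht) % g := Int.emod_nonneg _ hgz.ne'
    have h3 : v (Units.mk0 t ht) % g < g := Int.emod_lt_of_pos _ hgz
    have h4 : v (π ^ (-q) * Units.mk0 t ht) = v (Units.mk0 t ht) % g := by
      rw [hmul, hzpow, hπ]
      linarith
    refine ⟨q, π ^ (-q) * Units.mk0 t ht, hunit _ ?_, ?_⟩
    · by_contra hne
      have h5 : 0 < v (π ^ (-q) * Units.mk0 t ht) := by omega
      have h6 := hmin _ h5
      omega
    · rw [Units.val_mul, Units.val_zpow_eq_zpow_val, Units.val_mk0, ← mul_assoc,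
        ← zpow_add₀ π.ne_zero, add_neg_cancel, zpow_zero, one_mul]

/-- Nonzero polynomials over `k` in the two elements are units. -/
theorem x17_res (p : ℕ) [Fact p.Prime] {k L : Type} [Field k] [Field L] [Algebra (ZMod p) k]
    [Algebra.IsAlgebraic (ZMod p) k] [Algebra k L] (W : ValuationSubring L)
    (hk : ∀ c : k, algebraMap k L c ∈ W) (z : Fin 2 → L)
    (hz : ∀ P : MvPolynomial (Fin 2) ℤ, P.map (Int.castRingHom (ZMod p)) ≠ 0 →
      P.eval₂ (Int.castRingHom L) z ∈ W ∧ P.eval₂ (Int.castRingHom L) z ∉ W.nonunits)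
    (Q : MvPolynomial (Fin 2) k) (hQ : Q ≠ 0) :
    W.valuation (MvPolynomial.aeval z Q) = 1 := by
  have hzW : ∀ i, z i ∈ W := by
    intro i
    have h := (hz (MvPolynomial.X i) (by
      rw [MvPolynomial.map_X]
      exact MvPolynomial.X_ne_zero i)).1
    rw [MvPolynomial.eval₂_X] at h
    exact h
  let zW : Fin 2 → W := fun i => ⟨z i, hzW i⟩
  let kW : k →+* W := (algebraMap k L).codRestrict W.toSubring hk
  have hkW : W.subtype.comp kW = algebraMap k L := by
    ext c
    rfl
  letI : Algebra k (IsLocalRing.ResidueField W) := ((IsLocalRing.residue W).comp kW).toAlgebra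
  letI : Algebra (ZMod p) (IsLocalRing.ResidueField W) :=
    (((IsLocalRing.residue W).comp kW).comp (algebraMap (ZMod p) k)).toAlgebra
  haveI : IsScalarTower (ZMod p) k (IsLocalRing.ResidueField W) :=
    IsScalarTower.of_algebraMap_eq' rfl
  have hAI : AlgebraicIndependent (ZMod p) (fun i => IsLocalRing.residue W (zW i)) := by
    rw [algebraicIndependent_iff]
    intro P hP
    by_contra hP0
    obtain ⟨P', rfl⟩ := MvPolynomial.map_surjective (Int.castRingHom (ZMod p))
      ZMod.intCast_surjective P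
    apply (hz P' hP0).2
    have h1 : IsLocalRing.residue W (P'.eval₂ (Int.castRingHom W) zW) = 0 := by
      rw [MvPolynomial.eval₂_comp_left, ← hP, MvPolynomial.aeval_def, MvPolynomial.eval₂_map]
      congr 1
      exact RingHom.ext_int _ _
    rw [IsLocalRing.residue_eq_zero_iff, ← ValuationSubring.coe_mem_nonunits_iff] at h1
    have h2 : ((P'.eval₂ (Int.castRingHom W) zW : W) : L) = P'.eval₂ (Int.castRingHom L) z := by
      change W.subtype (P'.eval₂ (Int.castRingHom W) zW) = _
      rw [MvPolynomial.eval₂_comp_left]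
      congr 1
    rw [h2] at h1
    exact h1
  have hAI2 : AlgebraicIndependent k (fun i => IsLocalRing.residue W (zW i)) :=
    hAI.extendScalars k
  have h3 : IsLocalRing.residue W (Q.eval₂ kW zW) ≠ 0 := by
    intro h
    apply hQ
    apply (algebraicIndependent_iff.1 hAI2) Q
    rw [← h, MvPolynomial.eval₂_comp_left, MvPolynomial.aeval_def]
    rfl
  have h4 : ((Q.eval₂ kW zW : W) : L) = MvPolynomial.aeval z Q := by
    change W.subtype (Q.eval₂ kW zW) = _
    rw [MvPolynomial.eval₂_comp_left, hkW, MvPolynomial.aeval_def]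
    rfl
  rw [← h4]
  have h5 : ((Q.eval₂ kW zW : W) : L) ∉ W.nonunits := by
    rw [ValuationSubring.coe_mem_nonunits_iff, ← IsLocalRing.residue_eq_zero_iff]
    exact h3
  rw [ValuationSubring.mem_nonunits_iff, not_lt] at h5
  exact le_antisymm ((W.valuation_le_one_iff _).2 (Q.eval₂ kW zW).2) h5

/-- The value of a polynomial in `x` whose coefficients are zero or units. -/
theorem x17_poly {k L : Type} [Field k] [Field L] [Algebra k L] (W : ValuationSubring L)
    (A : Subalgebra k L) (hA : ∀ a ∈ A, a ≠ 0 → W.valuation a = 1) (x : L) (hx0 : x ≠ 0)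
    (hx : W.valuation x < 1) (Q : Polynomial A) (hQ : Q ≠ 0) :
    ∃ m : ℕ, W.valuation (Polynomial.aeval x Q) = W.valuation x ^ m := by
  have hγ0 : W.valuation x ≠ 0 := (_root_.map_ne_zero _).2 hx0
  refine ⟨Q.natTrailingDegree, ?_⟩
  obtain ⟨m, hm⟩ : ∃ m, m = Q.natTrailingDegree := ⟨_, rfl⟩
  rw [← hm, Polynomial.aeval_eq_sum_range]
  have hms : m ∈ Finset.range (Q.natDegree + 1) := by
    rw [Finset.mem_range, hm]
    exact Nat.lt_succ_of_le (Polynomial.natTrailingDegree_le_natDegree Q)
  rw [← Finset.add_sum_erase _ _ hms]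
  have hcm : Q.coeff m ≠ 0 := by
    rw [hm]
    exact Polynomial.trailingCoeff_nonzero_iff_nonzero.2 hQ
  have h1 : W.valuation (Q.coeff m • x ^ m) = W.valuation x ^ m := by
    rw [Algebra.smul_def, map_mul, map_pow]
    have h2 : W.valuation (algebraMap A L (Q.coeff m)) = 1 := by
      apply hA _ (Q.coeff m).2
      intro h
      apply hcm
      exact Subtype.ext h
    rw [h2, one_mul]
  have h3 : W.valuation (∑ j ∈ (Finset.range (Q.natDegree + 1)).erase m, Q.coeff j • x ^ j) <
      W.valuation (Q.coeff m • x ^ m) := by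
    apply Valuation.map_sum_lt
    · rw [h1]
      exact pow_ne_zero _ hγ0
    · intro j hj
      rw [h1]
      have hjm : j ≠ m := Finset.ne_of_mem_erase hj
      by_cases h0 : Q.coeff j = 0
      · rw [h0, zero_smul, map_zero]
        exact zero_lt_iff.2 (pow_ne_zero _ hγ0)
      · have hlt : m < j := by
          rcases lt_or_gt_of_ne hjm with h | h
          · exfalso
            apply h0
            rw [hm] at h
            exact Polynomial.coeff_eq_zero_of_lt_natTrailingDegree h
          · exact h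
        rw [Algebra.smul_def, map_mul, map_pow]
        have h2 : W.valuation (algebraMap A L (Q.coeff j)) = 1 := by
          apply hA _ (Q.coeff j).2
          intro h
          apply h0
          exact Subtype.ext h
        rw [h2, one_mul]
        exact pow_lt_pow_right_of_lt_one₀ (zero_lt_iff.2 hγ0) hx hlt
  rw [Valuation.map_add_eq_of_lt_left _ h3, h1]

end x17

theorem disc_above (h2 : SpConst) : SpDisc := by
  intro p _ k K L _ _ _ _ _ _ _ htr φ W hD hB
  obtain ⟨π, hπ, -⟩ := hD
  obtain ⟨z, hz⟩ := hB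
  have hz' : ∀ P : MvPolynomial (Fin 2) ℤ, P.map (Int.castRingHom (ZMod p)) ≠ 0 →
      P.eval₂ (Int.castRingHom L) (fun i => φ (z i)) ∈ W ∧
      P.eval₂ (Int.castRingHom L) (fun i => φ (z i)) ∉ W.nonunits := by
    intro P hP
    have h1 : P.eval₂ (Int.castRingHom L) (fun i => φ (z i)) =
        φ (P.eval₂ (Int.castRingHom K) z) := by
      rw [MvPolynomial.eval₂_comp_left]
      congr 1
      exact RingHom.ext_int _ _
    have h3 := hz P hP
    rw [ValuationSubring.mem_comap, x17_nonunits] at h3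
    rw [h1]
    exact h3
  refine ⟨?_, fun i => φ (z i), hz'⟩
  obtain ⟨z', hz'def⟩ : ∃ z' : Fin 2 → L, z' = fun i => φ (z i) := ⟨_, rfl⟩
  rw [← hz'def] at hz'
  have hk : ∀ c : k, algebraMap k L c ∈ W := fun c => h2 p k L (algebraMap k L) W c
  have hx : W.valuation (φ π) < 1 := by
    have h := tord_unif_nonunit hπ
    rw [x17_nonunits, ValuationSubring.mem_nonunits_iff] at h
    exact h
  have hx0 : φ π ≠ 0 := by
    rw [Ne, map_eq_zero]
    exact hπ.1
  obtain ⟨x, hxdef⟩ : ∃ x, x = φ π := ⟨_, rfl⟩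
  rw [← hxdef] at hx hx0
  have hres := x17_res p W hk z' hz'
  obtain ⟨A, hAdef⟩ : ∃ A, A = Algebra.adjoin k (Set.range z') := ⟨_, rfl⟩
  have hA : ∀ a ∈ A, a ≠ 0 → W.valuation a = 1 := by
    intro a ha ha0
    rw [hAdef, Algebra.adjoin_range_eq_range_aeval] at ha
    obtain ⟨P, rfl⟩ := ha
    apply hres
    rintro rfl
    exact ha0 (map_zero _)
  have hAI : AlgebraicIndependent k z' := by
    rw [algebraicIndependent_iff]
    intro P hP
    by_contra hP0
    have h := hres P hP0
    rw [hP, map_zero] at h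
    exact zero_ne_one h
  have hT : Transcendental A x := by
    rw [transcendental_iff]
    intro Q hQ
    by_contra hQ0
    obtain ⟨m, hm⟩ := x17_poly W A hA x hx0 hx Q hQ0
    rw [hQ, map_zero] at hm
    exact pow_ne_zero m ((_root_.map_ne_zero _).2 hx0) hm.symm
  have hAI3 : AlgebraicIndependent k (fun o : Option (Fin 2) => o.elim x z') := by
    rw [hAdef] at hT
    exact (hAI.option_iff_transcendental x).2 hT
  have hTB := hAI3.isTranscendenceBasis_of_trdeg_le_of_finite (by
    rw [htr]
    simp)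
  haveI halg := hTB.isAlgebraic_field
  obtain ⟨E, hEdef⟩ : ∃ E, E = IntermediateField.adjoin k
      (Set.range fun o : Option (Fin 2) => o.elim x z') := ⟨_, rfl⟩
  rw [← hEdef] at halg
  haveI : Algebra.EssFiniteType E L := Algebra.EssFiniteType.of_comp k E L
  haveI : Module.Finite E L := Algebra.finite_of_essFiniteType_of_isAlgebraic
  have hle : Algebra.adjoin k (Set.range fun o : Option (Fin 2) => o.elim x z') ≤
      ((Polynomial.aeval x : Polynomial A →ₐ[A] L).range).restrictScalars k := by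
    rw [Algebra.adjoin_le_iff]
    rintro _ ⟨o, rfl⟩
    cases o with
    | none => exact ⟨Polynomial.X, by simp⟩
    | some i =>
      have hi : z' i ∈ A := by
        rw [hAdef]
        exact Algebra.subset_adjoin ⟨i, rfl⟩
      refine ⟨Polynomial.C ⟨z' i, hi⟩, ?_⟩
      simp
  refine x17_disc (E := E) W x hx0 hx ?_
  intro e he
  have hγ0 : W.valuation x ≠ 0 := (_root_.map_ne_zero _).2 hx0
  have he1 : (e : L) ∈ IntermediateField.adjoin k
      (Set.range fun o : Option (Fin 2) => o.elim x z') := by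
    rw [← hEdef]
    exact e.2
  rw [IntermediateField.mem_adjoin_iff_div] at he1
  obtain ⟨r, hr, s, hs, hrs⟩ := he1
  have he0 : (e : L) ≠ 0 := fun h => he (Subtype.ext h)
  have hr0 : r ≠ 0 := by
    rintro rfl
    rw [zero_div] at hrs
    exact he0 hrs
  have hs0 : s ≠ 0 := by
    rintro rfl
    rw [div_zero] at hrs
    exact he0 hrs
  obtain ⟨Q, hQ⟩ := hle hr
  obtain ⟨R, hR⟩ := hle hs
  have hQ0 : Q ≠ 0 := by
    rintro rfl
    apply hr0
    rw [← hQ]
    exact map_zero _
  have hR0 : R ≠ 0 := by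
    rintro rfl
    apply hs0
    rw [← hR]
    exact map_zero _
  obtain ⟨a, ha⟩ := x17_poly W A hA x hx0 hx Q hQ0
  obtain ⟨b, hb⟩ := x17_poly W A hA x hx0 hx R hR0
  refine ⟨(a : ℤ) - b, ?_⟩
  change W.valuation (e : L) = _
  rw [hrs, map_div₀, zpow_sub₀ hγ0, zpow_natCast, zpow_natCast, ← ha, ← hb]
  congr 2
  · exact hQ.symm
  · exact hR.symm

end Pool.Agent.H20.UT
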