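import Pool.Agent.H20.UT.XSpec

/-!
Project UT, row X09: from tame symbols up to torsion to chains (helper90).
-/

set_option autoImplicit false
set_option maxHeartbeats 400000

open AlgebraicGeometry CategoryTheory Pool.Agent.K1 Pool.Agent.KM Pool.Agent.H19.UT

namespace Pool.Agent.H20.UT

/-- Units of the residue field from units of the local ring. -/
noncomputable def endRes {X : Scheme.{0}} (x : X) :
    (X.presheaf.stalk x)ˣ →* (X.residueField x)ˣ :=
  Units.map (X.residue x).hom.toMonoidHom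

theorem endRes_coe {X : Scheme.{0}} (x : X) (v : (X.presheaf.stalk x)ˣ) :
    ((endRes x v : (X.residueField x)ˣ) : X.residueField x) = (X.residue x).hom v := rfl

/-- The map from the units of the local ring to the units of the function field is
multiplicative. -/
noncomputable def endStk {X : Scheme.{0}} [IsIntegral X] (x : X) :
    (X.presheaf.stalk x)ˣ →* X.functionFieldˣ :=
  Units.map (algebraMap (X.presheaf.stalk x) X.functionField).toMonoidHom

theorem endStk_eq {X : Scheme.{0}} [IsIntegral X] (x : X) (v : (X.presheaf.stalk x)ˣ) :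
    endStk x v = stkUnit x v := rfl

theorem end_of_pow {X : Scheme.{0}} (x : X) (v : (X.presheaf.stalk x)ˣ)
    (t : (X.residueField x)ˣ)
    (h : (X.residue x).hom (v : X.presheaf.stalk x) ^ 2 = (t : X.residueField x) ^ 2) :
    endRes x v ^ 2 = t ^ 2 := by
  apply Units.ext
  rw [Units.val_pow_eq_pow_val, Units.val_pow_eq_pow_val, endRes_coe]
  exact h

theorem end_sm_sum {L : Type} [Field L] (D : ValuationSubring L) {m : ℕ} (f g : Fin m → Lˣ)
    (n : Fin m → ℤ) :
    sm D (∑ j, n j • FreeAbelianGroup.of (f j, g j)) =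
      ∏ j, sm D (FreeAbelianGroup.of (f j, g j)) ^ n j := by
  unfold sm
  rw [map_sum, toMul_sum]
  refine Finset.prod_congr rfl fun j _ => ?_
  rw [map_zsmul, toMul_zsmul]

theorem end_toK2_sum {L : Type} [Field L] {m : ℕ} (f g : Fin m → Lˣ) (n : Fin m → ℤ) :
    toK2 (∑ j, n j • FreeAbelianGroup.of (f j, g j)) = ∑ j, n j • k2 (f j) (g j) := by
  rw [map_sum]
  refine Finset.sum_congr rfl fun j _ => ?_
  rw [map_zsmul]
  rfl

theorem end_local (h0 : SpSm) (h3 : SpStk) (h4 : SpTameAt) {X : Scheme.{0}} [IsIntegral X]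
    [IsLocallyNoetherian X] (x : X) (hx : Order.coheight x = 1)
    (hr : IsRegularLocalRing (X.presheaf.stalk x)) (D : ValuationSubring X.functionField)
    (hD : IsStk x D) (b : MilnorK X.functionField 2) (t : (X.residueField x)ˣ)
    (hb : IsTameK2 x b t) :
    ∃ (β : Sy X.functionField) (w : (X.presheaf.stalk x)ˣ), toK2 β = b ∧
      sm D β = endStk x w ∧ endRes x w ^ 2 = t ^ 2 := by
  obtain ⟨m, f, g, n, s, hb, hs, ht⟩ := hb
  obtain ⟨hdisc, -, -, hunit, -⟩ := (h3 X x hx hr).2 D hD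
  have h1 : ∀ j, ∃ v : (X.presheaf.stalk x)ˣ,
      sm D (FreeAbelianGroup.of (f j, g j)) = stkUnit x v := fun j =>
    (hunit _).1 ((h0 X.functionField D hdisc).1 _)
  choose v hv using h1
  have h2 : ∀ j, endRes x (v j) ^ 2 = s j ^ 2 := fun j =>
    end_of_pow x (v j) (s j) ((h4 X x hx hr D hD (f j) (g j)).2 (s j) (hs j) (v j) (hv j))
  refine ⟨∑ j, n j • FreeAbelianGroup.of (f j, g j), ∏ j, v j ^ n j, ?_, ?_, ?_⟩
  · rw [end_toK2_sum, hb]
  · rw [end_sm_sum, map_prod]
    refine Finset.prod_congr rfl fun j _ => ?_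
    rw [map_zpow, hv j, endStk_eq]
  · rw [map_prod, ht, ← Finset.prod_pow, ← Finset.prod_pow]
    refine Finset.prod_congr rfl fun j _ => ?_
    rw [map_zpow, ← zpow_natCast, ← zpow_natCast, zpow_comm, zpow_comm (s j), zpow_natCast,
      zpow_natCast, h2 j]

theorem end_point (h0 : SpSm) (h3 : SpStk) (h4 : SpTameAt) {X : Scheme.{0}} [IsIntegral X]
    [IsLocallyNoetherian X] (x : X) (hx : Order.coheight x = 1)
    (hr : IsRegularLocalRing (X.presheaf.stalk x)) (D : ValuationSubring X.functionField)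
    (hD : IsStk x D) (b : MilnorK X.functionField 2) (t : (X.residueField x)ˣ)
    (hb : IsTameK2 x b t) (N : ℕ) (γ : Sy X.functionField)
    (hγ : ∀ c : Sy X.functionField, toK2 c = b → TorsV D (sm D (γ - N • c)))
    (e : (X.residueField x)ˣ)
    (he : ∀ v : (X.presheaf.stalk x)ˣ, sm D γ = stkUnit x v →
      (X.residue x).hom (v : X.presheaf.stalk x) ^ 2 = (e : X.residueField x) ^ 2) :
    ∃ n : ℕ, 0 < n ∧ e ^ (2 * n) = t ^ (2 * N * n) := by
  obtain ⟨β, w, hβ, hw, hwt⟩ := end_local h0 h3 h4 x hx hr D hD b t hb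
  obtain ⟨hdisc, -, -, hunit, htors⟩ := (h3 X x hx hr).2 D hD
  obtain ⟨hs1, hs2, hs3, hs4, -⟩ := h0 X.functionField D hdisc
  obtain ⟨v, hv⟩ := (hunit _).1 (hs1 γ)
  have hve : endRes x v ^ 2 = e ^ 2 := end_of_pow x v e (he v hv)
  have h1 : sm D (γ - N • β) = stkUnit x (v * (w ^ N)⁻¹) := by
    rw [sub_eq_add_neg, hs2, hs3, hs4, hv, hw, ← endStk_eq, ← endStk_eq, map_mul, map_inv,
      map_pow]
  obtain ⟨n, hn, hn1⟩ := (htors (v * (w ^ N)⁻¹)).1 (h1 ▸ hγ β hβ)
  refine ⟨n, hn, ?_⟩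
  have h2 : endRes x (v * (w ^ N)⁻¹) ^ n = 1 := by
    apply Units.ext
    rw [Units.val_pow_eq_pow_val, endRes_coe]
    exact hn1
  rw [map_mul, map_inv, map_pow, mul_pow, inv_pow, mul_inv_eq_one] at h2
  calc e ^ (2 * n) = (endRes x v ^ 2) ^ n := by rw [pow_mul, hve]
    _ = (endRes x v ^ n) ^ 2 := by rw [← pow_mul, ← pow_mul, mul_comm]
    _ = ((endRes x w ^ N) ^ n) ^ 2 := by rw [h2]
    _ = (endRes x w ^ 2) ^ (N * n) := by
        rw [← pow_mul, ← pow_mul, ← pow_mul]; congr 1; ring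
    _ = t ^ (2 * N * n) := by rw [hwt, ← pow_mul, mul_assoc]

/-- X09. -/
theorem end_chain (h0 : SpSm) (_h1 : SpTameK) (h3 : SpStk) (h4 : SpTameAt) (h8 : SpChain) :
    SpEnd := by
  intro X _ _ hreg β ξ hξ N γ hN hγ
  obtain ⟨η, hη, hη2⟩ := h8 X hreg γ
  have key : ∀ x : PointOne X, ∃ n : ℕ, 0 < n ∧
      (2 * n) • η x = (2 * N * n) • ξ x := by
    intro x
    obtain ⟨D, hD⟩ := (h3 X x.1 x.2 (hreg x.1)).1
    obtain ⟨n, hn, h⟩ := end_point h0 h3 h4 x.1 x.2 (hreg x.1) D hD (β x.1)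
      (Additive.toMul (ξ x)) (hξ x) N γ (fun c hc => hγ x D hD c hc) (Additive.toMul (η x))
      (fun v hv => hη2 x D hD v hv)
    exact ⟨n, hn, Additive.toMul.injective (by rw [toMul_nsmul, toMul_nsmul]; exact h)⟩
  choose n hn hkey using key
  classical
  set s : Finset (PointOne X) := ξ.support ∪ η.support with hs
  have hM : 0 < ∏ x ∈ s, n x := Finset.prod_pos fun x _ => hn x
  refine ⟨2 * N * ∏ x ∈ s, n x, by positivity, ?_⟩
  have h : (2 * N * ∏ x ∈ s, n x) • ξ = (2 * ∏ x ∈ s, n x) • η := by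
    refine DFinsupp.ext fun x => ?_
    rw [DFinsupp.smul_apply, DFinsupp.smul_apply]
    by_cases hx : x ∈ s
    · obtain ⟨c, hc⟩ := Finset.dvd_prod_of_mem n hx
      rw [hc]
      have h1 : 2 * N * (n x * c) = c * (2 * N * n x) := by ring
      have h2 : 2 * (n x * c) = c * (2 * n x) := by ring
      rw [h1, h2, mul_nsmul' _ c, mul_nsmul' _ c, hkey x]
    · have hx1 : ξ x = 0 := by
        by_contra h
        exact hx (Finset.mem_union_left _ (DFinsupp.mem_support_iff.2 h))
      have hx2 : η x = 0 := by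
        by_contra h
        exact hx (Finset.mem_union_right _ (DFinsupp.mem_support_iff.2 h))
      rw [hx1, hx2, smul_zero, smul_zero]
  rw [h]
  exact AddSubgroup.nsmul_mem _ hη _

end Pool.Agent.H20.UT
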