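import Pool.Agent.H20.UT.Stmt

/-!
Project UT, X18: the model of a regular projective surface (helper20).
-/

set_option autoImplicit false
set_option maxHeartbeats 400000

open AlgebraicGeometry CategoryTheory Pool.Agent.K1 Pool.Agent.KM Pool.Agent.H19.UT

namespace Pool.Agent.H20.UT

section

variable {X : Scheme.{0}} [IsIntegral X]

theorem stk_inj (x : X) :
    Function.Injective (algebraMap (X.presheaf.stalk x) X.functionField) :=
  IsFractionRing.injective (X.presheaf.stalk x) X.functionField

/-- The local ring as a subring of the function field. -/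
noncomputable def stkEquiv (x : X) : X.presheaf.stalk x ≃+* stkSub x :=
  RingEquiv.ofBijective (algebraMap (X.presheaf.stalk x) X.functionField).rangeRestrict
    ⟨fun _ _ h => stk_inj x (congrArg Subtype.val h),
      (algebraMap (X.presheaf.stalk x) X.functionField).rangeRestrict_surjective⟩

theorem stkEquiv_coe (x : X) (a : X.presheaf.stalk x) :
    ((stkEquiv x a : stkSub x) : X.functionField) =
      algebraMap (X.presheaf.stalk x) X.functionField a := rfl

theorem exists_stk (x : X) (a : stkSub x) : ∃ b : X.presheaf.stalk x, stkEquiv x b = a :=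
  (stkEquiv x).surjective a

theorem isUnit_stk (x : X) (b : X.presheaf.stalk x) : IsUnit (stkEquiv x b) ↔ IsUnit b :=
  MulEquiv.isUnit_map (stkEquiv x)

instance (x : X) : IsLocalRing (stkSub x) :=
  (stkEquiv x).isLocalRing

/-- Every point is the centre of a valuation ring. -/
theorem exists_ctr (x : X) : ∃ V : ValuationSubring X.functionField, Ctr V x := by
  obtain ⟨V, hV⟩ := (LocalSubring.mk (stkSub x)).exists_le_valuationSubring
  obtain ⟨h1, h2⟩ := hV
  refine ⟨V, fun a => ?_⟩
  have h3 : algebraMap (X.presheaf.stalk x) X.functionField a ∈ V := h1 (stkEquiv x a).2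
  refine ⟨h3, fun ha => ?_⟩
  rw [tord_nonunits_iff]
  by_contra h4
  push Not at h4
  obtain ⟨h5, h6⟩ := h4
  have h7 := h6 h3
  apply ha
  rw [← isUnit_stk]
  refine h2.1 (stkEquiv x a) ?_
  refine IsUnit.of_mul_eq_one ⟨_, h7⟩ (Subtype.ext ?_)
  exact mul_inv_cancel₀ h5

end

theorem modelOf (hConst : SpConst) (hStk : SpStk) (hCtr : SpCtr) (hReg2 : SpReg2)
    (hOrd : SpOrdS) (hSurf : SpSurf) (hFin : SpUnitFin) (hCtrS : SpCtrS) : SpModelOf := by
  intro p _ k _ _ _ _ n S _ _ i _ E hreg hdim hdim'
  let _ := E.kf.toAlgebra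
  have hkf : ∀ c : k, algebraMap k S.functionField c = E.kf c := fun _ => rfl
  refine ⟨{
    S1 := {D | ∃ x : PointOne S, IsStk x.1 D}
    S2 := {R | ∃ y : S, Order.coheight y = 2 ∧ R = stkSub y}
    disc := ?_
    reg := ?_
    res := ?_
    on := ?_
    ctr := ?_
    fin := ?_
    kill := ?_ }⟩
  · rintro s ⟨x, hx⟩
    exact ((hStk S x.1 x.2 (hreg x.1)).2 s hx).1
  · rintro R ⟨y, hy, rfl⟩
    exact hReg2 k n S E y hy (hreg y)
  · rintro R ⟨y, hy, rfl⟩ a
    suffices h : ∃ c : k, ¬ IsUnit (a - ⟨algebraMap k S.functionField c,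
        (hReg2 k n S E y hy (hreg y)).k_mem c⟩) by
      obtain ⟨c, hc⟩ := h
      exact ⟨c, _, rfl, hc⟩
    obtain ⟨V, hV⟩ := exists_ctr y
    obtain ⟨b, rfl⟩ := exists_stk y a
    have hkV : ∀ c : k, E.kf c ∈ V := fun c => hConst p k _ E.kf V c
    have huniq : ∀ z : S, Ctr V z → z = y := by
      obtain ⟨w, _, hw⟩ := hCtr k n S E V hkV
      intro z hz
      rw [hw z hz, hw y hV]
    have hVtop : V ≠ ⊤ := by
      rintro rfl
      have h1 : IsField (S.presheaf.stalk y) := by
        rw [IsLocalRing.isField_iff_maximalIdeal_eq, eq_bot_iff]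
        intro c hc
        have h2 := (hV c).2 ((IsLocalRing.mem_maximalIdeal c).1 hc)
        rw [tord_nonunits_iff] at h2
        rcases h2 with h2 | h2
        · exact Ideal.mem_bot.2 (stk_inj y (by rw [h2, map_zero]))
        · exact absurd (ValuationSubring.mem_top _) h2.2
      have h3 := (hReg2 k n S E y hy (hreg y)).dim
      have h4 : IsField (stkSub y) := MulEquiv.isField h1 (stkEquiv y).symm.toMulEquiv
      rw [ringKrullDim_eq_zero_of_isField h4] at h3
      exact absurd h3 (by norm_num)
    rcases hCtrS k n S E hreg hdim hdim' V hVtop hkV with ⟨x, hx⟩ | ⟨z, hz, hz', hres⟩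
    · have h1 := huniq x.1 ((hStk S x.1 x.2 (hreg x.1)).2 V hx).2.1
      have h2 := x.2
      rw [h1, hy] at h2
      exact absurd h2 (by norm_num)
    · obtain rfl := huniq z hz'
      obtain ⟨c, hc⟩ := hres b
      refine ⟨c, fun hu => ?_⟩
      obtain ⟨b', hb'⟩ := exists_stk z ⟨algebraMap k S.functionField c,
        (hReg2 k n S E z hz (hreg z)).k_mem c⟩
      rw [← hb', ← map_sub, isUnit_stk] at hu
      have h3 : algebraMap (S.presheaf.stalk z) S.functionField (b - b') ∈ V.nonunits := by
        rw [map_sub]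
        have h4 : algebraMap (S.presheaf.stalk z) S.functionField b' = E.kf c := by
          rw [← hkf]
          exact congrArg Subtype.val hb'
        rw [h4]
        exact hc
      obtain ⟨d, hd⟩ := hu.exists_right_inv
      have h5 := (hV d).1
      rw [tord_nonunits_iff] at h3
      rcases h3 with h3 | h3
      · have h6 : b - b' = 0 := stk_inj z (by rw [h3, map_zero])
        rw [h6, zero_mul] at hd
        exact zero_ne_one hd
      · apply h3.2
        have h7 : (algebraMap (S.presheaf.stalk z) S.functionField (b - b'))⁻¹ =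
            algebraMap (S.presheaf.stalk z) S.functionField d := by
          refine inv_eq_of_mul_eq_one_right ?_
          rw [← map_mul, hd, map_one]
        rw [h7]
        exact h5
  · rintro R ⟨y, hy, rfl⟩ s hs
    obtain ⟨x, _, hx⟩ := ((hOrd k n S E y hy hreg).1 s).1 hs
    exact ⟨x, hx⟩
  · intro V hV
    have hkV : ∀ c : k, E.kf c ∈ V := fun c => hConst p k _ E.kf V c
    rcases hCtrS k n S E hreg hdim hdim' V hV hkV with hx | ⟨z, hz, hz', _⟩
    · exact Or.inl hx
    · right
      refine ⟨stkSub z, ⟨z, hz, rfl⟩, fun a => ?_⟩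
      obtain ⟨b, rfl⟩ := exists_stk z a
      refine ⟨(hz' b).1, fun h => (hz' b).2 ?_⟩
      rwa [isUnit_stk] at h
  · intro f
    exact hFin S hreg f
  · intro g hg hfin hsum
    obtain ⟨N, γ, hN, h1⟩ := hSurf p k n S i hreg hdim hdim' g
      (fun x D hD => hg D ⟨x, hD⟩) hfin (fun y hy => hsum _ ⟨y, hy, rfl⟩)
    exact ⟨N, γ, hN, fun s ⟨x, hx⟩ => h1 x s hx⟩

end Pool.Agent.H20.UT
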