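import Pool.Agent.H20.UT.XSpec

/-!
Project UT, row X06: charts around a point, described by valuation rings.
-/

set_option autoImplicit false
set_option maxHeartbeats 400000

open AlgebraicGeometry CategoryTheory Pool.Agent.K1 Pool.Agent.KM Pool.Agent.H19.UT

namespace Pool.Agent.H20.UT

/-- `a` in the local ring at the centre of `V` is a unit if the inverse of its image is in `V`. -/
theorem nbh_unit {X : Scheme.{0}} [IsIntegral X] {V : ValuationSubring X.functionField} {y : X}
    (hy : Ctr V y) (a : X.presheaf.stalk y)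
    (ha : algebraMap (X.presheaf.stalk y) X.functionField a ≠ 0)
    (hV : (algebraMap (X.presheaf.stalk y) X.functionField a)⁻¹ ∈ V) : IsUnit a := by
  by_contra h
  have h1 := (hy a).2 h
  rw [ValuationSubring.mem_nonunits_iff_exists_mem_maximalIdeal] at h1
  obtain ⟨h2, h3⟩ := h1
  rw [IsLocalRing.mem_maximalIdeal, mem_nonunits_iff] at h3
  refine h3 (IsUnit.of_mul_eq_one ⟨_, hV⟩ (Subtype.ext ?_))
  exact mul_inv_cancel₀ ha

/-- The inverse of the image of a unit of the local ring at the centre of `V` is in `V`. -/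
theorem nbh_inv {X : Scheme.{0}} [IsIntegral X] {V : ValuationSubring X.functionField} {y : X}
    (hy : Ctr V y) (a : X.presheaf.stalk y) (ha : IsUnit a) :
    (algebraMap (X.presheaf.stalk y) X.functionField a)⁻¹ ∈ V := by
  obtain ⟨u, rfl⟩ := ha
  have h1 : (algebraMap (X.presheaf.stalk y) X.functionField (u : X.presheaf.stalk y))⁻¹ =
      algebraMap (X.presheaf.stalk y) X.functionField ((u⁻¹ : (X.presheaf.stalk y)ˣ) :
        X.presheaf.stalk y) := by
    refine inv_eq_of_mul_eq_one_right ?_
    rw [← map_mul, Units.mul_inv, map_one]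
  rw [h1]
  exact (hy _).1

theorem nbh (_h5 : SpCtr) : SpNbh := by
  classical
  intro k _ n X _ E x W hxW
  obtain ⟨j, hj⟩ := E.cover x
  have hl : E.l (Pi.single j 1) ≠ 0 := by
    intro h
    have h1 := E.empty _ h
    rw [h1] at hj
    exact hj
  obtain ⟨haf, hgen⟩ := E.affine _ hl
  have hlw : ∀ i, E.l (Pi.single i 1) = E.w i := by
    intro i
    rw [EmbedData.l, Finset.sum_eq_single i]
    · simp
    · intro b _ hb
      simp [hb]
    · simp
  obtain ⟨f, hfW, hxf⟩ := haf.exists_basicOpen_le ⟨x, hxW⟩ hj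
  have : Nonempty (E.U (Pi.single j 1)) := ⟨⟨x, hj⟩⟩
  set F : X.functionField := X.germToFunctionField (E.U (Pi.single j 1)) f with hF
  have hgf : ∀ (y : X) (hy : y ∈ E.U (Pi.single j 1)),
      algebraMap (X.presheaf.stalk y) X.functionField (X.presheaf.germ _ y hy f) = F :=
    fun y hy => Scheme.algebraMap_germ_eq_germToFunctionField X hy f
  have hF0 : F ≠ 0 := by
    rw [← hgf x hj]
    exact ((X.mem_basicOpen f x hj).1 hxf).map _ |>.ne_zero
  refine ⟨X.basicOpen f, insert F⁻¹ (Finset.univ.image fun i => E.w i / E.l (Pi.single j 1)),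
    hxf, hfW, fun V _ y hy => ⟨fun hA => ?_, fun hyU => ?_⟩⟩
  · have h1 : F⁻¹ ∈ V := hA _ (Finset.mem_insert_self _ _)
    have h2 : ∀ i, E.w i / E.l (Pi.single j 1) ∈ V := fun i =>
      hA _ (Finset.mem_insert_of_mem (Finset.mem_image_of_mem _ (Finset.mem_univ i)))
    obtain ⟨i, hi⟩ := E.cover y
    obtain ⟨a, ha, hiff⟩ := E.stalk (Pi.single j 1) (Pi.single i 1) y hi
    have ha0 : algebraMap (X.presheaf.stalk y) X.functionField a ≠ 0 := by
      intro h
      rw [h, zero_mul] at ha
      exact hl ha.symm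
    have hi0 : E.l (Pi.single i 1) ≠ 0 := by
      intro h
      rw [h, mul_zero] at ha
      exact hl ha.symm
    have h3 : (algebraMap (X.presheaf.stalk y) X.functionField a)⁻¹ =
        E.w i / E.l (Pi.single j 1) := by
      rw [← hlw i, ← ha]
      field_simp
    have hyj : y ∈ E.U (Pi.single j 1) :=
      hiff.1 (nbh_unit hy a ha0 (by rw [h3]; exact h2 i))
    refine (X.mem_basicOpen f y hyj).2 (nbh_unit hy _ ?_ ?_)
    · rw [hgf y hyj]; exact hF0
    · rw [hgf y hyj]; exact h1
  · have hyj : y ∈ E.U (Pi.single j 1) := X.basicOpen_le f hyU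
    intro a ha
    rw [Finset.mem_insert] at ha
    rcases ha with rfl | ha
    · rw [← hgf y hyj]
      exact nbh_inv hy _ ((X.mem_basicOpen f y hyj).1 hyU)
    · obtain ⟨i, -, rfl⟩ := Finset.mem_image.1 ha
      obtain ⟨b, hb, -⟩ := E.stalk (Pi.single i 1) (Pi.single j 1) y hyj
      rw [← hlw i, ← hb, mul_div_assoc, div_self hl, mul_one]
      exact (hy b).1

end Pool.Agent.H20.UT
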