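import Pool.Agent.H20.UT.XSpec
import Pool.Agent.K1.BDom

/-!
Project UT, X11: the curves on the local rings of codimension two, and orders along them.
-/

set_option autoImplicit false
set_option maxHeartbeats 400000

open AlgebraicGeometry CategoryTheory Pool.Agent.K1 Pool.Agent.KM Pool.Agent.H19.UT

namespace Pool.Agent.H20.UT

section stalks

variable {X : Scheme.{0}} [IsIntegral X]

/-- The local ring and its image in the function field. -/
noncomputable def ordsI (y : X) : X.presheaf.stalk y ≃+* stkSub y :=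
  RingEquiv.ofBijective (algebraMap (X.presheaf.stalk y) X.functionField).rangeRestrict
    ⟨fun _ _ h => IsFractionRing.injective (X.presheaf.stalk y) X.functionField
      (congrArg Subtype.val h), RingHom.rangeRestrict_surjective _⟩

theorem ordsI_coe (y : X) (a : X.presheaf.stalk y) :
    ((ordsI y a : stkSub y) : X.functionField) =
      algebraMap (X.presheaf.stalk y) X.functionField a := rfl

theorem ords_germ {U : X.Opens} {x y : X} (h : x ⤳ y) (hx : x ∈ U) (hy : y ∈ U) (a : Γ(X, U)) :
    algebraMap (X.presheaf.stalk y) X.functionField ((X.presheaf.germ U y hy).hom a) =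
      algebraMap (X.presheaf.stalk x) X.functionField ((X.presheaf.germ U x hx).hom a) := by
  rw [← bdom_algebraMap h]
  congr 1
  rw [← CommRingCat.comp_apply, TopCat.Presheaf.germ_stalkSpecializes]

theorem ords_mem {U : X.Opens} (hU : IsAffineOpen U) {x y : X} (h : x ⤳ y) (hx : x ∈ U)
    (hy : y ∈ U) (z : X.functionField) : z ∈ stkSub x ↔ ∃ a s : Γ(X, U),
      IsUnit ((X.presheaf.germ U x hx).hom s) ∧
      z * algebraMap (X.presheaf.stalk y) X.functionField ((X.presheaf.germ U y hy).hom s) =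
        algebraMap (X.presheaf.stalk y) X.functionField
          ((X.presheaf.germ U y hy).hom a) := by
  constructor
  · rintro ⟨b, rfl⟩
    obtain ⟨a, s, hs, hbs⟩ := bdom_stalk_quot U hU hx b
    refine ⟨a, s, hs, ?_⟩
    rw [ords_germ h hx hy, ords_germ h hx hy, ← map_mul, hbs]
  · rintro ⟨a, s, hs, h1⟩
    obtain ⟨u, hu⟩ := hs
    refine ⟨(X.presheaf.germ U x hx).hom a *
      ((u⁻¹ : (X.presheaf.stalk x)ˣ) : X.presheaf.stalk x), ?_⟩
    rw [ords_germ h hx hy, ords_germ h hx hy] at h1
    rw [map_mul, ← h1, ← hu, mul_assoc, ← map_mul, Units.mul_inv, map_one, mul_one]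

theorem ords_point {y : X} (f : stkSub y)
    (D : ValuationSubring X.functionField) (hD : OnR (stkSub y) f D) (hdisc : IsDiscV D) :
    ∃ x : PointOne X, x.1 ⤳ y ∧ IsStk x.1 D := by
  obtain ⟨hf, hmem⟩ := hD
  obtain ⟨U, hU, hy, -⟩ := exists_isAffineOpen_mem_and_subset (X := X) (x := y) (U := ⊤) trivial
  let ρ : Γ(X, U) →+* stkSub y := (ordsI y : X.presheaf.stalk y →+* stkSub y).comp
    (X.presheaf.germ U y hy).hom
  have hρ : ∀ a, ((ρ a : stkSub y) : X.functionField) =
    algebraMap (X.presheaf.stalk y) X.functionField ((X.presheaf.germ U y hy).hom a) :=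
    fun a => rfl
  have hprime : ((Ideal.span {f}).comap ρ).IsPrime := by
    have : (Ideal.span {f}).IsPrime := (Ideal.span_singleton_prime hf.ne_zero).2 hf
    exact Ideal.comap_isPrime ρ _
  let Q : PrimeSpectrum Γ(X, U) := ⟨(Ideal.span {f}).comap ρ, hprime⟩
  have hQ : ∀ a, a ∈ Q.asIdeal ↔ f ∣ ρ a := fun a => by
    change ρ a ∈ Ideal.span {f} ↔ _
    exact Ideal.mem_span_singleton
  have hx : hU.fromSpec Q ∈ U := af_mem hU Q
  have hunit : ∀ a, IsUnit ((X.presheaf.germ U (hU.fromSpec Q) hx).hom a) ↔ ¬ f ∣ ρ a :=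
    fun a => (af_germ_unit hU Q hx a).trans (not_congr (hQ a))
  have hρu : ∀ a, IsUnit ((X.presheaf.germ U y hy).hom a) → ¬ f ∣ ρ a := by
    intro a ha hfa
    have h1 : IsUnit (ρ a) := by
      change IsUnit ((ordsI y) ((X.presheaf.germ U y hy).hom a))
      exact ha.map (ordsI y)
    exact hf.not_isUnit (isUnit_of_dvd_unit hfa h1)
  have hsp : hU.fromSpec Q ⤳ y := by
    refine (specializes_iff_chart U hU hy hx).2 fun a ha => ?_
    rw [af_eval_eq_zero hx, hunit, not_not] at ha
    rw [af_eval_eq_zero hy]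
    exact fun h1 => hρu a h1 ha
  have hstk : IsStk (hU.fromSpec Q) D := by
    intro z
    rw [hmem z, ords_mem hU hsp hx hy z]
    constructor
    · rintro ⟨a, b, hb, hz⟩
      obtain ⟨a0, rfl⟩ := (ordsI y).surjective a
      obtain ⟨b0, rfl⟩ := (ordsI y).surjective b
      obtain ⟨a1, s, hs, ha1⟩ := bdom_stalk_quot U hU hy a0
      obtain ⟨b1, s', hs', hb1⟩ := bdom_stalk_quot U hU hy b0
      refine ⟨a1 * s', b1 * s, ?_, ?_⟩
      · rw [hunit]
        intro h1
        rw [map_mul] at h1
        rcases hf.dvd_or_dvd h1 with h2 | h2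
        · have h3 : ρ b1 = ordsI y b0 * ρ s' := by
            change (ordsI y) ((X.presheaf.germ U y hy).hom b1) =
              ordsI y b0 * (ordsI y) ((X.presheaf.germ U y hy).hom s')
            rw [← map_mul, hb1]
          rw [h3] at h2
          rcases hf.dvd_or_dvd h2 with h4 | h4
          · exact hb h4
          · exact hρu s' hs' h4
        · exact hρu s hs h2
      · have e1 := congrArg (algebraMap (X.presheaf.stalk y) X.functionField) ha1
        have e2 := congrArg (algebraMap (X.presheaf.stalk y) X.functionField) hb1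
        rw [map_mul] at e1 e2
        rw [ordsI_coe, ordsI_coe] at hz
        rw [map_mul, map_mul, map_mul, map_mul, ← e1, ← e2, ← hz]
        ring
    · rintro ⟨a, s, hs, hz⟩
      exact ⟨ρ a, ρ s, (hunit s).1 hs, hz⟩
  refine ⟨⟨hU.fromSpec Q, ?_⟩, hsp, hstk⟩
  have hdvr : IsDiscreteValuationRing D := isDiscV_iff.1 hdisc
  let e : X.presheaf.stalk (hU.fromSpec Q) ≃+* D :=
    RingEquiv.ofBijective
      ((algebraMap (X.presheaf.stalk (hU.fromSpec Q)) X.functionField).codRestrict D.toSubring
        (fun a => (hstk _).2 ⟨a, rfl⟩))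
      ⟨fun _ _ h => IsFractionRing.injective (X.presheaf.stalk (hU.fromSpec Q)) X.functionField
        (congrArg Subtype.val h), fun d => by
          obtain ⟨a, ha⟩ := (hstk d).1 d.2
          exact ⟨a, Subtype.ext ha⟩⟩
  have h1 := ringKrullDim_eq_of_ringEquiv e
  have h2 : ringKrullDim D = 1 := IsDiscreteValuationRing.ringKrullDim_eq_one D
  rw [h2, ringKrullDim_stalk_eq_coheight] at h1
  exact_mod_cast h1

theorem ords_nonunits {x : X} {D : ValuationSubring X.functionField} (hD : IsStk x D)
    (hctr : Ctr D x) (a : X.presheaf.stalk x) :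
    algebraMap (X.presheaf.stalk x) X.functionField a ∈ D.nonunits ↔ ¬ IsUnit a := by
  refine ⟨?_, (hctr a).2⟩
  rintro h ⟨u, rfl⟩
  rw [tord_nonunits_iff] at h
  have h1 : algebraMap (X.presheaf.stalk x) X.functionField u *
      algebraMap (X.presheaf.stalk x) X.functionField
        ((u⁻¹ : (X.presheaf.stalk x)ˣ) : X.presheaf.stalk x) = 1 := by
    rw [← map_mul, Units.mul_inv, map_one]
  rcases h with h | ⟨-, h⟩
  · rw [h, zero_mul] at h1
    exact zero_ne_one h1
  · rw [← eq_inv_of_mul_eq_one_right h1] at h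
    exact h ((hD _).2 ⟨_, rfl⟩)

/-- From a point of codimension one to a prime element. -/
theorem ords_on [IsLocallyNoetherian X] (h3 : SpStk) (hon : SpOnFacts) {k : Type} [Field k]
    [Algebra k X.functionField] {y : X} (hR : Reg2 k (stkSub y)) (x : PointOne X) (h : x.1 ⤳ y)
    (hreg : IsRegularLocalRing (X.presheaf.stalk x.1))
    (D : ValuationSubring X.functionField) (hD : IsStk x.1 D) :
    ∃ f : stkSub y, OnR (stkSub y) f D := by
  obtain ⟨hufm, -, hex, hfac, -⟩ := hon k X.functionField (stkSub y) hR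
  obtain ⟨hdisc, hctr, -, -, -⟩ := (h3 X x.1 x.2 hreg).2 D hD
  obtain ⟨U, hU, hy, -⟩ := exists_isAffineOpen_mem_and_subset (X := X) (x := y) (U := ⊤) trivial
  have hx : x.1 ∈ U := h.mem_open U.isOpen hy
  have hRD : ∀ r : stkSub y, (r : X.functionField) ∈ D := by
    rintro ⟨_, a, rfl⟩
    rw [hD]
    exact ⟨(X.presheaf.stalkSpecializes h).hom a, bdom_algebraMap h a⟩
  let ι : stkSub y →+* D := (stkSub y).subtype.codRestrict D.toSubring hRD
  have hι : ∀ r : stkSub y, ((ι r : D) : X.functionField) = r := fun _ => rfl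
  let P : Ideal (stkSub y) := (IsLocalRing.maximalIdeal D).comap ι
  have hP : P.IsPrime := Ideal.comap_isPrime ι _
  have hmemP : ∀ r : stkSub y, r ∈ P ↔ (r : X.functionField) ∈ D.nonunits := by
    intro r
    change ι r ∈ IsLocalRing.maximalIdeal D ↔ _
    rw [← ValuationSubring.coe_mem_nonunits_iff]
    exact Iff.rfl
  have hPne : P ≠ ⊥ := by
    intro h0
    apply discV_ne_top hdisc
    rw [eq_top_iff]
    intro z _
    obtain ⟨a, b, hb, hz⟩ := hR.frac z
    have hbu : (b : X.functionField) ∉ D.nonunits := by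
      rw [← hmemP, h0, Ideal.mem_bot]
      rintro rfl
      exact hb rfl
    rw [tord_nonunits_iff] at hbu
    push Not at hbu
    have h1 : (b : X.functionField)⁻¹ ∈ D := hbu.2 (hRD b)
    have h2 : z = a * (b : X.functionField)⁻¹ := by
      rw [← hz, mul_assoc, mul_inv_cancel₀ hb, mul_one]
    rw [h2]
    exact D.mul_mem _ _ (hRD a) h1
  obtain ⟨f, hfP, hf⟩ := Ideal.IsPrime.exists_mem_prime_of_ne_bot hP hPne
  obtain ⟨D', hD'⟩ := hex f hf
  have hfD : (f : X.functionField) ∈ D.nonunits := (hmemP f).1 hfP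
  have hdisc' : IsDiscV D' := (hfac f D' hD').1
  have hle : ∀ t ∈ D, t ∈ D' := by
    intro t ht
    rw [hD t, ords_mem hU h hx hy t] at ht
    obtain ⟨a, s, hs, hz⟩ := ht
    rw [hD'.2 t]
    refine ⟨ordsI y ((X.presheaf.germ U y hy).hom a), ordsI y ((X.presheaf.germ U y hy).hom s),
      ?_, hz⟩
    rintro ⟨r, hr⟩
    have h1 : ((ordsI y ((X.presheaf.germ U y hy).hom s) : stkSub y) : X.functionField) ∈
        D.nonunits := by
      rw [← hmemP, hr]
      exact P.mul_mem_right r hfP
    rw [ordsI_coe, ords_germ h hx hy, ords_nonunits hD hctr] at h1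
    exact h1 hs
  rcases discV_maximal hdisc hle with h1 | h1
  · rw [← h1]
    exact ⟨f, hD'⟩
  · exact absurd h1 (discV_ne_top hdisc')

theorem ords_ker {x y : X} (h : x ⤳ y) {D : ValuationSubring X.functionField}
    (hD : IsStk x D) (hctr : Ctr D x) (c : X.presheaf.stalk y) :
    evalAt h c = 0 ↔ ((ordsI y c : stkSub y) : X.functionField) ∈ D.nonunits := by
  rw [ordsI_coe, ← bdom_algebraMap h, ords_nonunits hD hctr]
  change IsLocalRing.residue (X.presheaf.stalk x) _ = 0 ↔ _
  rw [IsLocalRing.residue_eq_zero_iff, IsLocalRing.mem_maximalIdeal]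
  rfl

/-- The length of a quotient, through the isomorphism of `R` with the local ring. -/
theorem ords_len {A R : Type} [CommRing A] [CommRing R] (e : A ≃+* R) (f c : A) :
    Module.length A (A ⧸ (Ideal.span {f} ⊔ Ideal.span {c})) = len (e f) (e c) := by
  let _ := (e : A →+* R).toAlgebra
  have hs : Function.Surjective (algebraMap A R) := e.surjective
  have hI : Ideal.span {e f, e c} = (Ideal.span {f} ⊔ Ideal.span {c}).map (e : A →+* R) := by
    rw [Ideal.map_sup, Ideal.map_span, Ideal.map_span, Set.image_singleton, Set.image_singleton,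
      Ideal.span_insert]
    rfl
  unfold len
  rw [← Module.length_eq_of_surjective (R := R) (S := A) hs]
  refine LinearEquiv.length_eq ?_
  refine
    { toFun := Ideal.quotientEquiv _ _ e hI
      map_add' := fun a b => map_add _ a b
      map_smul' := ?_
      invFun := (Ideal.quotientEquiv _ _ e hI).symm
      left_inv := fun a => (Ideal.quotientEquiv _ _ e hI).symm_apply_apply a
      right_inv := fun a => (Ideal.quotientEquiv _ _ e hI).apply_symm_apply a }
  intro a b
  obtain ⟨b, rfl⟩ := Ideal.Quotient.mk_surjective b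
  change (Ideal.quotientEquiv _ _ e hI) (Ideal.Quotient.mk _ (a * b)) =
    a • (Ideal.quotientEquiv _ _ e hI) (Ideal.Quotient.mk _ b)
  rw [Ideal.quotientEquiv_mk, Ideal.quotientEquiv_mk, map_mul]
  rfl

end stalks

/-- X11. -/
theorem ord_stk (h3 : SpStk) (h10 : SpReg2) (hon : SpOnFacts) (hod : SpOD) : SpOrdS := by
  intro k _ n X _ _ E y hy2 hreg
  let _ := E.kf.toAlgebra
  have hR : Reg2 k (stkSub y) := h10 k n X E y hy2 (hreg y)
  obtain ⟨-, -, -, hfac, -⟩ := hon k X.functionField (stkSub y) hR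
  refine ⟨fun D => ⟨?_, ?_⟩, ?_⟩
  · rintro ⟨f, hf⟩
    exact ords_point f D hf (hfac f D hf).1
  · rintro ⟨x, h, hD⟩
    exact ords_on h3 hon hR x h (hreg x.1) D hD
  · intro x h D hD v t hvt
    obtain ⟨f, hf⟩ := ords_on h3 hon hR x h (hreg x.1) D hD
    obtain ⟨-, hctr, -, hunit, -⟩ := (h3 X x.1 x.2 (hreg x.1)).2 D hD
    obtain ⟨-, hex, heq, -, -⟩ := hod k X.functionField (stkSub y) hR f D hf
    obtain ⟨m, hm⟩ := hex (stkUnit x.1 v) ((hunit _).2 ⟨v, rfl⟩)
    rw [heq _ m hm]
    obtain ⟨a, b, ha, hb, hab, rfl⟩ := hm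
    obtain ⟨c, rfl⟩ := (ordsI y).surjective a
    obtain ⟨d, rfl⟩ := (ordsI y).surjective b
    obtain ⟨f, rfl⟩ := (ordsI y).surjective f
    have hker : ∀ c, evalAt h c = 0 ↔ ordsI y f ∣ ordsI y c := fun c =>
      (ords_ker h hD hctr c).trans ((hfac _ D hf).2.2.2 _)
    have hkerI : RingHom.ker (evalAt h) = Ideal.span {f} := by
      ext c
      rw [RingHom.mem_ker, hker, Ideal.mem_span_singleton]
      exact map_dvd_iff (ordsI y)
    refine ⟨c, d, fun h0 => ha ((hker c).1 h0), fun h0 => hb ((hker d).1 h0), ?_, ?_⟩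
    · have h1 : (v : X.presheaf.stalk x.1) * (X.presheaf.stalkSpecializes h).hom d =
          (X.presheaf.stalkSpecializes h).hom c := by
        apply IsFractionRing.injective (X.presheaf.stalk x.1) X.functionField
        rw [map_mul, bdom_algebraMap, bdom_algebraMap]
        exact hab
      have h2 := congrArg (X.residue x.1).hom h1
      rw [map_mul, hvt] at h2
      exact h2
    · rw [hkerI, ords_len (ordsI y), ords_len (ordsI y)]

end Pool.Agent.H20.UT
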