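import Pool.Agent.H20.UT.XSpec

/-!
Project UT, X10: the local rings of codimension two (helper89).
-/

set_option autoImplicit false
set_option maxHeartbeats 400000

open AlgebraicGeometry CategoryTheory Pool.Agent.K1 Pool.Agent.KM Pool.Agent.H19.UT

namespace Pool.Agent.H20.UT

namespace Reg2SX

variable {X : Scheme.{0}} [IsIntegral X]

theorem alg_inj (y : X) :
    Function.Injective (algebraMap (X.presheaf.stalk y) X.functionField) :=
  IsFractionRing.injective _ _

/-- the local ring is isomorphic to its image in the function field -/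
noncomputable def stkEquiv (y : X) : X.presheaf.stalk y ≃+* stkSub y :=
  RingEquiv.ofBijective (algebraMap (X.presheaf.stalk y) X.functionField).rangeRestrict
    ⟨fun _ _ h => alg_inj y (congrArg Subtype.val h),
      (algebraMap (X.presheaf.stalk y) X.functionField).rangeRestrict_surjective⟩

theorem kf_mem {k : Type} [Field k] {n : ℕ} (E : Embed k X n) (y : X) (c : k) :
    E.kf c ∈ stkSub y := by
  refine ⟨(X.presheaf.germ ⊤ y trivial).hom (E.str c), ?_⟩
  have h1 := TopCat.Presheaf.germ_stalkSpecializes_apply X.presheaf
    (U := ⊤) (y := y) trivial ((genericPoint_spec X).specializes trivial) (E.str c)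
  exact h1

end Reg2SX

open Reg2SX

theorem reg2_stk : SpReg2 := by
  intro k _ n X _ _ E y hy hreg
  letI := E.kf.toAlgebra
  refine ⟨?_, ?_, ?_, ?_⟩
  · intro c
    exact kf_mem E y c
  · intro f
    obtain ⟨a, b, hb, hab⟩ := IsFractionRing.div_surjective (A := X.presheaf.stalk y) f
    have hb0 : algebraMap (X.presheaf.stalk y) X.functionField b ≠ 0 := by
      intro h
      have := alg_inj y (h.trans (map_zero _).symm)
      exact nonZeroDivisors.ne_zero hb this
    refine ⟨⟨algebraMap _ _ a, a, rfl⟩, ⟨algebraMap _ _ b, b, rfl⟩, hb0, ?_⟩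
    change f * algebraMap (X.presheaf.stalk y) X.functionField b =
      algebraMap (X.presheaf.stalk y) X.functionField a
    rw [← hab, div_mul_cancel₀ _ hb0]
  · exact IsRegularLocalRing.of_ringEquiv (stkEquiv y)
  · rw [← ringKrullDim_eq_of_ringEquiv (stkEquiv y), ringKrullDim_stalk_eq_coheight, hy]
    rfl

end Pool.Agent.H20.UT
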