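import Pool.Agent.H20.UT.XSpec
import Pool.Agent.K1.DCentre
import Pool.Agent.K1.SchemeOf

/-!
Project UT, row X03: the local rings of codimension one, as valuation rings.
-/

set_option autoImplicit false
set_option maxHeartbeats 400000

open AlgebraicGeometry CategoryTheory Pool.Agent.K1 Pool.Agent.KM Pool.Agent.H19.UT

namespace Pool.Agent.H20.UT

section stk

variable {X : Scheme.{0}} [IsIntegral X]

theorem stk_inj (x : X) : Function.Injective (algebraMap (X.presheaf.stalk x) X.functionField) :=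
  IsFractionRing.injective (X.presheaf.stalk x) X.functionField

theorem isStk_mem {x : X} {D : ValuationSubring X.functionField} (hD : IsStk x D)
    (a : X.presheaf.stalk x) : algebraMap (X.presheaf.stalk x) X.functionField a ∈ D :=
  (hD _).2 ⟨a, rfl⟩

/-- The units of the local ring are the elements whose inverse is in the local ring. -/
theorem isStk_inv_mem {x : X} {D : ValuationSubring X.functionField} (hD : IsStk x D)
    {a : X.presheaf.stalk x} (ha : a ≠ 0) :
    (algebraMap (X.presheaf.stalk x) X.functionField a)⁻¹ ∈ D ↔ IsUnit a := by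
  have h0 : algebraMap (X.presheaf.stalk x) X.functionField a ≠ 0 :=
    (map_ne_zero_iff _ (stk_inj x)).2 ha
  constructor
  · intro h
    obtain ⟨b, hb⟩ := (hD _).1 h
    refine IsUnit.of_mul_eq_one b (stk_inj x ?_)
    rw [map_mul, map_one, hb, mul_inv_cancel₀ h0]
  · rintro ⟨u, rfl⟩
    refine (hD _).2 ⟨((u⁻¹ : (X.presheaf.stalk x)ˣ) : X.presheaf.stalk x), ?_⟩
    refine eq_inv_of_mul_eq_one_left ?_
    rw [← map_mul, Units.inv_mul, map_one]

theorem isStk_nonunit {x : X} {D : ValuationSubring X.functionField} (hD : IsStk x D)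
    {a : X.presheaf.stalk x} :
    algebraMap (X.presheaf.stalk x) X.functionField a ∈ D.nonunits ↔ ¬ IsUnit a := by
  rw [tord_nonunits_iff]
  by_cases ha : a = 0
  · subst ha
    simp
  · have h0 : algebraMap (X.presheaf.stalk x) X.functionField a ≠ 0 :=
      (map_ne_zero_iff _ (stk_inj x)).2 ha
    rw [isStk_inv_mem hD ha]
    exact ⟨fun h => h.resolve_left h0 |>.2, fun h => Or.inr ⟨isStk_mem hD a, h⟩⟩

theorem isStk_unitIn {x : X} {D : ValuationSubring X.functionField} (hD : IsStk x D)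
    (u : X.functionFieldˣ) : UnitIn D u ↔ ∃ v : (X.presheaf.stalk x)ˣ, u = stkUnit x v := by
  constructor
  · rintro ⟨h1, h2⟩
    obtain ⟨a, ha⟩ := (hD _).1 h1
    have ha0 : a ≠ 0 := by
      rintro rfl
      rw [map_zero] at ha
      exact u.ne_zero ha.symm
    have hu : IsUnit a := by
      rw [← isStk_inv_mem hD ha0, ha, ← Units.val_inv_eq_inv_val]
      exact h2
    obtain ⟨v, rfl⟩ := hu
    exact ⟨v, Units.ext ha.symm⟩
  · rintro ⟨v, rfl⟩
    refine ⟨isStk_mem hD _, ?_⟩
    rw [Units.val_inv_eq_inv_val]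
    exact (isStk_inv_mem hD v.ne_zero).2 v.isUnit

omit [IsIntegral X] in
theorem stk_residue {x : X} (a : X.presheaf.stalk x) :
    (X.residue x).hom a = 0 ↔ ¬ IsUnit a := by
  constructor
  · intro h hu
    exact (hu.map (X.residue x).hom).ne_zero h
  · intro h
    exact Ideal.Quotient.eq_zero_iff_mem.2 ((IsLocalRing.mem_maximalIdeal a).2 h)

end stk

theorem stk_unif {X : Scheme.{0}} [IsIntegral X] {x : X} {D : ValuationSubring X.functionField}
    (hD : IsStk x D) {t : X.presheaf.stalk x} (ht : Irreducible t)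
    (hmax : ∀ a : X.presheaf.stalk x, ¬ IsUnit a ↔ t ∣ a) :
    IsUnifV D (algebraMap (X.presheaf.stalk x) X.functionField t) := by
  refine ⟨(map_ne_zero_iff _ (stk_inj x)).2 ht.ne_zero, fun z => ?_⟩
  constructor
  · intro hz
    obtain ⟨a, rfl⟩ := (hD _).1 (ValuationSubring.nonunits_subset hz)
    obtain ⟨c, rfl⟩ := (hmax a).1 ((isStk_nonunit hD).1 hz)
    exact ⟨_, isStk_mem hD c, by rw [map_mul]⟩
  · rintro ⟨c, hc, rfl⟩
    obtain ⟨b, rfl⟩ := (hD _).1 hc
    rw [← map_mul]
    exact (isStk_nonunit hD).2 ((hmax _).2 ⟨b, rfl⟩)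

theorem stk_facts : SpStk := by
  intro X _ _ x hx hreg
  have hdvr := af_dvr hreg hx
  obtain ⟨t, ht⟩ := IsDiscreteValuationRing.exists_irreducible (X.presheaf.stalk x)
  have hmax : ∀ a : X.presheaf.stalk x, ¬ IsUnit a ↔ t ∣ a := by
    intro a
    rw [← Ideal.mem_span_singleton, ← ht.maximalIdeal_eq, IsLocalRing.mem_maximalIdeal]
    exact Iff.rfl
  refine ⟨?_, fun D hD => ?_⟩
  · refine ⟨{ stkSub x with
      mem_or_inv_mem' := fun z => ?_ }, fun z => Iff.rfl⟩
    rcases ValuationRing.isInteger_or_isInteger (X.presheaf.stalk x) z with ⟨m, hm⟩ | ⟨m, hm⟩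
    · exact Or.inl ⟨m, hm⟩
    · exact Or.inr ⟨m, hm⟩
  have hunif := stk_unif hD ht hmax
  have key : ∀ z : X.functionField, z ≠ 0 → ∃ u : X.functionFieldˣ, UnitIn D u ∧
      z = (algebraMap (X.presheaf.stalk x) X.functionField t) ^ (X.ord z x) * u := by
    intro z hz
    obtain ⟨u, hu⟩ := dcen_unit_mul hx hreg t ht z hz
    refine ⟨stkUnit x u, (isStk_unitIn hD _).2 ⟨u, rfl⟩, ?_⟩
    conv_lhs => rw [← hu, mul_comm]
    rfl
  refine ⟨⟨_, hunif, fun z hz => ⟨_, key z hz⟩⟩,
    fun a => ⟨isStk_mem hD a, (isStk_nonunit hD).2⟩, fun f => ?_, isStk_unitIn hD, fun v => ?_⟩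
  · obtain ⟨u, hu, hf⟩ := key f f.ne_zero
    conv_lhs => rw [hf]
    exact ordV_eq hunif hu
  · refine exists_congr fun n => and_congr_right fun _ => ?_
    have h1 : ((stkUnit x v : X.functionFieldˣ) : X.functionField) ^ n - 1 =
        algebraMap (X.presheaf.stalk x) X.functionField
          ((v : X.presheaf.stalk x) ^ n - 1) := by
      rw [map_sub, map_pow, map_one]
      rfl
    rw [h1, isStk_nonunit hD, ← stk_residue, map_sub, map_pow, map_one, sub_eq_zero]

end Pool.Agent.H20.UT
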