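import Pool.Agent.H20.UT.XSpec
import Pool.Agent.K1.DFinal
import Pool.Agent.K1.Embed

/-!
Project UT, X12: the theorem on surfaces, for valuation rings (helper38).
-/

set_option autoImplicit false
set_option maxHeartbeats 400000

open AlgebraicGeometry CategoryTheory Pool.Agent.K1 Pool.Agent.KM Pool.Agent.H19.UT

attribute [local instance] MvPolynomial.gradedAlgebra

namespace Pool.Agent.H20.UT

theorem surf_ext {X : Scheme.{0}} [IsIntegral X] {x : X}
    {D D' : ValuationSubring X.functionField} (h : IsStk x D) (h' : IsStk x D') : D = D' :=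
  SetLike.ext fun z => (h z).trans (h' z).symm

/-- In an affine open set a point is determined by its local ring in the function field. -/
theorem surf_pt {X : Scheme.{0}} [IsIntegral X] {U : X.Opens} (hU : IsAffineOpen U) {x x' : X}
    (hx : x ∈ U) (hx' : x' ∈ U)
    (h : ∀ z : X.functionField, z ∈ stkSub x ↔ z ∈ stkSub x') : x = x' := by
  have hgen : genericPoint X ∈ U := (genericPoint_specializes x).mem_open U.isOpen hx
  have key : ∀ (P : PrimeSpectrum Γ(X, U)) (a : Γ(X, U)), a ∉ P.asIdeal ↔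
      ∃ z ∈ stkSub (hU.fromSpec P : X),
        (X.presheaf.germ U (genericPoint X) hgen).hom a * z = 1 := by
    intro P a
    have hm : hU.fromSpec P ∈ U := af_mem hU P
    have hg : algebraMap (X.presheaf.stalk (hU.fromSpec P : X)) X.functionField
        ((X.presheaf.germ U (hU.fromSpec P) hm).hom a) =
        (X.presheaf.germ U (genericPoint X) hgen).hom a :=
      TopCat.Presheaf.germ_stalkSpecializes_apply X.presheaf hm
        (genericPoint_specializes (hU.fromSpec P : X)) a
    rw [← af_germ_unit hU P hm a]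
    constructor
    · rintro ⟨u, hu⟩
      refine ⟨algebraMap (X.presheaf.stalk (hU.fromSpec P : X)) X.functionField
        ((u⁻¹ : (X.presheaf.stalk (hU.fromSpec P : X))ˣ) : X.presheaf.stalk (hU.fromSpec P : X)),
        ⟨_, rfl⟩, ?_⟩
      rw [← hg, ← hu, ← map_mul, Units.mul_inv, map_one]
    · rintro ⟨z, ⟨s, rfl⟩, hz⟩
      rw [← hg, ← map_mul] at hz
      have h1 : (X.presheaf.germ U (hU.fromSpec P) hm).hom a * s = 1 := by
        apply IsFractionRing.injective (X.presheaf.stalk (hU.fromSpec P : X)) X.functionField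
        rw [hz, map_one]
      exact IsUnit.of_mul_eq_one _ h1
  obtain ⟨P, rfl⟩ := af_surj hU hx
  obtain ⟨P', rfl⟩ := af_surj hU hx'
  have h2 : P = P' := by
    apply PrimeSpectrum.ext
    apply Ideal.ext
    intro a
    rw [← not_iff_not, key P a, key P' a]
    constructor
    · rintro ⟨z, hz, hz'⟩
      exact ⟨z, (h z).1 hz, hz'⟩
    · rintro ⟨z, hz, hz'⟩
      exact ⟨z, (h z).2 hz, hz'⟩
  rw [h2]

/-- Only finitely many points have a given local ring. -/
theorem surf_fin {X : Scheme.{0}} [IsIntegral X] [IsNoetherian X]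
    (D : ValuationSubring X.functionField) : {x : PointOne X | IsStk x.1 D}.Finite := by
  have h1 : ∀ x : X, ∃ U : X.Opens, IsAffineOpen U ∧ x ∈ U := by
    intro x
    obtain ⟨U, hU, hx, -⟩ := exists_isAffineOpen_mem_and_subset (x := x) (U := ⊤) trivial
    exact ⟨U, hU, hx⟩
  choose U hU hxU using h1
  obtain ⟨t, ht⟩ := isCompact_univ.elim_finite_subcover (fun x : X => (U x : Set X))
    (fun x => (U x).isOpen) (fun x _ => Set.mem_iUnion.2 ⟨x, hxU x⟩)
  have h2 : ∀ x : X, ∃ c : X, c ∈ t ∧ x ∈ U c := by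
    intro x
    have h3 := ht (Set.mem_univ x)
    simp only [Set.mem_iUnion, exists_prop] at h3
    exact h3
  choose c hct hcU using h2
  refine Set.Finite.of_injOn (f := fun x : PointOne X => c x.1) (t := (t : Set X))
    (fun x _ => hct x.1) ?_ t.finite_toSet
  intro x hx x' hx' h
  have h4 : c x.1 = c x'.1 := h
  apply Subtype.ext
  refine surf_pt (hU (c x.1)) (hcU x.1) (h4 ▸ hcU x'.1) fun z => ?_
  exact (hx z).symm.trans (hx' z)

theorem surf_unit_inj {X : Scheme.{0}} [IsIntegral X] {x : X} {u v : (X.presheaf.stalk x)ˣ}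
    (h : stkUnit x u = stkUnit x v) : u = v := by
  apply Units.ext
  apply IsFractionRing.injective (X.presheaf.stalk x) X.functionField
  exact congrArg Units.val h

theorem surf_unit_one {X : Scheme.{0}} [IsIntegral X] {x : X} :
    stkUnit x 1 = 1 := map_one _

theorem surf_unit_mul {X : Scheme.{0}} [IsIntegral X] {x : X} (u v : (X.presheaf.stalk x)ˣ) :
    stkUnit x (u * v) = stkUnit x u * stkUnit x v := map_mul _ _ _

theorem surf_unit_inv {X : Scheme.{0}} [IsIntegral X] {x : X} (u : (X.presheaf.stalk x)ˣ) :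
    stkUnit x u⁻¹ = (stkUnit x u)⁻¹ := map_inv _ _

theorem surf_unit_pow {X : Scheme.{0}} [IsIntegral X] {x : X} (u : (X.presheaf.stalk x)ˣ)
    (n : ℕ) : stkUnit x (u ^ n) = stkUnit x u ^ n := map_pow _ _ _

/-- The residue of a unit. -/
noncomputable def surfRes {X : Scheme.{0}} (x : X) :
    (X.presheaf.stalk x)ˣ →* (X.residueField x)ˣ :=
  Units.map (X.residue x).hom.toMonoidHom

theorem surfRes_val {X : Scheme.{0}} (x : X) (u : (X.presheaf.stalk x)ˣ) :
    ((surfRes x u : (X.residueField x)ˣ) : X.residueField x) =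
      (X.residue x).hom (u : X.presheaf.stalk x) := rfl

/-- Chains of tame symbols come from formal sums. -/
theorem surf_sy (h0 : SpSm) (h3 : SpStk) (h4 : SpTameAt) (X : Scheme.{0}) [IsIntegral X]
    [IsNoetherian X] (hreg : ∀ x : X, IsRegularLocalRing (X.presheaf.stalk x))
    (η : SChain X) (hη : η ∈ tameChains X) :
    ∃ γ : Sy X.functionField, ∀ (x : PointOne X) (D), IsStk x.1 D →
      ∀ v : (X.presheaf.stalk x.1)ˣ, sm D γ = stkUnit x.1 v →
        surfRes x.1 v ^ 2 = (Additive.toMul (η x) : (X.residueField x.1)ˣ) ^ 2 := by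
  have hdisc : ∀ (x : PointOne X) (D), IsStk x.1 D → IsDiscV D := fun x D hD =>
    ((h3 X x.1 x.2 (hreg x.1)).2 D hD).1
  have hun : ∀ (x : PointOne X) (D), IsStk x.1 D → ∀ γ : Sy X.functionField,
      ∃ v : (X.presheaf.stalk x.1)ˣ, sm D γ = stkUnit x.1 v := fun x D hD γ =>
    (((h3 X x.1 x.2 (hreg x.1)).2 D hD).2.2.2.1 _).1 ((h0 _ D (hdisc x D hD)).1 γ)
  induction hη using AddSubgroup.closure_induction with
  | mem η h =>
    obtain ⟨f, g, hf, hg, h⟩ := h
    refine ⟨FreeAbelianGroup.of (Units.mk0 f hf, Units.mk0 g hg), fun x D hD v hv => ?_⟩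
    apply Units.ext
    rw [Units.val_pow_eq_pow_val, Units.val_pow_eq_pow_val, surfRes_val]
    exact (h4 X x.1 x.2 (hreg x.1) D hD (Units.mk0 f hf) (Units.mk0 g hg)).2 _ (h x) v hv
  | zero =>
    refine ⟨0, fun x D hD v hv => ?_⟩
    have h1 : sm D (0 : Sy X.functionField) = 1 := by
      unfold sm
      rw [map_zero]
      rfl
    have h2 : v = 1 := surf_unit_inj (by rw [← hv, h1, surf_unit_one])
    rw [h2, map_one]
    rfl
  | add η η' _ _ h h' =>
    obtain ⟨γ, hγ⟩ := h
    obtain ⟨γ', hγ'⟩ := h'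
    refine ⟨γ + γ', fun x D hD v hv => ?_⟩
    obtain ⟨a, ha⟩ := hun x D hD γ
    obtain ⟨b, hb⟩ := hun x D hD γ'
    have h2 : v = a * b := surf_unit_inj (by
      rw [← hv, (h0 _ D (hdisc x D hD)).2.1, ha, hb, surf_unit_mul])
    rw [h2, map_mul, mul_pow, hγ x D hD a ha, hγ' x D hD b hb, ← mul_pow]
    rfl
  | neg η _ h =>
    obtain ⟨γ, hγ⟩ := h
    refine ⟨-γ, fun x D hD v hv => ?_⟩
    obtain ⟨a, ha⟩ := hun x D hD γ
    have h2 : v = a⁻¹ := surf_unit_inj (by
      rw [← hv, (h0 _ D (hdisc x D hD)).2.2.1, ha, surf_unit_inv])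
    rw [h2, map_inv, inv_pow, hγ x D hD a ha, ← inv_pow]
    rfl

theorem surf (h0 : SpSm) (h3 : SpStk) (h4 : SpTameAt) (h10 : SpReg2) (_hon : SpOnFacts)
    (hod : SpOD) (h11 : SpOrdS) : SpSurf := by
  intro p _ k _ _ _ n S _ _ i _ hreg hdim hdim2 g hg1 hg2 hg3
  classical
  obtain ⟨E⟩ := exists_embed k n S i
  -- the valuation rings
  choose Dv hDv using fun x : PointOne S => (h3 S x.1 x.2 (hreg x.1)).1
  have hDD := fun x : PointOne S => (h3 S x.1 x.2 (hreg x.1)).2 (Dv x) (hDv x)
  -- the units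
  have hv : ∀ x : PointOne S, ∃ v : (S.presheaf.stalk x.1)ˣ, g (Dv x) = stkUnit x.1 v :=
    fun x => ((hDD x).2.2.2.1 _).1 (hg1 x _ (hDv x))
  choose v hv using hv
  have hbad : {x : PointOne S | ¬ TorsV (Dv x) (g (Dv x))}.Finite := by
    refine (hg2.biUnion (t := fun D => {x : PointOne S | IsStk x.1 D})
      fun D _ => surf_fin D).subset ?_
    intro x hx
    exact Set.mem_biUnion (⟨⟨x, hDv x⟩, hx⟩) (hDv x)
  let ξ : SChain S := DFinsupp.mk hbad.toFinset
    (fun x => Additive.ofMul (surfRes x.1.1 (v x.1)))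
  have hξ1 : ∀ x : PointOne S, ¬ TorsV (Dv x) (g (Dv x)) →
      Additive.toMul (ξ x) = surfRes x.1 (v x) := by
    intro x hx
    have h1 : ξ x = Additive.ofMul (surfRes x.1 (v x)) := by
      show (DFinsupp.mk hbad.toFinset
        (fun x => Additive.ofMul (surfRes x.1.1 (v x.1))) : SChain S) x = _
      rw [DFinsupp.mk_apply, dif_pos (hbad.mem_toFinset.2 hx)]
    rw [h1, toMul_ofMul]
  have hξ2 : ∀ x : PointOne S, TorsV (Dv x) (g (Dv x)) → ξ x = 0 := by
    intro x hx
    show (DFinsupp.mk hbad.toFinset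
      (fun x => Additive.ofMul (surfRes x.1.1 (v x.1))) : SChain S) x = _
    rw [DFinsupp.mk_apply, dif_neg (fun h => (hbad.mem_toFinset.1 h) hx)]
  -- the cycle condition
  have hcyc : IsCycle1 ξ := by
    intro y hy
    let _ := E.kf.toAlgebra
    have hR : Reg2 k (stkSub y) := h10 k n S E y hy (hreg y)
    obtain ⟨hOn, hOrd⟩ := h11 k n S E y hy hreg
    have htor : ∀ D : ValuationSubring S.functionField, On (stkSub y) D →
        ∀ u : S.functionFieldˣ, TorsV D u → oD (stkSub y) D u = 0 := by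
      rintro D ⟨f, hf⟩ u hu
      exact (hod k S.functionField (stkSub y) hR f D hf).2.2.2.2 u hu
    have hOn' : ∀ x : PointOne S, x.1 ⤳ y → On (stkSub y) (Dv x) := fun x hx =>
      (hOn (Dv x)).2 ⟨x, hx, hDv x⟩
    let nn : PointOne S → ℤ := fun x =>
      if x.1 ⤳ y ∧ ¬ TorsV (Dv x) (g (Dv x)) then oD (stkSub y) (Dv x) (g (Dv x)) else 0
    have hnn1 : ∀ x : PointOne S, x.1 ⤳ y → nn x = oD (stkSub y) (Dv x) (g (Dv x)) := by
      intro x hx
      by_cases h : TorsV (Dv x) (g (Dv x))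
      · show (if _ then _ else _) = _
        rw [if_neg (fun h' => h'.2 h), htor _ (hOn' x hx) _ h]
      · show (if _ then _ else _) = _
        rw [if_pos ⟨hx, h⟩]
    have hnn2 : ∀ x : PointOne S, ¬ x.1 ⤳ y → nn x = 0 := by
      intro x hx
      show (if _ then _ else _) = _
      rw [if_neg (fun h' => hx h'.1)]
    have hfin : (Function.support nn).Finite := by
      refine hbad.subset fun x hx h => hx ?_
      show (if _ then _ else _) = _
      rw [if_neg (fun h' => h'.2 h)]
    refine ⟨Finsupp.ofSupportFinite nn hfin, fun x hx => hnn2 x hx, fun x hx => ?_, ?_⟩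
    · show IsOrdAt hx (Additive.toMul (ξ x)) (nn x)
      by_cases h : TorsV (Dv x) (g (Dv x))
      · have h1 : Additive.toMul (ξ x) = 1 := by rw [hξ2 x h]; rfl
        have h2 : TorsV (Dv x) 1 := by
          refine ⟨1, one_pos, ?_⟩
          rw [pow_one, Units.val_one, sub_self]
          exact tord_nonunits_iff.2 (Or.inl rfl)
        have h3 : nn x = oD (stkSub y) (Dv x) (stkUnit x.1 1) := by
          rw [hnn1 x hx, htor _ (hOn' x hx) _ h, surf_unit_one, htor _ (hOn' x hx) _ h2]
        rw [h1, h3]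
        exact hOrd x hx (Dv x) (hDv x) 1 1 (by rw [Units.val_one, map_one, Units.val_one])
      · rw [hξ1 x h, hnn1 x hx, hv x]
        exact hOrd x hx (Dv x) (hDv x) (v x) _ (surfRes_val _ _).symm
    · -- the sum
      let F : ValuationSubring S.functionField → ℤ := fun D =>
        ∑ᶠ (_ : On (stkSub y) D), oD (stkSub y) D (g D)
      have hF1 : ∀ D, On (stkSub y) D → F D = oD (stkSub y) D (g D) := by
        intro D hD
        show (∑ᶠ (_ : On (stkSub y) D), oD (stkSub y) D (g D)) = _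
        rw [finsum_eq_if, if_pos hD]
      have hF2 : ∀ D, ¬ On (stkSub y) D → F D = 0 := by
        intro D hD
        show (∑ᶠ (_ : On (stkSub y) D), oD (stkSub y) D (g D)) = _
        rw [finsum_eq_if, if_neg hD]
      have hsupp : Function.support F ⊆ ((hfin.toFinset.image Dv : Finset _) : Set _) := by
        intro D hD
        have h1 : On (stkSub y) D := by
          by_contra h
          exact hD (hF2 D h)
        obtain ⟨x, hxy, hx⟩ := (hOn D).1 h1
        have h2 : D = Dv x := surf_ext hx (hDv x)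
        rw [Finset.mem_coe, Finset.mem_image]
        refine ⟨x, ?_, h2.symm⟩
        rw [Set.Finite.mem_toFinset, Function.mem_support, hnn1 x hxy, ← h2, ← hF1 D h1]
        exact hD
      have hsum : ∑ᶠ D, F D = ∑ D ∈ hfin.toFinset.image Dv, F D :=
        finsum_eq_sum_of_support_subset F hsupp
      have hzero : ∑ᶠ D, F D = 0 := hg3 y hy
      have hspec : ∀ x ∈ hfin.toFinset, x.1 ⤳ y := by
        intro x hx
        by_contra h
        rw [Set.Finite.mem_toFinset, Function.mem_support] at hx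
        exact hx (hnn2 x h)
      obtain ⟨U, hU, hyU, -⟩ := exists_isAffineOpen_mem_and_subset (x := y) (U := ⊤) trivial
      have hinj : Set.InjOn Dv (hfin.toFinset : Set (PointOne S)) := by
        intro x hx x' hx' h
        apply Subtype.ext
        refine surf_pt hU ((hspec x hx).mem_open U.isOpen hyU)
          ((hspec x' hx').mem_open U.isOpen hyU) fun z => ?_
        rw [← hDv x z, ← hDv x' z, h]
      rw [Finset.sum_image hinj] at hsum
      have hfinal : (Finsupp.ofSupportFinite nn hfin).sum (fun _ m => m) =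
          ∑ x ∈ hfin.toFinset, F (Dv x) := by
        show ∑ x ∈ hfin.toFinset, nn x = _
        refine Finset.sum_congr rfl fun x hx => ?_
        rw [hnn1 x (hspec x hx), hF1 _ (hOn' x (hspec x hx))]
      rw [hfinal, ← hsum, hzero]
  obtain ⟨N, hN, hmem⟩ := K1_projective_field p k n S i hreg hdim hdim2 ξ hcyc
  obtain ⟨γ, hγ⟩ := surf_sy h0 h3 h4 S hreg _ hmem
  refine ⟨N, γ, hN, fun x D hD => ?_⟩
  obtain rfl : D = Dv x := surf_ext hD (hDv x)
  obtain ⟨w, hw⟩ := ((hDD x).2.2.2.1 _).1 ((h0 _ (Dv x) (hDD x).1).1 γ)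
  have h1 : sm (Dv x) γ * (g (Dv x) ^ N)⁻¹ = stkUnit x.1 (w * (v x ^ N)⁻¹) := by
    rw [hw, hv x, surf_unit_mul, surf_unit_inv, surf_unit_pow]
  rw [h1, (hDD x).2.2.2.2]
  have h2 := hγ x (Dv x) (hDv x) w hw
  have h3' : (N • ξ) x = N • ξ x := rfl
  rw [h3'] at h2
  suffices h : ∃ m : ℕ, 0 < m ∧ surfRes x.1 (w * (v x ^ N)⁻¹) ^ m = 1 by
    obtain ⟨m, hm, h⟩ := h
    refine ⟨m, hm, ?_⟩
    rw [← surfRes_val, ← Units.val_pow_eq_pow_val, h, Units.val_one]
  by_cases h : TorsV (Dv x) (g (Dv x))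
  · rw [hξ2 x h, smul_zero] at h2
    have h5 : surfRes x.1 w ^ 2 = 1 := by rw [h2]; exact one_pow 2
    rw [hv x, (hDD x).2.2.2.2] at h
    obtain ⟨m, hm, h6⟩ := h
    have h7 : surfRes x.1 (v x) ^ m = 1 := by
      apply Units.ext
      rw [Units.val_pow_eq_pow_val, surfRes_val, h6, Units.val_one]
    refine ⟨2 * m, by omega, ?_⟩
    rw [map_mul, mul_pow, pow_mul, h5, one_pow, one_mul, map_inv, map_pow, inv_pow,
      ← pow_mul, mul_comm N, mul_comm 2 m, mul_assoc, pow_mul, h7, one_pow, inv_one]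
  · have h5 : Additive.toMul (N • ξ x) = surfRes x.1 (v x) ^ N := by
      rw [toMul_nsmul, hξ1 x h]
    rw [h5] at h2
    refine ⟨2, two_pos, ?_⟩
    rw [map_mul, mul_pow, h2, map_inv, map_pow, inv_pow, mul_inv_cancel]

end Pool.Agent.H20.UT
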