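import Pool.Agent.H20.UT.XSpec

/-!
Project UT, row X04: tame symbols at points of codimension one.
-/

set_option autoImplicit false
set_option maxHeartbeats 400000

open AlgebraicGeometry CategoryTheory Pool.Agent.K1 Pool.Agent.KM Pool.Agent.H19.UT

namespace Pool.Agent.H20.UT

theorem ta_sm_of {L : Type} [Field L] (D : ValuationSubring L) (f g : Lˣ) :
    sm D (FreeAbelianGroup.of (f, g)) = f ^ ordV D (g : L) * g ^ (-(ordV D (f : L))) := by
  unfold sm smb
  rw [FreeAbelianGroup.lift_apply_of]
  rfl

/-- The tame symbol of a pair is a unit. -/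
theorem ta_unitIn_sm_of {L : Type} [Field L] (D : ValuationSubring L) (hD : IsDiscV D) (f g : Lˣ) :
    UnitIn D (sm D (FreeAbelianGroup.of (f, g))) := by
  obtain ⟨π, hπ, h⟩ := hD
  obtain ⟨a, u, hu, hf⟩ := h f f.ne_zero
  obtain ⟨b, w, hw, hg⟩ := h g g.ne_zero
  have ha : ordV D (f : L) = a := by rw [hf, ordV_eq hπ hu]
  have hb : ordV D (g : L) = b := by rw [hg, ordV_eq hπ hw]
  have hf' : f = (Units.mk0 π hπ.1) ^ a * u := by
    apply Units.ext
    rw [Units.val_mul, Units.val_zpow_eq_zpow_val, Units.val_mk0, ← hf]
  have hg' : g = (Units.mk0 π hπ.1) ^ b * w := by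
    apply Units.ext
    rw [Units.val_mul, Units.val_zpow_eq_zpow_val, Units.val_mk0, ← hg]
  rw [ta_sm_of, ha, hb]
  have h1 : f ^ b * g ^ (-a) = u ^ b * w ^ (-a) := by
    rw [hf', hg', mul_zpow, mul_zpow, ← zpow_mul, ← zpow_mul]
    have h2 : b * (-a) = -(a * b) := by ring
    rw [h2, zpow_neg]
    rw [mul_mul_mul_comm, mul_inv_cancel, one_mul]
  rw [h1]
  exact tord_unitIn_mul (tord_unitIn_zpow hu b) (tord_unitIn_zpow hw (-a))

theorem ta_stkUnit_val {X : Scheme.{0}} [IsIntegral X] (x : X) (v : (X.presheaf.stalk x)ˣ) :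
    ((stkUnit x v : X.functionFieldˣ) : X.functionField) =
      algebraMap (X.presheaf.stalk x) X.functionField v := rfl

theorem tame_at (h3 : SpStk) : SpTameAt := by
  intro X _ _ x hx hreg D hD f g
  obtain ⟨hdisc, -, hord, hunit, -⟩ := (h3 X x hx hreg).2 D hD
  have hval : ∀ v : (X.presheaf.stalk x)ˣ, sm D (FreeAbelianGroup.of (f, g)) = stkUnit x v →
      (f : X.functionField) ^ (X.ord (g : X.functionField) x) =
        (g : X.functionField) ^ (X.ord (f : X.functionField) x) *
          algebraMap (X.presheaf.stalk x) X.functionField v := by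
    intro v hv
    rw [ta_sm_of, hord f, hord g] at hv
    have h1 := congrArg Units.val hv
    rw [ta_stkUnit_val, Units.val_mul, Units.val_zpow_eq_zpow_val, Units.val_zpow_eq_zpow_val] at h1
    rw [← h1, zpow_neg]
    have h2 : (g : X.functionField) ^ (X.ord (f : X.functionField) x) ≠ 0 :=
      zpow_ne_zero _ g.ne_zero
    field_simp
  have hs : ∀ n : ℤ, ((-1 : X.functionField) ^ n) * ((-1 : X.functionField) ^ n) = 1 := by
    intro n
    rw [← mul_zpow, neg_one_mul, neg_neg, one_zpow]
  constructor
  · obtain ⟨v, hv⟩ := (hunit _).1 (ta_unitIn_sm_of D hdisc f g)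
    have h1 := hval v hv
    set n : ℤ := X.ord (f : X.functionField) x * X.ord (g : X.functionField) x with hn
    have h2 : algebraMap (X.presheaf.stalk x) X.functionField
        (((-1 : (X.presheaf.stalk x)ˣ) ^ n * v : (X.presheaf.stalk x)ˣ) :
          X.presheaf.stalk x) = (-1) ^ n *
          algebraMap (X.presheaf.stalk x) X.functionField v := by
      rw [Units.val_mul, map_mul]
      congr 1
      have h3 := congrArg Units.val (map_zpow (Units.map
        (algebraMap (X.presheaf.stalk x) X.functionField).toMonoidHom)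
        (-1 : (X.presheaf.stalk x)ˣ) n)
      rw [Units.val_zpow_eq_zpow_val] at h3
      have h4 : ((Units.map (algebraMap (X.presheaf.stalk x) X.functionField).toMonoidHom
          (-1 : (X.presheaf.stalk x)ˣ) : X.functionFieldˣ) : X.functionField) = -1 := by
        change algebraMap (X.presheaf.stalk x) X.functionField
          ((-1 : (X.presheaf.stalk x)ˣ) : X.presheaf.stalk x) = -1
        rw [Units.val_neg, Units.val_one, map_neg, map_one]
      rw [h4] at h3
      exact h3
    refine ⟨Units.map (X.residue x).hom.toMonoidHom ((-1) ^ n * v),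
      (-1) ^ n * v, ?_, rfl⟩
    rw [h2, h1, ← hn]
    calc (g : X.functionField) ^ (X.ord (f : X.functionField) x) *
          algebraMap (X.presheaf.stalk x) X.functionField v =
        (((-1 : X.functionField) ^ n) * ((-1 : X.functionField) ^ n)) *
        ((g : X.functionField) ^ (X.ord (f : X.functionField) x) *
          algebraMap (X.presheaf.stalk x) X.functionField v) := by rw [hs, one_mul]
      _ = _ := by ring
  · rintro t ⟨u, hu, ht⟩ v hv
    have h1 := hval v hv
    rw [h1] at hu
    have hg0 : (g : X.functionField) ^ (X.ord (f : X.functionField) x) ≠ 0 :=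
      zpow_ne_zero _ g.ne_zero
    set n : ℤ := X.ord (f : X.functionField) x * X.ord (g : X.functionField) x with hn
    have h2 : algebraMap (X.presheaf.stalk x) X.functionField v = (-1) ^ n *
        algebraMap (X.presheaf.stalk x) X.functionField u := by
      apply mul_left_cancel₀ hg0
      rw [hu]
      ring
    have h3 : algebraMap (X.presheaf.stalk x) X.functionField
        ((v : X.presheaf.stalk x) ^ 2) = algebraMap (X.presheaf.stalk x) X.functionField
        ((u : X.presheaf.stalk x) ^ 2) := by
      rw [map_pow, map_pow, h2, mul_pow, sq ((-1 : X.functionField) ^ n), hs, one_mul]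
    have h4 := IsFractionRing.injective (X.presheaf.stalk x) X.functionField h3
    rw [ht, ← map_pow]
    have h5 : (X.residue x).hom ((u : X.presheaf.stalk x)) ^ 2 =
      (X.residue x).hom ((u : X.presheaf.stalk x) ^ 2) := (map_pow _ _ _).symm
    rw [h4]
    exact h5.symm

end Pool.Agent.H20.UT
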