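import Pool.Agent.H20.UT.XSpec
import Pool.Agent.K1.AffineFacts

/-!
Project UT, row UT-X16: the transcendence degree of the function field.
-/

set_option autoImplicit false
set_option maxHeartbeats 400000

open AlgebraicGeometry CategoryTheory Pool.Agent.K1 Pool.Agent.KM Pool.Agent.H19.UT

namespace Pool.Agent.H20.UT

/-- UT-X16 -/
theorem trdeg_facts : SpTrdeg := by
  intro p _ k _ _ _ n d X _ _ E hdim hex
  let _ := E.kf.toAlgebra
  obtain ⟨x, hx⟩ := hex
  obtain ⟨j, hj⟩ := E.cover x
  have hgj : genericPoint X ∈ E.U (Pi.single j 1) :=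
    ((genericPoint_spec X).mem_open_set_iff (E.U (Pi.single j 1)).isOpen).mpr ⟨x, trivial, hj⟩
  obtain ⟨s, h1, h2, h3⟩ := af_trdeg E _ hgj
  have hne : Nonempty (E.U (Pi.single j 1)) := ⟨⟨_, hgj⟩⟩
  have haff := (E.affine (Pi.single j 1) (af_l_ne_zero E hgj)).1
  have hfr : IsFractionRing Γ(X, E.U (Pi.single j 1)) X.functionField :=
    functionField_isFractionRing_of_isAffineOpen X _ haff
  have hsd : s = d := by
    apply le_antisymm
    · obtain ⟨m, hm⟩ := Ideal.exists_maximal Γ(X, E.U (Pi.single j 1))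
      have h4 := hdim (haff.fromSpec ⟨m, hm.isPrime⟩)
      rw [af_coheight] at h4
      have h5 : m.height ≤ (d : ℕ∞) := h4
      rw [h1 m hm] at h5
      exact_mod_cast h5
    · obtain ⟨P, rfl⟩ := af_surj haff hj
      rw [af_coheight] at hx
      have h4 := Ideal.height_le_ringKrullDim_of_ne_top P.isPrime.ne_top
      rw [hx, h2] at h4
      exact_mod_cast h4
  refine ⟨by rw [h3, hsd], ?_⟩
  let _ := (E.strOn (E.U (Pi.single j 1))).toAlgebra
  have hft : Algebra.FiniteType k Γ(X, E.U (Pi.single j 1)) := af_finiteType E _ hgj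
  have hst : IsScalarTower k Γ(X, E.U (Pi.single j 1)) X.functionField := by
    apply IsScalarTower.of_algebraMap_eq
    intro a
    symm
    change (X.presheaf.germ (E.U (Pi.single j 1)) (genericPoint X) hgj).hom
      ((X.presheaf.map (homOfLE le_top : E.U (Pi.single j 1) ⟶ ⊤).op).hom (E.str a)) = _
    exact X.presheaf.germ_res_apply (homOfLE le_top : E.U (Pi.single j 1) ⟶ ⊤) (genericPoint X) hgj
      (E.str a)
  have he : Algebra.EssFiniteType Γ(X, E.U (Pi.single j 1)) X.functionField :=
    Algebra.EssFiniteType.of_isLocalization _ (nonZeroDivisors Γ(X, E.U (Pi.single j 1)))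
  exact Algebra.EssFiniteType.comp k Γ(X, E.U (Pi.single j 1)) X.functionField

end Pool.Agent.H20.UT
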