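import Pool.Agent.H20.UT.XSpec
import Pool.Agent.K1.Avoid

/-!
Project UT, row X13: a nonzero rational function is a unit at almost all points of codimension one
(helper3).
-/

set_option autoImplicit false
set_option maxHeartbeats 400000

open AlgebraicGeometry CategoryTheory Pool.Agent.K1 Pool.Agent.KM Pool.Agent.H19.UT

namespace Pool.Agent.H20.UT

/-- The points of codimension one outside a nonempty open set are finitely many. -/
theorem x13_finite {X : Scheme.{0}} [IsIntegral X] [IsNoetherian X] (U : X.Opens)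
    (hU : genericPoint X ∈ U) : {x : X | Order.coheight x = 1 ∧ x ∉ U}.Finite := by
  obtain ⟨S, hS, hcl, hirr, hsup⟩ :=
    TopologicalSpace.NoetherianSpace.exists_finite_set_isClosed_irreducible
      (α := X) (s := (U : Set X)ᶜ) U.isOpen.isClosed_compl
  have hsub : ∀ t ∈ S, t ⊆ (U : Set X)ᶜ := fun t ht => by
    rw [hsup]; exact Set.subset_sUnion_of_mem ht
  refine (Set.Finite.sUnion (s := (fun t : Set X => {x : X | Order.coheight x = 1 ∧ x ∈ t}) '' S)
    (hS.image _) ?_).subset ?_
  · rintro _ ⟨t, ht, rfl⟩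
    obtain ⟨η, hη⟩ := QuasiSober.sober (hirr t ht) (hcl t ht)
    refine (Set.finite_singleton η).subset ?_
    rintro y ⟨hy1, hyt⟩
    by_contra hne
    have hηt : η ∈ t := hη.mem
    have hsp : η ⤳ y := hη.specializes hyt
    have h1 := coheight_add_one_le_of_specializes hsp hne
    have hgen : genericPoint X ⤳ η := genericPoint_specializes η
    have hne2 : η ≠ genericPoint X := by
      rintro rfl
      exact hsub t ht hηt hU
    have h2 := coheight_add_one_le_of_specializes hgen hne2
    rw [hy1] at h1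
    have h3 : Order.coheight (genericPoint X) + 1 + 1 ≤ 1 := (add_le_add_left h2 1).trans h1
    have h4 : (1 : ℕ∞) + 1 ≤ 1 :=
      le_trans (add_le_add_left (le_add_of_nonneg_left zero_le) 1) h3
    exact absurd h4 (by decide)
  · rintro x ⟨hx1, hxU⟩
    have hx : x ∈ (U : Set X)ᶜ := hxU
    rw [hsup] at hx
    obtain ⟨t, ht, hxt⟩ := hx
    exact ⟨_, ⟨t, ht, rfl⟩, hx1, hxt⟩

/-- Row X13. -/
theorem unit_fin (h3 : SpStk) : SpUnitFin := by
  intro S _ _ hreg f
  obtain ⟨U, -, f', hne, hf', hunit⟩ := exists_isUnit_germ_eq (X := S) (f : S.functionField) f.ne_zero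
  have hgen : genericPoint S ∈ U := by
    obtain ⟨z⟩ := hne
    exact (genericPoint_specializes z.1).mem_open U.isOpen z.2
  have hfin := x13_finite U hgen
  refine (Set.Finite.biUnion (t := fun x => {D : ValuationSubring S.functionField | IsStk x D})
    hfin ?_).subset ?_
  · intro x _
    apply Set.Subsingleton.finite
    intro D hD D' hD'
    ext z
    rw [hD z, hD' z]
  · rintro D ⟨⟨x, hxD⟩, hnu⟩
    refine Set.mem_biUnion (x := x.1) ⟨x.2, fun hxU => hnu ?_⟩ hxD
    obtain ⟨-, -, -, hiff, -⟩ := (h3 S x.1 x.2 (hreg x.1)).2 D hxD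
    rw [hiff]
    refine ⟨(hunit.map (S.presheaf.germ U x.1 hxU).hom).unit, ?_⟩
    apply Units.ext
    rw [← hf', ← Scheme.algebraMap_germ_eq_germToFunctionField _ hxU]
    rfl

end Pool.Agent.H20.UT
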