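import Pool.Agent.H20.UT.Final
import Pool.Agent.H20.UT.ModelOf
import Pool.Agent.H20.UT.BigTr
import Pool.Agent.H20.UT.BigS
import Pool.Agent.H20.UT.Chain
import Pool.Agent.H20.UT.Const
import Pool.Agent.H20.UT.Ctr
import Pool.Agent.H20.UT.CtrS
import Pool.Agent.H20.UT.DatS
import Pool.Agent.H20.UT.DiscF
import Pool.Agent.H20.UT.End
import Pool.Agent.H20.UT.Nbh
import Pool.Agent.H20.UT.OrdS
import Pool.Agent.H20.UT.Reg2S
import Pool.Agent.H20.UT.Stk
import Pool.Agent.H20.UT.Surf
import Pool.Agent.H20.UT.TameAt
import Pool.Agent.H20.UT.TameK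
import Pool.Agent.H20.UT.TrdegS
import Pool.Agent.H20.UT.UnitFin
import Pool.Agent.H19.UT.OnF
import Pool.Agent.H19.UT.OdF

/-!
Project UT: the scheme side (helper20).
-/

set_option autoImplicit false
set_option maxHeartbeats 400000

open AlgebraicGeometry CategoryTheory Pool.Agent.K1 Pool.Agent.KM Pool.Agent.H19.UT

namespace Pool.Agent.H20.UT

theorem ord_s : SpOrdS := ord_stk stk_facts reg2_stk on_facts (od_facts on_facts)

theorem surf_s : SpSurf :=
  surf sp_sm stk_facts (tame_at stk_facts) reg2_stk on_facts (od_facts on_facts) ord_s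

theorem model_of : SpModelOf :=
  modelOf const_mem stk_facts ctr_unique reg2_stk ord_s surf_s (unit_fin stk_facts)
    (ctr_surface stk_facts ctr_unique)

theorem dat_s : SpDat := dat_exists sp_sm tame_k const_mem ctr_unique (nbh ctr_unique)

theorem end_s : SpEnd := end_chain sp_sm tame_k stk_facts (tame_at stk_facts)
  (chain_exists stk_facts (tame_at stk_facts) (unit_fin stk_facts))

/-- The final theorem, from the main theorem for rational function fields and norms. -/
theorem final_x (hMain : SpMain) (hNorm : SpNormDown) : SpFinal :=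
  final_of hMain hNorm big_tr (disc_above const_mem) model_of trdeg_facts dat_s stk_facts
    big_stk' end_s

end Pool.Agent.H20.UT
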