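import Pool.Agent.H20.UT.Core
import Pool.Agent.K1.Embed

/-!
Project UT: the final assembly (helper20).
-/

set_option autoImplicit false
set_option maxHeartbeats 400000

open AlgebraicGeometry CategoryTheory Pool.Agent.K1 Pool.Agent.KM Pool.Agent.H19.UT

namespace Pool.Agent.H20.UT

theorem final_of (hMain : SpMain) (hNorm : SpNormDown) (hBT : SpBigTr) (hDisc : SpDisc)
    (hModel : SpModelOf) (hTD : SpTrdeg) (hDat : SpDat) (hStk : SpStk) (hBig : SpBig)
    (hEnd : SpEnd) : SpFinal := by
  intro p _ F _ _ _ n X _ _ i _ hreg hdim hdim' k _ _ _ _ m S _ _ j _ hregS hdimS hdimS'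
    ι β hβ ξ hξ
  obtain ⟨EX⟩ := exists_embed F n X i
  obtain ⟨ES⟩ := exists_embed k m S j
  let _ : Algebra F X.functionField := EX.kf.toAlgebra
  let _ : Algebra k S.functionField := ES.kf.toAlgebra
  obtain ⟨Sf⟩ := hModel p k m S j ES hregS hdimS hdimS'
  have hS := hTD p k m 2 S ES hdimS (by exact_mod_cast hdimS')
  have hX := hTD p F n 3 X EX hdim (by exact_mod_cast hdim')
  have hess : Algebra.EssFiniteType k S.functionField := hS.2
  let _ : Algebra (ZMod p) X.functionField :=
    ((algebraMap F X.functionField).comp (algebraMap (ZMod p) F)).toAlgebra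
  have hM : Algebra.trdeg (ZMod p) X.functionField = 3 := by
    rw [trdeg_prime p F X.functionField]
    exact_mod_cast hX.1
  obtain ⟨d, hd⟩ := hDat p F n X EX β hβ
  obtain ⟨N, γ, hN, h1⟩ := core hMain hNorm hBT hDisc p k S.functionField X.functionField
    (by exact_mod_cast hS.1) Sf hM ι d
  refine hEnd X hreg β ξ hξ N γ hN fun x D hD b hb => ?_
  obtain ⟨hDd, hDc, _⟩ := (hStk X x.1 x.2 (hreg x.1)).2 D hD
  exact h1 D hDd (hBig p F n X EX hdim hdim' x D hD) b (hd D hDd x.1 hDc b hb)

end Pool.Agent.H20.UT
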