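import Pool.Agent.H20.UT.XSpec

/-!
Project UT: what is used of a regular projective surface (helper20, after helper19).
-/

set_option autoImplicit false
set_option maxHeartbeats 400000

open Pool.Agent.K1 Pool.Agent.H19.UT

namespace Pool.Agent.H20.UT

/-- What is used of a regular projective surface over `k` with function field `K`: its curves
`S1` and its closed points `S2`. -/
structure SurfModel (k K : Type) [Field k] [Field K] [Algebra k K] where
  S1 : Set (ValuationSubring K)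
  S2 : Set (Subring K)
  disc : ∀ s ∈ S1, IsDiscV s
  reg : ∀ R ∈ S2, Reg2 k R
  res : ∀ (R : Subring K) (hR : R ∈ S2) (a : R), ∃ c : k,
    ¬ IsUnit (a - ⟨algebraMap k K c, (reg R hR).k_mem c⟩)
  on : ∀ R ∈ S2, ∀ s : ValuationSubring K, On R s → s ∈ S1
  centre : ∀ V : ValuationSubring K, V ≠ ⊤ → V ∈ S1 ∨
    ∃ R ∈ S2, ∀ a : R, (a : K) ∈ V ∧ (¬ IsUnit a → (a : K) ∈ V.nonunits)
  fin : ∀ f : Kˣ, {s : ValuationSubring K | s ∈ S1 ∧ ¬ UnitIn s f}.Finite
  kill : ∀ g : ValuationSubring K → Kˣ, (∀ s ∈ S1, UnitIn s (g s)) →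
    {s : ValuationSubring K | s ∈ S1 ∧ ¬ TorsV s (g s)}.Finite →
    (∀ R ∈ S2, ∑ᶠ (s : ValuationSubring K) (_ : On R s), oD R s (g s) = 0) →
    ∃ (N : ℕ) (γ : Sy K), 0 < N ∧ ∀ s ∈ S1, TorsV s (sm s γ * (g s ^ N)⁻¹)

end Pool.Agent.H20.UT
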