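import Pool.Agent.H20.UT.XSpec

/-!
Project UT, row X01: classes in `K_2` and tame symbols of formal sums.
-/

set_option autoImplicit false
set_option maxHeartbeats 400000

open Pool.Agent.K1 Pool.Agent.KM Pool.Agent.H19.UT

namespace Pool.Agent.H20.UT

namespace TameKX

variable {F : Type} [Field F] (D : ValuationSubring F)

theorem val_of_res {u : F} (h : u - 1 ∈ D.nonunits) : D.valuation u = 1 := by
  rw [ValuationSubring.mem_nonunits_iff] at h
  have h1 := Valuation.map_one_add_of_lt (v := D.valuation) h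
  rw [add_sub_cancel] at h1
  exact h1

/-- the units with residue one -/
def S1 : Subgroup Fˣ where
  carrier := {u | (u : F) - 1 ∈ D.nonunits}
  one_mem' := by
    change ((1 : Fˣ) : F) - 1 ∈ D.nonunits
    rw [Units.val_one, sub_self, ValuationSubring.mem_nonunits_iff, map_zero]
    exact zero_lt_one
  mul_mem' := by
    intro u v hu hv
    change ((u * v : Fˣ) : F) - 1 ∈ D.nonunits
    have h1 : ((u * v : Fˣ) : F) - 1 = ((u : F) - 1) * v + ((v : F) - 1) := by
      rw [Units.val_mul]
      ring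
    have h2 := val_of_res D hv
    have hu' := (ValuationSubring.mem_nonunits_iff (A := D)).1 hu
    have hv' := (ValuationSubring.mem_nonunits_iff (A := D)).1 hv
    rw [h1, ValuationSubring.mem_nonunits_iff]
    refine Valuation.map_add_lt _ ?_ hv'
    rw [map_mul, h2, mul_one]
    exact hu'
  inv_mem' := by
    intro u hu
    change ((u⁻¹ : Fˣ) : F) - 1 ∈ D.nonunits
    have h1 : ((u⁻¹ : Fˣ) : F) - 1 = -(((u : F))⁻¹ * ((u : F) - 1)) := by
      rw [Units.val_inv_eq_inv_val, mul_sub, inv_mul_cancel₀ u.ne_zero]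
      ring
    have h2 := val_of_res D hu
    have hu' := (ValuationSubring.mem_nonunits_iff (A := D)).1 hu
    rw [h1, ValuationSubring.mem_nonunits_iff, Valuation.map_neg, map_mul, map_inv₀, h2, inv_one,
      one_mul]
    exact hu'

/-- the units whose residue is a root of unity -/
def TG : Subgroup Fˣ where
  carrier := {u | TorsV D u}
  one_mem' := ⟨1, one_pos, by
    have h := (S1 D).one_mem
    change ((1 : Fˣ) : F) - 1 ∈ D.nonunits at h
    rw [pow_one]
    exact h⟩
  mul_mem' := by
    rintro u v ⟨n, hn, h⟩ ⟨m, hm, h'⟩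
    refine ⟨n * m, Nat.mul_pos hn hm, ?_⟩
    have h1 : u ^ n ∈ S1 D := by
      change ((u ^ n : Fˣ) : F) - 1 ∈ D.nonunits
      rw [Units.val_pow_eq_pow_val]
      exact h
    have h2 : v ^ m ∈ S1 D := by
      change ((v ^ m : Fˣ) : F) - 1 ∈ D.nonunits
      rw [Units.val_pow_eq_pow_val]
      exact h'
    have h3 : (u * v) ^ (n * m) ∈ S1 D := by
      have h4 : (u * v) ^ (n * m) = (u ^ n) ^ m * (v ^ m) ^ n := by
        rw [mul_pow, pow_mul, mul_comm n m, pow_mul]
      rw [h4]
      exact (S1 D).mul_mem ((S1 D).pow_mem h1 m) ((S1 D).pow_mem h2 n)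
    change (((u * v) ^ (n * m) : Fˣ) : F) - 1 ∈ D.nonunits at h3
    rw [Units.val_pow_eq_pow_val] at h3
    exact h3
  inv_mem' := by
    rintro u ⟨n, hn, h⟩
    refine ⟨n, hn, ?_⟩
    have h1 : u ^ n ∈ S1 D := by
      change ((u ^ n : Fˣ) : F) - 1 ∈ D.nonunits
      rw [Units.val_pow_eq_pow_val]
      exact h
    have h2 : (u⁻¹) ^ n ∈ S1 D := by
      rw [inv_pow]
      exact (S1 D).inv_mem h1
    change (((u⁻¹) ^ n : Fˣ) : F) - 1 ∈ D.nonunits at h2
    rw [Units.val_pow_eq_pow_val] at h2
    exact h2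

theorem mem_TG_of {u : Fˣ} (h : u ∈ S1 D) : u ∈ TG D := by
  refine ⟨1, one_pos, ?_⟩
  rw [pow_one]
  exact h

/-- the symbol -/
noncomputable def sy (x : Fin 2 → Fˣ) : Fˣ :=
  x 0 ^ ordV D (x 1 : F) * x 1 ^ (-(ordV D (x 0 : F)))

theorem steinberg (hD : IsDiscV D) (x : Fin 2 → Fˣ) (h : (x 0 : F) + x 1 = 1) :
    sy D x ∈ TG D := by
  have ha0 := (x 0).ne_zero
  have hb0 := (x 1).ne_zero
  -- an element with positive order
  have pos : ∀ a b : Fˣ, (a : F) + b = 1 → 0 < ordV D (a : F) → b ∈ S1 D ∧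
      ordV D (b : F) = 0 := by
    intro a b hab ha
    have h1 : (b : F) - 1 = -(a : F) := by
      rw [← hab]
      ring
    have h2 : (b : F) - 1 ∈ D.nonunits := by
      have h3 := (nonunits_iff_ordV hD a.ne_zero).2 ha
      rw [ValuationSubring.mem_nonunits_iff] at h3
      rw [h1, ValuationSubring.mem_nonunits_iff, Valuation.map_neg]
      exact h3
    refine ⟨h2, ?_⟩
    have h4 := val_of_res D h2
    rw [← unitIn_iff_ordV hD b]
    refine ⟨(D.valuation_le_one_iff _).1 h4.le, ?_⟩
    rw [Units.val_inv_eq_inv_val]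
    refine (D.valuation_le_one_iff _).1 ?_
    rw [map_inv₀, h4, inv_one]
  rcases lt_trichotomy (ordV D (x 0 : F)) 0 with h0 | h0 | h0
  · -- negative order
    have h1 : ordV D (x 1 : F) = ordV D (x 0 : F) := by
      have h2 : (x 1 : F) = (x 0 : F) * (((x 0 : F))⁻¹ * x 1) := by
        rw [← mul_assoc, mul_inv_cancel₀ ha0, one_mul]
      have h3 : ((x 0 : F))⁻¹ + (-(((x 0 : F))⁻¹ * x 1)) = 1 := by
        have h4 : (x 1 : F) = 1 - x 0 := by
          rw [← h]
          ring
        rw [h4]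
        field_simp
        ring
      have h5 := pos (x 0)⁻¹ (-((x 0)⁻¹ * x 1)) (by
        rw [Units.val_neg, Units.val_mul, Units.val_inv_eq_inv_val]
        exact h3) (by
        rw [Units.val_inv_eq_inv_val, ordV_inv hD ha0]
        omega)
      have h6 : UnitIn D (-((x 0)⁻¹ * x 1)) := (unitIn_iff_ordV hD _).2 h5.2
      have h7 : UnitIn D ((x 0)⁻¹ * x 1) := by
        obtain ⟨h8, h9⟩ := h6
        refine ⟨?_, ?_⟩
        · have := D.neg_mem _ h8
          rw [Units.val_neg, neg_neg] at this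
          exact this
        · have := D.neg_mem _ h9
          rw [inv_neg, Units.val_neg, neg_neg] at this
          exact this
      have h8 := (unitIn_iff_ordV hD _).1 h7
      rw [Units.val_mul, Units.val_inv_eq_inv_val] at h8
      rw [h2, ordV_mul hD ha0 (mul_ne_zero (inv_ne_zero ha0) hb0), h8, add_zero]
    -- the quotient has residue `-1`
    have h2 : (-(x 0 * (x 1)⁻¹) : Fˣ) ∈ S1 D := by
      refine (pos (x 1)⁻¹ (-(x 0 * (x 1)⁻¹)) ?_ ?_).1
      · rw [Units.val_neg, Units.val_mul, Units.val_inv_eq_inv_val]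
        have h4 : (x 0 : F) = 1 - x 1 := by
          rw [← h]
          ring
        rw [h4]
        field_simp
        ring
      · rw [Units.val_inv_eq_inv_val, ordV_inv hD hb0, h1]
        omega
    have h3 : (x 0 * (x 1)⁻¹ : Fˣ) ∈ TG D := by
      refine ⟨2, two_pos, ?_⟩
      have h4 := (S1 D).mul_mem h2 h2
      have h5 : (-(x 0 * (x 1)⁻¹) * -(x 0 * (x 1)⁻¹) : Fˣ) = (x 0 * (x 1)⁻¹) ^ 2 := by
        rw [neg_mul_neg, sq]
      rw [h5] at h4
      change (((x 0 * (x 1)⁻¹) ^ 2 : Fˣ) : F) - 1 ∈ D.nonunits at h4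
      rw [Units.val_pow_eq_pow_val] at h4
      exact h4
    have h4 : sy D x = (x 0 * (x 1)⁻¹) ^ ordV D (x 0 : F) := by
      unfold sy
      rw [h1, mul_zpow, inv_zpow']
    rw [h4]
    exact (TG D).zpow_mem h3 _
  · -- order zero
    by_cases h1 : ordV D (x 1 : F) = 0
    · have h2 : sy D x = 1 := by
        unfold sy
        rw [h0, h1]
        simp
      rw [h2]
      exact (TG D).one_mem
    · have h2 : 0 < ordV D (x 1 : F) := by
        have h3 : (x 1 : F) ∈ D := by
          have h4 : (x 1 : F) = 1 - x 0 := by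
            rw [← h]
            ring
          rw [h4]
          exact sub_mem D.one_mem ((mem_iff_ordV hD ha0).2 h0.ge)
        have h4 := (mem_iff_ordV hD hb0).1 h3
        omega
      have h3 := (pos (x 1) (x 0) (by rw [add_comm]; exact h) h2).1
      have h4 : sy D x = x 0 ^ ordV D (x 1 : F) := by
        unfold sy
        rw [h0]
        simp
      rw [h4]
      exact (TG D).zpow_mem (mem_TG_of D h3) _
  · -- positive order
    obtain ⟨h1, h2⟩ := pos (x 0) (x 1) h h0
    have h4 : sy D x = x 1 ^ (-(ordV D (x 0 : F))) := by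
      unfold sy
      rw [h2, zpow_zero, one_mul]
    rw [h4]
    exact (TG D).zpow_mem (mem_TG_of D h1) _

/-- the symbol as a homomorphism -/
noncomputable def Phi : FreeAbelianGroup (Fin 2 → Fˣ) →+ Additive Fˣ :=
  FreeAbelianGroup.lift fun x => Additive.ofMul (sy D x)

theorem Phi_of (x : Fin 2 → Fˣ) : Phi D (FreeAbelianGroup.of x) = Additive.ofMul (sy D x) :=
  FreeAbelianGroup.lift_apply_of _ _

theorem sy_mul (hD : IsDiscV D) (x : Fin 2 → Fˣ) (i : Fin 2) (a b : Fˣ) :
    sy D (Function.update x i (a * b)) =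
      sy D (Function.update x i a) * sy D (Function.update x i b) := by
  have h1 : ordV D ((a * b : Fˣ) : F) = ordV D (a : F) + ordV D (b : F) := by
    rw [Units.val_mul, ordV_mul hD a.ne_zero b.ne_zero]
  unfold sy
  fin_cases i
  · simp only [Fin.zero_eta, Function.update_self, ne_eq, one_ne_zero, not_false_eq_true,
      Function.update_of_ne]
    rw [h1, mul_zpow, neg_add, zpow_add]
    rw [mul_mul_mul_comm]
  · simp only [Fin.mk_one, Function.update_self, ne_eq, zero_ne_one, not_false_eq_true,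
      Function.update_of_ne]
    rw [h1, mul_zpow, zpow_add]
    rw [mul_mul_mul_comm]

/-- the elements with torsion symbol -/
noncomputable def CG : AddSubgroup (FreeAbelianGroup (Fin 2 → Fˣ)) :=
  (Subgroup.toAddSubgroup (TG D)).comap (Phi D)

theorem rel_le (hD : IsDiscV D) : AddSubgroup.closure {ξ | MilnorRel F 2 ξ} ≤ CG D := by
  rw [AddSubgroup.closure_le]
  intro ξ hξ
  change Phi D ξ ∈ Subgroup.toAddSubgroup (TG D)
  cases hξ with
  | mul x i a b =>
    rw [map_sub, map_sub, Phi_of, Phi_of, Phi_of, sy_mul D hD, ofMul_mul, add_sub_cancel_left,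
      sub_self]
    exact AddSubgroup.zero_mem _
  | steinberg x i j hij h =>
    have hi : i = 0 := by
      apply Fin.ext
      have := j.isLt
      have h0 : ((0 : Fin 2) : ℕ) = 0 := rfl
      omega
    have hj : j = 1 := by
      apply Fin.ext
      have h0 : ((1 : Fin 2) : ℕ) = 1 := rfl
      rw [hi] at hij
      have h1 : ((0 : Fin 2) : ℕ) = 0 := rfl
      omega
    rw [hi, hj] at h
    rw [Phi_of]
    exact steinberg D hD x h

/-- formal sums of pairs -/
noncomputable def psi : Sy F →+ FreeAbelianGroup (Fin 2 → Fˣ) :=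
  FreeAbelianGroup.lift fun p => FreeAbelianGroup.of ![p.1, p.2]

theorem psi_of (p : Fˣ × Fˣ) : psi (FreeAbelianGroup.of p) = FreeAbelianGroup.of ![p.1, p.2] :=
  FreeAbelianGroup.lift_apply_of _ _

theorem toK2_psi (β : Sy F) : toK2 β =
    QuotientAddGroup.mk' (AddSubgroup.closure {ξ | MilnorRel F 2 ξ}) (psi β) := by
  have h : (toK2 : Sy F →+ MilnorK F 2) =
      (QuotientAddGroup.mk' (AddSubgroup.closure {ξ | MilnorRel F 2 ξ})).comp psi := by
    apply FreeAbelianGroup.lift_ext
    intro p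
    rw [AddMonoidHom.comp_apply, psi_of]
    exact FreeAbelianGroup.lift_apply_of _ _
  rw [h]
  rfl

theorem smb_psi (β : Sy F) : smb D β = Phi D (psi β) := by
  have h : smb D = (Phi D).comp psi := by
    apply FreeAbelianGroup.lift_ext
    intro p
    rw [AddMonoidHom.comp_apply, psi_of, Phi_of]
    exact FreeAbelianGroup.lift_apply_of _ _
  rw [h]
  rfl

end TameKX

open TameKX in
/-- X01 -/
theorem tame_k : SpTameK := by
  constructor
  · intro F _ b
    obtain ⟨ξ, rfl⟩ := QuotientAddGroup.mk'_surjective _ b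
    induction ξ using FreeAbelianGroup.induction_on with
    | zero => exact ⟨0, by rw [map_zero, map_zero]⟩
    | of x =>
      refine ⟨FreeAbelianGroup.of (x 0, x 1), ?_⟩
      rw [toK2_psi, psi_of]
      congr 2
      funext i
      fin_cases i <;> rfl
    | neg x ih =>
      obtain ⟨β, hβ⟩ := ih
      exact ⟨-β, by rw [map_neg, map_neg, hβ]⟩
    | add x y hx hy =>
      obtain ⟨β, hβ⟩ := hx
      obtain ⟨β', hβ'⟩ := hy
      exact ⟨β + β', by rw [map_add, map_add, hβ, hβ']⟩
  · intro F _ D hD U hU β hβ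
    have h1 : AddSubgroup.closure {s | ∃ u ∈ U, ∃ v ∈ U, s = k2 u v} ≤
        (CG D).map (QuotientAddGroup.mk' (AddSubgroup.closure {ξ | MilnorRel F 2 ξ})) := by
      rw [AddSubgroup.closure_le]
      rintro s ⟨u, hu, v, hv, rfl⟩
      refine ⟨FreeAbelianGroup.of ![u, v], ?_, rfl⟩
      change Phi D (FreeAbelianGroup.of ![u, v]) ∈ Subgroup.toAddSubgroup (TG D)
      rw [Phi_of]
      have h2 : sy D ![u, v] = 1 := by
        unfold sy
        have h3 : ordV D ((![u, v] 0 : Fˣ) : F) = 0 := (unitIn_iff_ordV hD u).1 (hU u hu)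
        have h4 : ordV D ((![u, v] 1 : Fˣ) : F) = 0 := (unitIn_iff_ordV hD v).1 (hU v hv)
        rw [h3, h4]
        simp
      rw [h2]
      exact (TG D).one_mem
    obtain ⟨ξ, hξ, hξβ⟩ := h1 hβ
    rw [toK2_psi] at hξβ
    have h2 : psi β - ξ ∈ AddSubgroup.closure {ξ | MilnorRel F 2 ξ} := by
      rw [← QuotientAddGroup.ker_mk' (AddSubgroup.closure {ξ | MilnorRel F 2 ξ}),
        AddMonoidHom.mem_ker, map_sub, hξβ, sub_self]
    have h3 : psi β ∈ CG D := by
      have h4 := (CG D).add_mem (rel_le D hD h2) hξ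
      rw [sub_add_cancel] at h4
      exact h4
    have h4 : smb D β ∈ Subgroup.toAddSubgroup (TG D) := by
      rw [smb_psi]
      exact h3
    exact h4

end Pool.Agent.H20.UT
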