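import Pool.Agent.H19.UT.SpA
import Pool.Agent.K1.L3Defs
import Pool.Agent.K1.BDefs

/-!
Project UT, scheme side: definitions (helper20).
-/

set_option autoImplicit false
set_option maxHeartbeats 400000

open AlgebraicGeometry CategoryTheory Pool.Agent.K1 Pool.Agent.KM Pool.Agent.H19.UT

namespace Pool.Agent.H20.UT

section fields

/-- The symbol `{f, g}` in the Milnor K-group `K_2` of a field. -/
noncomputable def k2 {F : Type} [Field F] (f g : Fˣ) : MilnorK F 2 :=
  QuotientAddGroup.mk (FreeAbelianGroup.of ![f, g])

/-- The class in `K_2` of a formal sum of pairs. -/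
noncomputable def toK2 {F : Type} [Field F] : Sy F →+ MilnorK F 2 :=
  FreeAbelianGroup.lift fun p => k2 p.1 p.2

/-- The residue field of `D` contains two elements which are algebraically independent over the
field with `p` elements. -/
def Big (p : ℕ) {L : Type} [Field L] (D : ValuationSubring L) : Prop :=
  ∃ z : Fin 2 → L, ∀ P : MvPolynomial (Fin 2) ℤ, P.map (Int.castRingHom (ZMod p)) ≠ 0 →
    P.eval₂ (Int.castRingHom L) z ∈ D ∧ P.eval₂ (Int.castRingHom L) z ∉ D.nonunits

end fields

section schemes

variable {X : Scheme.{0}} [IsIntegral X]

/-- The image of a unit of the local ring in the function field. -/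
noncomputable def stkUnit (x : X) (u : (X.presheaf.stalk x)ˣ) : X.functionFieldˣ :=
  Units.map (algebraMap (X.presheaf.stalk x) X.functionField).toMonoidHom u

/-- The subgroup of `K_2` of the function field which is generated by the symbols `{u, v}`, where
`u` and `v` are units of the local ring at `x`: the image of `K_2` of the local ring. -/
noncomputable def unitSymbols (x : X) : AddSubgroup (MilnorK X.functionField 2) :=
  AddSubgroup.closure {s | ∃ u v : (X.presheaf.stalk x)ˣ, s = k2 (stkUnit x u) (stkUnit x v)}

/-- `β` is a section of the sheaf `K_2(F)/K_2`, where `F` is the function field: near `x` it is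
given by the element `β x` of `K_2(F)`. -/
def IsSection2 (β : X → MilnorK X.functionField 2) : Prop :=
  ∀ x : X, ∃ U : X.Opens, x ∈ U ∧ ∀ y ∈ U, β y - β x ∈ unitSymbols y

/-- `t` is the tame symbol at `x` of the element `b = ∑ n j • {f j, g j}` of `K_2` of the function
field. -/
def IsTameK2 [IsLocallyNoetherian X] (x : X) (b : MilnorK X.functionField 2)
    (t : (X.residueField x)ˣ) : Prop :=
  ∃ (m : ℕ) (f g : Fin m → X.functionFieldˣ) (n : Fin m → ℤ) (s : Fin m → (X.residueField x)ˣ),
    b = ∑ j, n j • k2 (f j) (g j) ∧ (∀ j, IsTameAt x (f j : X.functionField) (g j) (s j)) ∧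
    t = ∏ j, s j ^ n j

/-- The image of the local ring at `x` in the function field. -/
noncomputable def stkSub (x : X) : Subring X.functionField :=
  (algebraMap (X.presheaf.stalk x) X.functionField).range

/-- The valuation ring `D` is the image of the local ring at `x` in the function field. -/
def IsStk (x : X) (D : ValuationSubring X.functionField) : Prop :=
  ∀ z : X.functionField, z ∈ D ↔ z ∈ stkSub x

/-- The valuation ring `V` is centred at `y`. -/
def Ctr (V : ValuationSubring X.functionField) (y : X) : Prop :=
  ∀ a : X.presheaf.stalk y, algebraMap (X.presheaf.stalk y) X.functionField a ∈ V ∧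
    (¬ IsUnit a → algebraMap (X.presheaf.stalk y) X.functionField a ∈ V.nonunits)

end schemes

end Pool.Agent.H20.UT
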