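import Pool.Agent.H20.UT.XDefs

/-!
Project UT, block X (scheme side): statements (helper20).
-/

set_option autoImplicit false
set_option maxHeartbeats 400000

open AlgebraicGeometry CategoryTheory Pool.Agent.K1 Pool.Agent.KM Pool.Agent.H19.UT

namespace Pool.Agent.H20.UT

/-- X01: every class in `K_2` comes from a formal sum; the tame symbol of a formal sum whose class
is a sum of symbols of units of `D` is torsion. -/
def SpTameK : Prop :=
  (∀ (F : Type) [Field F] (b : MilnorK F 2), ∃ β : Sy F, toK2 β = b) ∧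
  ∀ (F : Type) [Field F] (D : ValuationSubring F), IsDiscV D → ∀ (U : Set Fˣ),
    (∀ u ∈ U, UnitIn D u) → ∀ β : Sy F,
    toK2 β ∈ AddSubgroup.closure {s | ∃ u ∈ U, ∃ v ∈ U, s = k2 u v} → TorsV D (sm D β)

/-- X02: every valuation ring contains the elements which are algebraic over the prime field. -/
def SpConst : Prop := ∀ (p : ℕ) [Fact p.Prime] (k L : Type) [Field k] [Field L]
  [Algebra (ZMod p) k] [Algebra.IsAlgebraic (ZMod p) k] (φ : k →+* L) (V : ValuationSubring L)
  (c : k), φ c ∈ V

/-- X03: the local rings of codimension one, as valuation rings. -/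
def SpStk : Prop := ∀ (X : Scheme.{0}) [IsIntegral X] [IsLocallyNoetherian X] (x : X),
  Order.coheight x = 1 → IsRegularLocalRing (X.presheaf.stalk x) →
  (∃ D, IsStk x D) ∧
  ∀ D, IsStk x D →
    IsDiscV D ∧ Ctr D x ∧ (∀ f : X.functionFieldˣ, ordV D (f : X.functionField) =
      X.ord (f : X.functionField) x) ∧
    (∀ u : X.functionFieldˣ, UnitIn D u ↔ ∃ v : (X.presheaf.stalk x)ˣ, u = stkUnit x v) ∧
    (∀ v : (X.presheaf.stalk x)ˣ, TorsV D (stkUnit x v) ↔
      ∃ n : ℕ, 0 < n ∧ (X.residue x).hom (v : X.presheaf.stalk x) ^ n = 1)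

/-- X04: tame symbols at points of codimension one. -/
def SpTameAt : Prop := ∀ (X : Scheme.{0}) [IsIntegral X] [IsLocallyNoetherian X] (x : X),
  Order.coheight x = 1 → IsRegularLocalRing (X.presheaf.stalk x) → ∀ D, IsStk x D →
  ∀ f g : X.functionFieldˣ,
    (∃ t, IsTameAt x (f : X.functionField) (g : X.functionField) t) ∧
    ∀ t, IsTameAt x (f : X.functionField) (g : X.functionField) t →
      ∀ v : (X.presheaf.stalk x)ˣ, sm D (FreeAbelianGroup.of (f, g)) = stkUnit x v →
        (X.residue x).hom (v : X.presheaf.stalk x) ^ 2 = (t : X.residueField x) ^ 2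

/-- X05: centres of valuation rings. -/
def SpCtr : Prop := ∀ (k : Type) [Field k] (n : ℕ) (X : Scheme.{0}) [IsIntegral X]
  (E : Embed k X n) (V : ValuationSubring X.functionField), (∀ c : k, E.kf c ∈ V) →
  ∃! y : X, Ctr V y

/-- X06: charts: an open neighbourhood of `x` contains an open neighbourhood `U` and a finite set
`A` of functions such that `A ⊆ V` if and only if the centre of `V` is in `U`. -/
def SpNbh : Prop := ∀ (k : Type) [Field k] (n : ℕ) (X : Scheme.{0}) [IsIntegral X]
  (E : Embed k X n) (x : X) (W : X.Opens), x ∈ W → ∃ (U : X.Opens) (A : Finset X.functionField),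
  x ∈ U ∧ U ≤ W ∧ ∀ V : ValuationSubring X.functionField, (∀ c : k, E.kf c ∈ V) →
    ∀ y, Ctr V y → ((∀ a ∈ A, a ∈ V) ↔ y ∈ U)

/-- X07: a section of `K_2(F)/K_2` gives data on the function field. -/
def SpDat : Prop := ∀ (p : ℕ) [Fact p.Prime] (k : Type) [Field k] [Algebra (ZMod p) k]
  [Algebra.IsAlgebraic (ZMod p) k] (n : ℕ) (X : Scheme.{0}) [IsIntegral X] [IsNoetherian X]
  (_ : Embed k X n) (β : X → MilnorK X.functionField 2), IsSection2 β →
  ∃ d : Dat X.functionField, ∀ D : ValuationSubring X.functionField, IsDiscV D →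
    ∀ y, Ctr D y → ∀ b : Sy X.functionField, toK2 b = β y → TorsV D (d.val D * (sm D b)⁻¹)

/-- X08: the tame symbols of a formal sum at the points of codimension one: a chain in
`tameChains`. -/
def SpChain : Prop := ∀ (X : Scheme.{0}) [IsIntegral X] [IsNoetherian X],
  (∀ x : X, IsRegularLocalRing (X.presheaf.stalk x)) → ∀ γ : Sy X.functionField,
  ∃ η ∈ tameChains X, ∀ (x : PointOne X) (D), IsStk x.1 D → ∀ v : (X.presheaf.stalk x.1)ˣ,
    sm D γ = stkUnit x.1 v → (X.residue x.1).hom (v : X.presheaf.stalk x.1) ^ 2 =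
      ((Additive.toMul (η x) : (X.residueField x.1)ˣ) : X.residueField x.1) ^ 2

/-- X09: from tame symbols up to torsion to chains. -/
def SpEnd : Prop := ∀ (X : Scheme.{0}) [IsIntegral X] [IsNoetherian X],
  (∀ x : X, IsRegularLocalRing (X.presheaf.stalk x)) → ∀ (β : X → MilnorK X.functionField 2)
  (ξ : SChain X), (∀ x : PointOne X, IsTameK2 x.1 (β x.1) (Additive.toMul (ξ x))) →
  ∀ (N : ℕ) (γ : Sy X.functionField), 0 < N →
  (∀ (x : PointOne X) (D), IsStk x.1 D → ∀ b : Sy X.functionField, toK2 b = β x.1 →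
    TorsV D (sm D (γ - N • b))) →
  ∃ M : ℕ, 0 < M ∧ M • ξ ∈ tameChains X

/-- X10: the local rings of codimension two. -/
def SpReg2 : Prop := ∀ (k : Type) [Field k] (n : ℕ) (X : Scheme.{0}) [IsIntegral X]
  [IsLocallyNoetherian X] (E : Embed k X n) (y : X), Order.coheight y = 2 →
  IsRegularLocalRing (X.presheaf.stalk y) → letI := E.kf.toAlgebra; Reg2 k (stkSub y)

/-- X11: the curves on the local rings of codimension two, and orders along them. -/
def SpOrdS : Prop := ∀ (k : Type) [Field k] (n : ℕ) (X : Scheme.{0}) [IsIntegral X]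
  [IsLocallyNoetherian X] (_ : Embed k X n) (y : X), Order.coheight y = 2 →
  (∀ x : X, IsRegularLocalRing (X.presheaf.stalk x)) →
  (∀ D : ValuationSubring X.functionField, On (stkSub y) D ↔
    ∃ x : PointOne X, x.1 ⤳ y ∧ IsStk x.1 D) ∧
  ∀ (x : PointOne X) (h : x.1 ⤳ y) (D : ValuationSubring X.functionField), IsStk x.1 D →
    ∀ (v : (X.presheaf.stalk x.1)ˣ) (t : (X.residueField x.1)ˣ),
      (X.residue x.1).hom (v : X.presheaf.stalk x.1) = t →
      IsOrdAt h t (oD (stkSub y) D (stkUnit x.1 v))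

/-- X12: the theorem on surfaces, for valuation rings. -/
def SpSurf : Prop := ∀ (p : ℕ) [Fact p.Prime] (k : Type) [Field k] [Algebra (ZMod p) k]
  [Algebra.IsAlgebraic (ZMod p) k] (n : ℕ) (S : Scheme.{0}) [IsIntegral S] [IsNoetherian S]
  (i : S ⟶ PN k n) [IsClosedImmersion i],
  (∀ x : S, IsRegularLocalRing (S.presheaf.stalk x)) → (∀ x : S, Order.coheight x ≤ 2) →
  (∃ x : S, Order.coheight x = 2) → ∀ g : ValuationSubring S.functionField → S.functionFieldˣ,
  (∀ (x : PointOne S) (D), IsStk x.1 D → UnitIn D (g D)) →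
  {D : ValuationSubring S.functionField | (∃ x : PointOne S, IsStk x.1 D) ∧
    ¬ TorsV D (g D)}.Finite →
  (∀ y : S, Order.coheight y = 2 →
    ∑ᶠ (D : ValuationSubring S.functionField) (_ : On (stkSub y) D), oD (stkSub y) D (g D) = 0) →
  ∃ (N : ℕ) (γ : Sy S.functionField), 0 < N ∧ ∀ (x : PointOne S) (D), IsStk x.1 D →
    TorsV D (sm D γ * (g D ^ N)⁻¹)

/-- X13: finiteness: a nonzero rational function is a unit at almost all points of codimension
one. -/
def SpUnitFin : Prop := ∀ (S : Scheme.{0}) [IsIntegral S] [IsNoetherian S],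
  (∀ x : S, IsRegularLocalRing (S.presheaf.stalk x)) → ∀ f : S.functionFieldˣ,
  {D : ValuationSubring S.functionField | (∃ x : PointOne S, IsStk x.1 D) ∧
    ¬ UnitIn D f}.Finite

/-- X14: centres on a regular surface: a valuation ring of the function field is the local ring of
a curve, or it dominates the local ring of a closed point, with residue field `k`. -/
def SpCtrS : Prop := ∀ (k : Type) [Field k] [IsAlgClosed k] (n : ℕ) (S : Scheme.{0})
  [IsIntegral S] [IsNoetherian S] (E : Embed k S n),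
  (∀ x : S, IsRegularLocalRing (S.presheaf.stalk x)) → (∀ x : S, Order.coheight x ≤ 2) →
  (∃ x : S, Order.coheight x = 2) →
  ∀ V : ValuationSubring S.functionField, V ≠ ⊤ → (∀ c : k, E.kf c ∈ V) →
  (∃ x : PointOne S, IsStk x.1 V) ∨
  ∃ y : S, Order.coheight y = 2 ∧ Ctr V y ∧
    ∀ a : S.presheaf.stalk y, ∃ c : k,
      algebraMap (S.presheaf.stalk y) S.functionField a - E.kf c ∈ V.nonunits

/-- X15: the residue field at a point of codimension one of a threefold. -/
def SpBig : Prop := ∀ (p : ℕ) [Fact p.Prime] (k : Type) [Field k] [Algebra (ZMod p) k]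
  [Algebra.IsAlgebraic (ZMod p) k] (n : ℕ) (X : Scheme.{0}) [IsIntegral X] [IsNoetherian X]
  (_ : Embed k X n), (∀ x : X, Order.coheight x ≤ 3) → (∃ x : X, Order.coheight x = 3) →
  ∀ (x : PointOne X) (D), IsStk x.1 D → Big p D

/-- X16: the function field of a threefold, and of a surface. -/
def SpTrdeg : Prop := ∀ (p : ℕ) [Fact p.Prime] (k : Type) [Field k] [Algebra (ZMod p) k]
  [Algebra.IsAlgebraic (ZMod p) k] (n d : ℕ) (X : Scheme.{0}) [IsIntegral X] [IsNoetherian X]
  (E : Embed k X n), (∀ x : X, Order.coheight x ≤ d) → (∃ x : X, Order.coheight x = d) →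
  (letI := E.kf.toAlgebra; Algebra.trdeg k X.functionField = d ∧
    Algebra.EssFiniteType k X.functionField)

/-- X17: valuation rings above a discrete valuation ring with big residue field are discrete, in
fields of transcendence degree three over an algebraic extension of the prime field. -/
def SpDisc : Prop := ∀ (p : ℕ) [Fact p.Prime] (k K L : Type) [Field k] [Field K] [Field L]
  [Algebra (ZMod p) k] [Algebra.IsAlgebraic (ZMod p) k] [Algebra k L] [Algebra.EssFiniteType k L],
  Algebra.trdeg k L = 3 → ∀ (φ : K →+* L) (W : ValuationSubring L), IsDiscV (W.comap φ) →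
  Big p (W.comap φ) → IsDiscV W ∧ Big p W

end Pool.Agent.H20.UT
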