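import Pool.Agent.H20.UT.XAll
import Pool.Agent.H19.UT.Aff
import Pool.Agent.H19.UT.AllDivFull
import Pool.Agent.H19.UT.AllK
import Pool.Agent.H19.UT.BaseF
import Pool.Agent.H19.UT.Basic
import Pool.Agent.H19.UT.BlowF
import Pool.Agent.H19.UT.BlowX
import Pool.Agent.H19.UT.CDesc
import Pool.Agent.H19.UT.CE
import Pool.Agent.H19.UT.CStep
import Pool.Agent.H19.UT.CT
import Pool.Agent.H19.UT.ChartF
import Pool.Agent.H19.UT.ClF
import Pool.Agent.H19.UT.Cmp
import Pool.Agent.H19.UT.Comp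
import Pool.Agent.H19.UT.Const
import Pool.Agent.H19.UT.Coord
import Pool.Agent.H19.UT.CycF
import Pool.Agent.H19.UT.CycK
import Pool.Agent.H19.UT.CycleAll
import Pool.Agent.H19.UT.DegF
import Pool.Agent.H19.UT.ExtDisc
import Pool.Agent.H19.UT.ExtQ
import Pool.Agent.H19.UT.FgExt
import Pool.Agent.H19.UT.Gauss
import Pool.Agent.H19.UT.GaussRes
import Pool.Agent.H19.UT.Gf
import Pool.Agent.H19.UT.GfFin
import Pool.Agent.H19.UT.HMap
import Pool.Agent.H19.UT.Hor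
import Pool.Agent.H19.UT.Inf
import Pool.Agent.H19.UT.KPl
import Pool.Agent.H19.UT.Kill
import Pool.Agent.H19.UT.LocF
import Pool.Agent.H19.UT.Main
import Pool.Agent.H19.UT.Norm
import Pool.Agent.H19.UT.NormDown
import Pool.Agent.H19.UT.NormPoly
import Pool.Agent.H19.UT.NormSimple
import Pool.Agent.H19.UT.OnF
import Pool.Agent.H19.UT.OrdF
import Pool.Agent.H19.UT.Psi
import Pool.Agent.H19.UT.RAll
import Pool.Agent.H19.UT.ResVal
import Pool.Agent.H19.UT.RingP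
import Pool.Agent.H19.UT.RingPD
import Pool.Agent.H19.UT.RingPX
import Pool.Agent.H19.UT.RingT
import Pool.Agent.H19.UT.RingTD
import Pool.Agent.H19.UT.St
import Pool.Agent.H19.UT.Tate
import Pool.Agent.H19.UT.WEx

/-!
Project UT: all the blocks together (helper20).
-/

set_option autoImplicit false
set_option maxHeartbeats 400000

open AlgebraicGeometry CategoryTheory Pool.Agent.K1 Pool.Agent.KM Pool.Agent.H19.UT

namespace Pool.Agent.H19.UT

theorem z_SpGauss : SpGauss :=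
  sp_gauss

theorem z_SpHor : SpHor :=
  sp_hor

theorem z_SpTate : SpTate :=
  sp_tate z_SpHor

theorem z_SpSm : SpSm :=
  sp_sm

theorem z_SpOnFacts : SpOnFacts :=
  on_facts

theorem z_SpOD : SpOD :=
  sp_od

theorem z_SpFin : SpFin :=
  sp_fin

theorem z_SpBase : SpBase :=
  base_cycle z_SpSm z_SpOnFacts z_SpOD

theorem z_SpDl : SpDl :=
  sp_dl

theorem z_SpChart : SpChart :=
  chart_in z_SpDl

theorem z_SpBlowX : SpBlowX :=
  blow_exists z_SpOnFacts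

theorem z_SpBlow : SpBlow :=
  blow_generic z_SpBlowX z_SpOnFacts

theorem z_SpOrd : SpOrd :=
  ord_facts

theorem z_SpE : SpE :=
  sp_e

theorem z_SpLoc : SpLoc :=
  loc_facts

theorem z_SpCl : SpCl :=
  cl_facts z_SpOnFacts z_SpE z_SpLoc

theorem z_SpOE : SpOE :=
  sp_oe

theorem z_SpSum : SpSum :=
  sp_sum

theorem z_SpDlLt : SpDlLt :=
  sp_dlLt

theorem z_SpDeg : SpDeg :=
  deg_facts

theorem z_SpCycle : SpCycle :=
  cycle_all z_SpSm z_SpOnFacts z_SpOD z_SpFin z_SpBase z_SpDl z_SpChart z_SpBlow z_SpOrd z_SpE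
    z_SpLoc z_SpCl z_SpOE z_SpSum z_SpDlLt z_SpDeg

theorem z_SpCoord : SpCoord :=
  sp_coord

theorem z_SpRingP : SpRingP :=
  sp_ringP

theorem z_SpRingPD : SpRingPD :=
  sp_ringPD z_SpOnFacts z_SpOD z_SpGauss z_SpRingP

theorem z_SpRingPX : SpRingPX :=
  sp_ringPX z_SpOnFacts z_SpOD z_SpRingP

theorem z_SpConst : SpConst :=
  sp_const z_SpCycle z_SpOnFacts z_SpOD z_SpGauss z_SpRingP z_SpRingPD

theorem z_SpInf : SpInf :=
  sp_inf z_SpCycle z_SpOD z_SpGauss z_SpCoord z_SpRingP z_SpRingPD z_SpRingPX z_SpConst z_SpHor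

theorem z_SpExtQ : SpExtQ :=
  ext_q

theorem z_SpExtDisc : SpExtDisc :=
  ext_disc

theorem z_SpKPl : SpKPl :=
  sp_kpl z_SpExtQ z_SpExtDisc

theorem z_SpRingT : SpRingT :=
  sp_ringT

theorem z_SpRingTD : SpRingTD :=
  sp_ringTD z_SpOnFacts z_SpOD z_SpGauss z_SpRingT

theorem z_SpCycK : SpCycK :=
  sp_cycK z_SpCycle z_SpFin z_SpOnFacts z_SpOD z_SpGauss z_SpRingT z_SpRingTD

theorem z_SpGf : SpGf :=
  sp_gf z_SpOnFacts z_SpConst z_SpCycK

theorem z_SpGfFin : SpGfFin :=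
  sp_gffin z_SpGauss

theorem z_SpKill : SpKill :=
  sp_kill z_SpGauss z_SpGf z_SpGfFin

theorem z_SpCStep : SpCStep :=
  sp_cstep z_SpBlowX z_SpOnFacts z_SpE z_SpLoc

theorem z_SpCE : SpCE :=
  sp_ce z_SpOnFacts z_SpOD z_SpE z_SpLoc z_SpCl z_SpOE

theorem z_SpCDesc : SpCDesc :=
  sp_cdesc z_SpCStep z_SpCE

theorem z_SpAllK : SpAllK :=
  sp_allk z_SpGf z_SpCDesc

theorem z_SpHMap : SpHMap :=
  sp_hmap

theorem z_SpRB : SpRB :=
  sp_rb_all

theorem z_SpCmp : SpCmp :=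
  sp_cmp z_SpOnFacts z_SpOD z_SpGauss z_SpCoord z_SpGf z_SpRB

theorem z_SpAff : SpAff :=
  sp_aff z_SpGauss z_SpCoord z_SpGf z_SpCmp

theorem z_SpFgExt : SpFgExt :=
  sp_fgext

theorem z_SpGaussRes : SpGaussRes :=
  sp_gaussres

theorem z_SpCT : SpCT :=
  sp_ct z_SpGauss z_SpHMap z_SpAff z_SpFgExt z_SpGaussRes

theorem z_SpAllDiv : SpAllDiv :=
  sp_alldiv_full

theorem z_SpMain : SpMain :=
  sp_main z_SpGauss z_SpTate z_SpInf z_SpKPl z_SpGf z_SpKill z_SpAllK z_SpCT z_SpAllDiv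

theorem z_SpSt : SpSt :=
  sp_st

theorem z_SpNormPoly : SpNormPoly :=
  norm_poly z_SpSt

theorem z_SpNormSimple : SpNormSimple :=
  norm_simple z_SpNormPoly

theorem z_SpNorm : SpNorm :=
  norm_all z_SpNormSimple

theorem z_SpPsi : SpPsi :=
  sp_psi z_SpSt

theorem z_SpResVal : SpResVal :=
  res_val z_SpExtQ

theorem z_SpComp : SpComp :=
  comp_val

theorem z_SpW : SpW :=
  w_exists z_SpExtQ z_SpResVal z_SpComp

theorem z_SpNormDown : SpNormDown :=
  norm_down z_SpNorm z_SpPsi z_SpExtDisc z_SpW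

end Pool.Agent.H19.UT

namespace Pool.Agent.H20.UT

theorem final_all  : SpFinal :=
  final_x z_SpMain z_SpNormDown

end Pool.Agent.H20.UT
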